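import Mathlib
import Pool.Agent.Y200.V1.Indep

/-! Descent of dominant rational maps from affine space to an algebraically closed subfield. -/

set_option autoImplicit false

namespace Pool.Agent.Y200.CB

open MvPolynomial

universe u v w

/-- Nullstellensatz: a nontrivial finitely generated algebra over an algebraically closed field has
a rational point. -/
theorem exists_algHom_of_finiteType (K : Type u) (S : Type v) [Field K] [IsAlgClosed K]
    [CommRing S] [Nontrivial S] [Algebra K S] [Algebra.FiniteType K S] : Nonempty (S →ₐ[K] K) := by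
  obtain ⟨m, hm⟩ := Ideal.exists_maximal S
  let : Field (S ⧸ m) := Ideal.Quotient.field m
  have : Algebra.FiniteType K (S ⧸ m) :=
    Algebra.FiniteType.of_surjective (Ideal.Quotient.mkₐ K m)
      (Ideal.Quotient.mkₐ_surjective K m)
  have : Module.Finite K (S ⧸ m) := finite_of_finite_type_of_isJacobsonRing K (S ⧸ m)
  have hb : Function.Bijective (algebraMap K (S ⧸ m)) :=
    IsAlgClosed.algebraMap_bijective_of_isIntegral
  let e : K ≃ₐ[K] (S ⧸ m) := AlgEquiv.ofBijective (Algebra.ofId K (S ⧸ m)) hb
  exact ⟨e.symm.toAlgHom.comp (Ideal.Quotient.mkₐ K m)⟩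

theorem adjoin_repr {K : Type v} {Ω : Type w} [Field K] [Field Ω] [Algebra K Ω] {N : ℕ}
    (t : Fin N → Ω) (s : Ω) (hs : s ∈ IntermediateField.adjoin K (Set.range t)) :
    ∃ r q : MvPolynomial (Fin N) K, aeval t q ≠ 0 ∧ s = aeval t r / aeval t q := by
  obtain ⟨r, q, h⟩ := (IntermediateField.mem_adjoin_range_iff K t s).1 hs
  by_cases hq : aeval t q = 0
  · refine ⟨0, 1, by simp, ?_⟩
    rw [h, hq]
    simp
  · exact ⟨r, q, hq, h⟩

/-- a polynomial relation expressing algebraicity -/
theorem rel_of_alg {K : Type v} {Ω : Type w} [Field K] [Field Ω] [Algebra K Ω] {N : ℕ}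
    (t : Fin N → Ω) (z : Ω) (hz : IsAlgebraic (IntermediateField.adjoin K (Set.range t)) z) :
    ∃ (D : ℕ) (q : ℕ → MvPolynomial (Fin N) K),
      ∑ m ∈ Finset.range D, aeval t (q m) * z ^ m = 0 ∧
      ∃ m ∈ Finset.range D, aeval t (q m) ≠ 0 := by
  classical
  obtain ⟨p, hp0, hp⟩ := hz
  have h1 : ∀ m : ℕ, ∃ r q : MvPolynomial (Fin N) K, aeval t q ≠ 0 ∧
      (p.coeff m : Ω) = aeval t r / aeval t q := fun m => adjoin_repr t _ (p.coeff m).2
  choose r s hs hrs using h1
  have h2 : ∀ m ∈ Finset.range (p.natDegree + 1),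
      aeval t (r m * ∏ m' ∈ (Finset.range (p.natDegree + 1)).erase m, s m') =
        (∏ m' ∈ Finset.range (p.natDegree + 1), aeval t (s m')) * (p.coeff m : Ω) := by
    intro m hm
    rw [hrs, map_mul, map_prod, ← Finset.mul_prod_erase _ _ hm]
    have := hs m
    field_simp
  refine ⟨p.natDegree + 1, fun m => r m * ∏ m' ∈ (Finset.range (p.natDegree + 1)).erase m, s m',
    ?_, p.natDegree, Finset.self_mem_range_succ _, ?_⟩
  · have h3 : ∑ m ∈ Finset.range (p.natDegree + 1),
        (∏ m' ∈ Finset.range (p.natDegree + 1), aeval t (s m')) * (p.coeff m : Ω) * z ^ m = 0 := by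
      simp only [mul_assoc]
      rw [← Finset.mul_sum]
      have h4 : ∑ m ∈ Finset.range (p.natDegree + 1), (p.coeff m : Ω) * z ^ m = 0 := by
        rw [Polynomial.aeval_eq_sum_range] at hp
        exact hp
      rw [h4, mul_zero]
    rw [← h3]
    exact Finset.sum_congr rfl fun m hm => by rw [h2 m hm]
  · simp only
    rw [h2 _ (Finset.self_mem_range_succ _)]
    refine mul_ne_zero (Finset.prod_ne_zero_iff.2 fun m' _ => hs m') ?_
    intro h
    apply hp0
    rw [← Polynomial.leadingCoeff_eq_zero]
    exact Subtype.val_injective h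

theorem alg_of_rel {K : Type v} {Ω : Type w} [Field K] [Field Ω] [Algebra K Ω] {N : ℕ}
    (t : Fin N → Ω) (z : Ω) (D : ℕ) (q : ℕ → MvPolynomial (Fin N) K)
    (h : ∑ m ∈ Finset.range D, aeval t (q m) * z ^ m = 0) (m₀ : ℕ) (hm : m₀ ∈ Finset.range D)
    (hne : aeval t (q m₀) ≠ 0) : IsAlgebraic (IntermediateField.adjoin K (Set.range t)) z := by
  have hmem : ∀ p : MvPolynomial (Fin N) K,
      aeval t p ∈ IntermediateField.adjoin K (Set.range t) := by
    intro p
    exact (IntermediateField.mem_adjoin_range_iff K t _).2 ⟨p, 1, by simp⟩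
  let P : Polynomial (IntermediateField.adjoin K (Set.range t)) :=
    ∑ m ∈ Finset.range D, Polynomial.C ⟨aeval t (q m), hmem _⟩ * Polynomial.X ^ m
  refine ⟨P, fun h0 => hne ?_, ?_⟩
  · have h1 : P.coeff m₀ = ⟨aeval t (q m₀), hmem _⟩ := by
      simp only [P, Polynomial.finsetSum_coeff, Polynomial.coeff_C_mul, Polynomial.coeff_X_pow]
      rw [Finset.sum_eq_single m₀]
      · simp
      · intro b _ hb
        simp [hb.symm]
      · intro h2
        exact absurd hm h2
    rw [h0, Polynomial.coeff_zero] at h1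
    exact (congrArg Subtype.val h1).symm
  · rw [← h]
    simp only [P, map_sum, map_mul, map_pow, Polynomial.aeval_X, Polynomial.aeval_C]
    rfl

/-- specialisation of finitely many elements -/
theorem exists_spec {k : Type u} {K : Type v} {Ω : Type w} [Field k] [IsAlgClosed k] [Field K]
    [Algebra k K] [Field Ω] [Algebra K Ω] {N : ℕ} (t : Fin N → Ω) (ht : AlgebraicIndependent K t)
    (C : Finset K) (S : Finset Ω) (hS : ∀ s ∈ S, s ∈ IntermediateField.adjoin K (Set.range t)) :
    ∃ (R : Subalgebra k K) (φ : R →ₐ[k] k) (Λ : Type v) (_ : CommRing Λ) (ι : R →+* Λ)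
      (α : Λ →+* Ω) (β : Λ →+* FractionRing (MvPolynomial (Fin N) k)) (T : Fin N → Λ),
      (∀ c ∈ C, c ∈ R) ∧ Function.Injective α ∧ (∀ r, α (ι r) = algebraMap K Ω r) ∧
      (∀ r, β (ι r) = algebraMap k _ (φ r)) ∧ (∀ j, α (T j) = t j) ∧
      (∀ j, β (T j) = algebraMap (MvPolynomial (Fin N) k) _ (X j)) ∧
      ∀ s ∈ S, ∃ x, α x = s := by
  classical
  have h1 : ∀ s : Ω, ∃ r q : MvPolynomial (Fin N) K, aeval t q ≠ 0 ∧
      (s ∈ S → s = aeval t r / aeval t q) := by
    intro s
    by_cases hs : s ∈ S
    · obtain ⟨r, q, hq, h⟩ := adjoin_repr t s (hS s hs)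
      exact ⟨r, q, hq, fun _ => h⟩
    · exact ⟨0, 1, by simp, fun h => absurd h hs⟩
  choose r q hq hrq using h1
  have h2 : ∀ s, ∃ d, coeff d (q s) ≠ 0 := by
    intro s
    apply MvPolynomial.ne_zero_iff.1
    intro h0
    apply hq s
    rw [h0, map_zero]
  choose d hd using h2
  let G : Finset K := C ∪ S.biUnion (fun s => (r s).coeffs ∪ (q s).coeffs ∪
    {(coeff (d s) (q s))⁻¹})
  let R : Subalgebra k K := Algebra.adjoin k (G : Set K)
  have hGR : ∀ g ∈ G, g ∈ R := fun g hg => Algebra.subset_adjoin hg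
  have hft : Algebra.FiniteType k R := (Subalgebra.fg_iff_finiteType R).1 ⟨G, rfl⟩
  obtain ⟨φ⟩ := exists_algHom_of_finiteType k R
  have hlift : ∀ p : MvPolynomial (Fin N) K, (∀ c ∈ p.coeffs, c ∈ R) →
      ∃ p' : MvPolynomial (Fin N) R, MvPolynomial.map (algebraMap R K) p' = p := by
    intro p hp
    have h3 : p ∈ Set.range (MvPolynomial.map (σ := Fin N) (algebraMap R K)) := by
      rw [MvPolynomial.mem_range_map_iff_coeffs_subset]
      intro c hc
      exact ⟨⟨c, hp c hc⟩, rfl⟩
    exact h3
  let f : MvPolynomial (Fin N) R →+* Ω :=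
    ((aeval t : MvPolynomial (Fin N) K →ₐ[K] Ω) : MvPolynomial (Fin N) K →+* Ω).comp
      (MvPolynomial.map (algebraMap R K))
  have hfinj : Function.Injective f := by
    have e1 : Function.Injective (MvPolynomial.map (σ := Fin N) (algebraMap R K)) :=
      MvPolynomial.map_injective _ Subtype.val_injective
    have e2 : Function.Injective (aeval t : MvPolynomial (Fin N) K →ₐ[K] Ω) := ht
    exact e2.comp e1
  let ψ : MvPolynomial (Fin N) R →+* FractionRing (MvPolynomial (Fin N) k) :=
    (algebraMap (MvPolynomial (Fin N) k) _).comp (MvPolynomial.map (φ : R →+* k))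
  let P : Ideal (MvPolynomial (Fin N) R) := RingHom.ker ψ
  have hPp : P.IsPrime := RingHom.ker_isPrime ψ
  have hfu : ∀ y : P.primeCompl, IsUnit (f y) := by
    intro y
    apply IsUnit.mk0
    intro h0
    apply y.2
    have h3 : (y : MvPolynomial (Fin N) R) = 0 := hfinj (by rw [h0, map_zero])
    rw [h3]
    exact P.zero_mem
  have hψu : ∀ y : P.primeCompl, IsUnit (ψ y) := fun y => IsUnit.mk0 _ y.2
  let Λ := Localization.AtPrime P
  let α : Λ →+* Ω := IsLocalization.lift hfu
  let β : Λ →+* FractionRing (MvPolynomial (Fin N) k) := IsLocalization.lift hψu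
  have hαa : ∀ x, α (algebraMap _ Λ x) = f x := fun x => IsLocalization.lift_eq hfu x
  have hβa : ∀ x, β (algebraMap _ Λ x) = ψ x := fun x => IsLocalization.lift_eq hψu x
  refine ⟨R, φ, Λ, inferInstance, (algebraMap (MvPolynomial (Fin N) R) Λ).comp MvPolynomial.C, α,
    β, fun j => algebraMap (MvPolynomial (Fin N) R) Λ (X j), ?_, ?_, ?_, ?_, ?_, ?_, ?_⟩
  · intro c hc
    exact hGR c (Finset.mem_union_left _ hc)
  · rw [injective_iff_map_eq_zero]
    intro x hx
    obtain ⟨⟨a, b⟩, hab⟩ := IsLocalization.surj P.primeCompl x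
    simp only at hab
    have h3 := congrArg α hab
    rw [map_mul, hx, zero_mul, hαa] at h3
    have h4 : a = 0 := hfinj (by rw [← h3, map_zero])
    rw [h4, map_zero] at hab
    exact ((IsLocalization.map_units Λ b).mul_left_eq_zero).1 hab
  · intro c
    rw [RingHom.comp_apply, hαa]
    simp only [f, RingHom.comp_apply, MvPolynomial.map_C]
    simp
  · intro c
    rw [RingHom.comp_apply, hβa]
    simp only [ψ, RingHom.comp_apply, MvPolynomial.map_C]
    rw [IsScalarTower.algebraMap_apply k (MvPolynomial (Fin N) k)]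
    rfl
  · intro j
    rw [hαa]
    simp [f]
  · intro j
    rw [hβa]
    simp [ψ]
  · intro s hs
    have hmemG : ∀ c, c ∈ (r s).coeffs ∪ (q s).coeffs ∪ {(coeff (d s) (q s))⁻¹} → c ∈ R := by
      intro c hc
      exact hGR c (Finset.mem_union_right _ (Finset.mem_biUnion.2 ⟨s, hs, hc⟩))
    obtain ⟨r', hr'⟩ := hlift (r s) (fun c hc => hmemG c
      (Finset.mem_union_left _ (Finset.mem_union_left _ hc)))
    obtain ⟨q', hq'⟩ := hlift (q s) (fun c hc => hmemG c
      (Finset.mem_union_left _ (Finset.mem_union_right _ hc)))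
    have hinv : (coeff (d s) (q s))⁻¹ ∈ R := hmemG _
      (Finset.mem_union_right _ (Finset.mem_singleton_self _))
    have hq'P : q' ∈ P.primeCompl := by
      intro h0
      have h3 : ψ q' = 0 := h0
      simp only [ψ, RingHom.comp_apply] at h3
      have h4 : MvPolynomial.map (φ : R →+* k) q' = 0 :=
        (IsFractionRing.injective (MvPolynomial (Fin N) k)
          (FractionRing (MvPolynomial (Fin N) k))) (by rw [h3, map_zero])
      have h5 := congrArg (coeff (d s)) h4
      rw [coeff_map, coeff_zero] at h5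
      have h6 : (coeff (d s) q') * ⟨_, hinv⟩ = (1 : R) := by
        apply Subtype.val_injective
        change algebraMap R K (coeff (d s) q') * (coeff (d s) (q s))⁻¹ = 1
        rw [← coeff_map, hq', mul_inv_cancel₀ (hd s)]
      have h7 := congrArg φ h6
      rw [map_mul, map_one] at h7
      have h8 : φ (coeff (d s) q') = 0 := h5
      rw [h8, zero_mul] at h7
      exact zero_ne_one h7
    refine ⟨IsLocalization.mk' Λ r' ⟨q', hq'P⟩, ?_⟩
    change IsLocalization.lift hfu _ = s
    rw [IsLocalization.lift_mk'_spec]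
    simp only [f, RingHom.comp_apply]
    rw [hr', hq']
    have e := hrq s hs
    rw [eq_div_iff (hq s)] at e
    change aeval t (r s) = aeval t (q s) * s
    linear_combination -e

/-- descent of a dominant rational map from affine space -/
theorem descent {k : Type u} {K : Type v} {Ω : Type w} [Field k] [IsAlgClosed k] [Field K]
    [Algebra k K] [Field Ω] [Algebra K Ω] [Algebra k Ω] [IsScalarTower k K Ω] {N : ℕ}
    (t : Fin N → Ω) (ht : AlgebraicIndependent K t) {σ : Type} [Fintype σ] (P : σ → Ω)
    (hP : ∀ i, P i ∈ IntermediateField.adjoin K (Set.range t)) (e : Fin N → σ)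
    (halg : ∀ j, IsAlgebraic (IntermediateField.adjoin K (Set.range (P ∘ e))) (t j)) :
    ∃ P' : σ → FractionRing (MvPolynomial (Fin N) k),
      (∀ h : MvPolynomial σ k, aeval P h = 0 → aeval P' h = 0) ∧
      AlgebraicIndependent k (P' ∘ e) := by
  classical
  have h1 := fun j => rel_of_alg (P ∘ e) (t j) (halg j)
  choose D q hq m₀ hm₀ hne using h1
  let C : Finset K := Finset.univ.biUnion (fun j => (Finset.range (D j)).biUnion
    (fun m => (q j m).coeffs))
  let S : Finset Ω := Finset.univ.image P ∪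
    Finset.univ.image (fun j => (aeval (P ∘ e) (q j (m₀ j)))⁻¹)
  obtain ⟨R, φ, Λ, _, ι, α, β, T, hC, hα, hαι, hβι, hαT, hβT, hS⟩ := exists_spec (k := k) t ht C S
    (by
      intro s hs
      rcases Finset.mem_union.1 hs with h | h
      · obtain ⟨i, _, rfl⟩ := Finset.mem_image.1 h
        exact hP i
      · obtain ⟨j, _, rfl⟩ := Finset.mem_image.1 h
        refine inv_mem ?_
        have h2 : aeval (P ∘ e) (q j (m₀ j)) ∈ IntermediateField.adjoin K
            (Set.range (P ∘ e)) :=
          (IntermediateField.mem_adjoin_range_iff K _ _).2 ⟨q j (m₀ j), 1, by simp⟩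
        refine (IntermediateField.adjoin_le_iff.2 ?_) h2
        rintro _ ⟨i, rfl⟩
        exact hP (e i))
  have h2 : ∀ i, ∃ x, α x = P i := fun i => hS _ (Finset.mem_union_left _
    (Finset.mem_image_of_mem _ (Finset.mem_univ i)))
  choose Q hQ using h2
  have hlift : ∀ j, ∀ m ∈ Finset.range (D j), ∃ p' : MvPolynomial (Fin N) R,
      MvPolynomial.map (algebraMap R K) p' = q j m := by
    intro j m hm
    have h3 : q j m ∈ Set.range (MvPolynomial.map (σ := Fin N) (algebraMap R K)) := by
      rw [MvPolynomial.mem_range_map_iff_coeffs_subset]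
      intro c hc
      exact ⟨⟨c, hC c (Finset.mem_biUnion.2 ⟨j, Finset.mem_univ _,
        Finset.mem_biUnion.2 ⟨m, hm, hc⟩⟩)⟩, rfl⟩
    exact h3
  have hlift' : ∀ j m, ∃ p' : MvPolynomial (Fin N) R, m ∈ Finset.range (D j) →
      MvPolynomial.map (algebraMap R K) p' = q j m := by
    intro j m
    by_cases hm : m ∈ Finset.range (D j)
    · obtain ⟨p', hp'⟩ := hlift j m hm
      exact ⟨p', fun _ => hp'⟩
    · exact ⟨0, fun h => absurd h hm⟩
  choose q' hq' using hlift'
  have hev : ∀ j, ∀ m ∈ Finset.range (D j),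
      α (eval₂ ι (Q ∘ e) (q' j m)) = aeval (P ∘ e) (q j m) := by
    intro j m hm
    rw [← hq' j m hm, MvPolynomial.hom_eval₂, MvPolynomial.aeval_def, MvPolynomial.eval₂_map]
    congr 1
    · ext c
      exact hαι c
    · funext i
      exact hQ (e i)
  refine ⟨fun i => β (Q i), ?_, ?_⟩
  · intro h hh
    have h3 : eval₂ (ι.comp (algebraMap k R)) Q h = 0 := by
      apply hα
      rw [map_zero, MvPolynomial.hom_eval₂, ← hh, MvPolynomial.aeval_def]
      congr 1
      · ext c
        change α (ι (algebraMap k R c)) = _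
        rw [hαι]
        change algebraMap K Ω (algebraMap k K c) = _
        rw [← IsScalarTower.algebraMap_apply]
      · funext i
        exact hQ i
    have h4 := congrArg β h3
    rw [map_zero, MvPolynomial.hom_eval₂] at h4
    rw [← h4, MvPolynomial.aeval_def]
    congr 1
    ext c
    change _ = β (ι (algebraMap k R c))
    rw [hβι, φ.commutes]
    rfl
  · refine V1.indep_exchange (fun j => algebraMap (MvPolynomial (Fin N) k)
      (FractionRing (MvPolynomial (Fin N) k)) (X j)) _ ?_ ?_
    · exact (MvPolynomial.algebraicIndependent_X (Fin N) k).map'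
        (f := IsScalarTower.toAlgHom k (MvPolynomial (Fin N) k)
          (FractionRing (MvPolynomial (Fin N) k)))
        (IsFractionRing.injective _ _)
    · intro j
      have hβev : ∀ m, β (eval₂ ι (Q ∘ e) (q' j m)) =
          aeval ((fun i => β (Q i)) ∘ e) (MvPolynomial.map (φ : R →+* k) (q' j m)) := by
        intro m
        rw [MvPolynomial.hom_eval₂, MvPolynomial.aeval_def, MvPolynomial.eval₂_map]
        congr 1
        ext c
        exact hβι c
      refine alg_of_rel _ _ (D j) (fun m => MvPolynomial.map (φ : R →+* k) (q' j m)) ?_ (m₀ j)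
        (hm₀ j) ?_
      · have h3 : ∑ m ∈ Finset.range (D j), eval₂ ι (Q ∘ e) (q' j m) * T j ^ m = 0 := by
          apply hα
          rw [map_zero, map_sum, ← hq j]
          refine Finset.sum_congr rfl fun m hm => ?_
          rw [map_mul, map_pow, hev j m hm, hαT]
        have h4 := congrArg β h3
        rw [map_zero, map_sum] at h4
        rw [← h4]
        refine Finset.sum_congr rfl fun m _ => ?_
        rw [map_mul, map_pow, hβev, hβT]
      · rw [← hβev]
        obtain ⟨u, hu⟩ := hS (aeval (P ∘ e) (q j (m₀ j)))⁻¹ (Finset.mem_union_right _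
          (Finset.mem_image_of_mem _ (Finset.mem_univ j)))
        have h5 : eval₂ ι (Q ∘ e) (q' j (m₀ j)) * u = 1 := by
          apply hα
          rw [map_mul, hev j _ (hm₀ j), hu, map_one, mul_inv_cancel₀ (hne j)]
        intro h6
        have h7 := congrArg β h5
        rw [map_mul, h6, zero_mul, map_one] at h7
        exact zero_ne_one h7

end Pool.Agent.Y200.CB
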