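import Pool.Agent.Y200.CB.Tse

/-! A generic point of the cone over the hypersurface, rational over a rational function field
over an algebraically closed field of transcendence degree one. -/

set_option autoImplicit false

namespace Pool.Agent.Y200.CB

open MvPolynomial

universe u v

variable {k : Type u} {Ω : Type v} [Field k] [Field Ω] [Algebra k Ω] {a : Ten k}

variable (k) in
/-- the field generated by `T` over `cl S` -/
noncomputable def AA (S T : Set Ω) : IntermediateField k Ω :=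
  (IntermediateField.adjoin (cl k S) T).restrictScalars k

theorem subset_AA (S T : Set Ω) : T ⊆ AA k S T := by
  intro z hz
  exact IntermediateField.subset_adjoin (cl k S) T hz

theorem le_AA (S T : Set Ω) : cl k S ≤ AA k S T := by
  intro z hz
  exact (IntermediateField.adjoin (cl k S) T).algebraMap_mem ⟨z, hz⟩

theorem AA_le {S T : Set Ω} {F : IntermediateField k Ω} (hS : cl k S ≤ F) (hT : T ⊆ F) :
    AA k S T ≤ F := by
  unfold AA
  rw [IntermediateField.restrictScalars_adjoin, IntermediateField.adjoin_le_iff]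
  exact Set.union_subset hS hT

theorem AA_mono {S T T' : Set Ω} (h : T ⊆ T') : AA k S T ≤ AA k S T' :=
  AA_le (le_AA S T') (h.trans (subset_AA S T'))

theorem alg_of_mem_cl {S W : Set Ω} {z : Ω} (hz : z ∈ cl k (S ∪ W)) :
    IsAlgebraic (IntermediateField.adjoin (cl k S) W) z := by
  have h1 : IntermediateField.adjoin k (S ∪ W) ≤ AA k S W :=
    IntermediateField.adjoin_le_iff.2
      (Set.union_subset ((subset_cl S).trans (le_AA S W)) (subset_AA S W))
  exact isAlgebraic_of_le h1 (mem_cl.1 hz)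

theorem vec_mem {F : IntermediateField k Ω} {x : Fin 3 → Ω} (h0 : x 0 ∈ F) (h1 : x 1 ∈ F)
    (h2 : x 2 ∈ F) (i : Fin 3) : x i ∈ F := by
  fin_cases i
  · exact h0
  · exact h1
  · exact h2

variable [CharZero k] [CharZero Ω] [IsAlgClosed Ω]

/-- the last coordinate of a point of a conic -/
theorem exists_last (ha : Sy a) (hS : Smo a Ω) (ζ : Fin 3 → Ω) (hζ0 : ζ 0 = 1)
    (hζ : AlgebraicIndependent k ![ζ 1, ζ 2]) (ρ : Ω) :
    ∃ β : Ω, T a ![1, ρ, β] ![1, ρ, β] ζ ζ ζ = 0 ∧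
      ∀ S : Set Ω, ρ ∈ cl k S → (∀ i, ζ i ∈ cl k S) → β ∈ cl k S := by
  have h2 := lead_ne ha hS ζ hζ0 hζ
  obtain ⟨v, hv⟩ : ∃ v : Fin 3 → Ω, v = ![1, ρ, 0] := ⟨_, rfl⟩
  obtain ⟨r, hr⟩ := IsAlgClosed.exists_pow_nat_eq (T a v (e3 Ω 2) ζ ζ ζ ^ 2 -
    T a (e3 Ω 2) (e3 Ω 2) ζ ζ ζ * T a v v ζ ζ ζ) (n := 2) two_pos
  obtain ⟨β, hβ⟩ : ∃ β, β = (r - T a v (e3 Ω 2) ζ ζ ζ) / T a (e3 Ω 2) (e3 Ω 2) ζ ζ ζ := ⟨_, rfl⟩
  have hβr : T a (e3 Ω 2) (e3 Ω 2) ζ ζ ζ * β ^ 2 + 2 * T a v (e3 Ω 2) ζ ζ ζ * β +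
      T a v v ζ ζ ζ = 0 := by
    rw [hβ]
    field_simp
    linear_combination hr
  have hvec : (![1, ρ, β] : Fin 3 → Ω) = v + β • e3 Ω 2 := by
    rw [hv]
    funext i
    fin_cases i
    · simp [e3]
    · simp [e3]
    · simp [e3]
  refine ⟨β, ?_, fun S hρ hζS => ?_⟩
  · rw [hvec]
    simp only [T_add1, T_add2, T_smul1, T_smul2, T_s1 ha (e3 Ω 2) v]
    linear_combination hβr
  · have hvS : ∀ i, v i ∈ cl k S := by
      rw [hv]
      intro i
      fin_cases i
      · exact one_mem _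
      · exact hρ
      · exact zero_mem _
    exact root2 (T_mem a _ hvS hvS hζS hζS hζS)
      (mul_mem (ofNat_mem _ 2) (T_mem a _ hvS (e3_mem _ 2) hζS hζS hζS))
      (T_mem a _ (e3_mem _ 2) (e3_mem _ 2) hζS hζS hζS) h2 hβr

theorem generic_point (hSall : ∀ (K : Type v) [Field K] [Algebra k K], Smo a K) (ha : Sy a)
    (t0 x1 x2 ρ l m : Ω) (hB : AlgebraicIndependent k ![t0, x1, x2, ρ, l, m]) :
    ∃ (S : Set Ω) (t : Fin 5 → Ω) (ξ η : Fin 3 → Ω), AlgebraicIndependent (cl k S) t ∧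
      (∀ i, ξ i ∈ IntermediateField.adjoin (cl k S) (Set.range t)) ∧
      (∀ i, η i ∈ IntermediateField.adjoin (cl k S) (Set.range t)) ∧
      T a ξ ξ η η η = 0 ∧
      ∀ j, IsAlgebraic (IntermediateField.adjoin (cl k S)
        (Set.range ![ξ 0, ξ 1, η 0, η 1, η 2])) (t j) := by
  have hS := hSall Ω
  have h3 : AlgebraicIndependent k ![t0, x1, x2] := by
    have h1 : (![t0, x1, x2] : Fin 3 → Ω) =
        ![t0, x1, x2, ρ, l, m] ∘ (![0, 1, 2] : Fin 3 → Fin 6) := by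
      funext i
      fin_cases i <;> rfl
    rw [h1]
    exact hB.comp _ (by decide)
  obtain ⟨y, hyt, h⟩ := exists_gp ha hS t0 x1 x2 h3
  obtain ⟨x, hx⟩ : ∃ x : Fin 3 → Ω, x = ![1, x1, x2] := ⟨_, rfl⟩
  have hx1 : x 1 = x1 := by rw [hx]; rfl
  have hx2 : x 2 = x2 := by rw [hx]; rfl
  rw [← hx] at h
  obtain ⟨hz0, hzi⟩ := indep_of_not_rat ha hS x h.hx0 h.hx (tp a x y) (tp_not_rat ha hS h)
    (T_tp ha x y h.hT)
  obtain ⟨ζ, hζ⟩ : ∃ ζ : Fin 3 → Ω, ζ = (tp a x y 0)⁻¹ • tp a x y := ⟨_, rfl⟩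
  have hζv : ∀ i, ζ i = tp a x y i / tp a x y 0 := by
    intro i
    rw [hζ]
    simp [div_eq_mul_inv, mul_comm]
  have hζ0 : ζ 0 = 1 := by rw [hζv, div_self hz0]
  have hζi : AlgebraicIndependent k ![ζ 1, ζ 2] := by
    rw [hζv, hζv]
    exact hzi
  have hζT : T a x x ζ ζ ζ = 0 := by
    rw [hζ, T_smul3, T_smul4, T_smul5, T_tp ha x y h.hT]
    ring
  have hζF : ∀ F : IntermediateField k Ω, (∀ i, x i ∈ F) → (∀ i, y i ∈ F) → ∀ i, ζ i ∈ F := by
    intro F hxF hyF i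
    rw [hζv]
    exact div_mem (tp_mem F hxF hyF i) (tp_mem F hxF hyF 0)
  obtain ⟨i, j, hall, hi0, hj0, hij, hyi⟩ := exists_coord hSall ha h hζi hz0 (hζv 1) (hζv 2)
  -- the closure of the first three elements
  have hC3 : ∀ z ∈ cl k (Set.range ![y 1, x 1, x 2]), z ∈ cl k (Set.range ![y i, ζ 1, ζ 2]) := by
    intro z hz
    refine exch_mem ![y i, ζ 1, ζ 2] ![y 1, x 1, x 2] (indep_of_notMem hζi hyi) (fun l => ?_) hz
    fin_cases l
    · exact h.yE i
    · exact hζF _ h.xE h.yE 1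
    · exact hζF _ h.xE h.yE 2
  have hyy : AlgebraicIndependent k ![y j, y i] := by
    have h12 := h.hy ha hS
    rcases hall 1 with h1 | h1 | h1
    · exact absurd h1 (by decide)
    · rcases hall 2 with h2 | h2 | h2
      · exact absurd h2 (by decide)
      · exact absurd (h2.trans h1.symm) (by decide)
      · rw [← h1, ← h2]
        exact swap2 h12
    · rcases hall 2 with h2 | h2 | h2
      · exact absurd h2 (by decide)
      · rw [← h1, ← h2]
        exact h12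
      · exact absurd (h2.trans h1.symm) (by decide)
  have hv : y j ∉ cl k {y i} := by
    have h1 := ((indep_cons_cl ![y i] (y j)).1 hyy).2
    rwa [range_single] at h1
  have hyF : ∀ F : IntermediateField k Ω, y i ∈ F → y j ∈ F → ∀ l, y l ∈ F := by
    intro F h1 h2 l
    rcases hall l with h4 | h4 | h4
    · rw [h4, h.hy0]
      exact one_mem _
    · rw [h4]
      exact h1
    · rw [h4]
      exact h2
  have hyiA : ∀ T : Set Ω, y i ∈ AA k {y i} T := fun T => le_AA _ _ (subset_cl _ rfl)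
  obtain ⟨p, hp0, hpE, hpT⟩ := tsen_conic (a := a) {y i} (y j) hv y
    (hyF (AA k {y i} {y j}) (hyiA _) (subset_AA _ _ rfl))
  have hyM : ∀ l, y l ∈ cl k (Set.range ![y 1, y 2]) :=
    vec_mem (by rw [h.hy0]; exact one_mem _) (subset_cl _ ⟨0, rfl⟩) (subset_cl _ ⟨1, rfl⟩)
  have hcl_le : ∀ {S' : Set Ω}, y i ∈ cl k S' → cl k {y i} ≤ cl k S' := by
    intro S' h1
    apply cl_le_cl
    rintro _ rfl
    exact h1
  obtain ⟨s, hs⟩ := stereo ha (y := y) (smooth_y ha hS y h.hy0 (h.hy ha hS)) (AA k {y i} {y j})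
    (hyF (AA k {y i} {y j}) (hyiA _) (subset_AA _ _ rfl)) hpE hp0 hpT h.hx0 h.hT (by
      obtain ⟨i', _, hi'⟩ := h.hxM
      refine ⟨i', fun h1 => hi' ?_⟩
      refine AA_le (hcl_le (hyM i)) ?_ h1
      rintro _ rfl
      exact hyM j)
  -- the second conic
  have hE12 : AA k {y i} {y j} ≤ AA k {y i} {y j, s} := AA_mono (by simp)
  have hsE2 : s ∈ AA k {y i} {y j, s} := subset_AA _ _ (by simp)
  have hyjE2 : y j ∈ AA k {y i} {y j, s} := subset_AA _ _ (by simp)
  have hyE2 := hyF (AA k {y i} {y j, s}) (hyiA _) hyjE2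
  have hxE2 : ∀ i', x i' ∈ AA k {y i} {y j, s} := (hs _ hE12).1 hsE2
  have hE1_le : ∀ {S' : Set Ω}, y i ∈ cl k S' → y j ∈ cl k S' → AA k {y i} {y j} ≤ cl k S' := by
    intro S' h1 h2
    refine AA_le (hcl_le h1) ?_
    rintro _ rfl
    exact h2
  have hsS : ∀ {S' : Set Ω}, y i ∈ cl k S' → y j ∈ cl k S' → (∀ l, x l ∈ cl k S') →
      s ∈ cl k S' := fun h1 h2 h4 => (hs _ (hE1_le h1 h2)).2 h4
  have hE2_le : ∀ {S' : Set Ω}, y i ∈ cl k S' → y j ∈ cl k S' → s ∈ cl k S' →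
      AA k {y i} {y j, s} ≤ cl k S' := by
    intro S' h1 h2 h4
    refine AA_le (hcl_le h1) ?_
    rintro _ (rfl | rfl)
    · exact h2
    · exact h4
  obtain ⟨β, hβT, hβS⟩ := exists_last ha hS ζ hζ0 hζi ρ
  have hρ : ρ ∉ cl k (Set.range ![y 1, x 1, x 2]) := by
    have h1 : AlgebraicIndependent k ![ρ, y 1, x 1, x 2] := by
      rw [hyt, hx1, hx2]
      have h1 : (![ρ, t0, x1, x2] : Fin 4 → Ω) =
          ![t0, x1, x2, ρ, l, m] ∘ (![3, 0, 1, 2] : Fin 4 → Fin 6) := by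
        funext i
        fin_cases i <;> rfl
      rw [h1]
      exact hB.comp _ (by decide)
    exact ((indep_cons_cl ![y 1, x 1, x 2] ρ).1 h1).2
  obtain ⟨r, hr⟩ := stereo ha (y := ζ) (smooth_y ha hS ζ hζ0 hζi) (AA k {y i} {y j, s})
    (hζF _ hxE2 hyE2) hxE2 (fun h0 => by
      have h1 := h.hx0
      rw [h0] at h1
      exact zero_ne_one h1) hζT (q := ![1, ρ, β]) rfl hβT ⟨1, fun h1 => hρ
        (hE2_le (h.yE i) (h.yE j) (hsS (h.yE i) (h.yE j) h.xE) h1)⟩
  -- independence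
  have hind : AlgebraicIndependent k ![y i, y j, s, r, l, m] := by
    refine indep_exch ![t0, x1, x2, ρ, l, m] ![y i, y j, s, r, l, m] hB ?_
    have m0 : y i ∈ cl k (Set.range ![y i, y j, s, r, l, m]) := subset_cl _ ⟨0, rfl⟩
    have m1 : y j ∈ cl k (Set.range ![y i, y j, s, r, l, m]) := subset_cl _ ⟨1, rfl⟩
    have m2 : s ∈ cl k (Set.range ![y i, y j, s, r, l, m]) := subset_cl _ ⟨2, rfl⟩
    have m3 : r ∈ cl k (Set.range ![y i, y j, s, r, l, m]) := subset_cl _ ⟨3, rfl⟩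
    have m4 := (hs _ (hE1_le m0 m1)).1 m2
    have m5 := (hr _ (hE2_le m0 m1 m2)).1 m3
    intro i'
    fin_cases i'
    · have h1 := hyF _ m0 m1 1
      rw [hyt] at h1
      exact h1
    · have h1 := m4 1
      rw [hx1] at h1
      exact h1
    · have h1 := m4 2
      rw [hx2] at h1
      exact h1
    · exact m5 1
    · exact subset_cl _ ⟨4, rfl⟩
    · exact subset_cl _ ⟨5, rfl⟩
  have hind2 : AlgebraicIndependent (cl k {y i}) ![y j, s, r, l, m] := by
    rw [indep_over_cl]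
    have h1 := (QB.indep_split (n := 5) ![y i, y j, s, r, l, m] hind).2
    have h2 : (fun i' : Fin 5 => (![y i, y j, s, r, l, m] : Fin 6 → Ω) i'.succ) =
        ![y j, s, r, l, m] := by
      funext i'
      fin_cases i' <;> rfl
    rw [h2] at h1
    exact h1
  -- membership
  have hyj5 : y j ∈ AA k {y i} (Set.range ![y j, s, r, l, m]) := subset_AA _ _ ⟨0, rfl⟩
  have hs5 : s ∈ AA k {y i} (Set.range ![y j, s, r, l, m]) := subset_AA _ _ ⟨1, rfl⟩
  have hr5 : r ∈ AA k {y i} (Set.range ![y j, s, r, l, m]) := subset_AA _ _ ⟨2, rfl⟩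
  have hl5 : l ∈ AA k {y i} (Set.range ![y j, s, r, l, m]) := subset_AA _ _ ⟨3, rfl⟩
  have hm5 : m ∈ AA k {y i} (Set.range ![y j, s, r, l, m]) := subset_AA _ _ ⟨4, rfl⟩
  have hE25 : AA k {y i} {y j, s} ≤ AA k {y i} (Set.range ![y j, s, r, l, m]) := by
    refine AA_le (le_AA _ _) ?_
    rintro _ (rfl | rfl)
    · exact hyj5
    · exact hs5
  have hξ5 := (hr _ hE25).1 hr5
  have hζ5 : ∀ i', ζ i' ∈ AA k {y i} (Set.range ![y j, s, r, l, m]) :=
    fun i' => hE25 (hζF _ hxE2 hyE2 i')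
  have hl0 : l ≠ 0 := by
    have h1 := hB.transcendental 4
    intro h0
    apply h1
    change IsAlgebraic k l
    rw [h0]
    exact isAlgebraic_zero
  have hm0 : m ≠ 0 := by
    have h1 := hB.transcendental 5
    intro h0
    apply h1
    change IsAlgebraic k m
    rw [h0]
    exact isAlgebraic_zero
  refine ⟨{y i}, ![y j, s, r, l, m], l • ![1, ρ, β], m • ζ, hind2, fun i' => ?_, fun i' => ?_, ?_,
    fun j' => ?_⟩
  · exact mul_mem hl5 (hξ5 i')
  · exact mul_mem hm5 (hζ5 i')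
  · rw [T_smul1, T_smul2, T_smul3, T_smul4, T_smul5, hβT]
    ring
  · apply alg_of_mem_cl
    obtain ⟨W, hW⟩ : ∃ W : Set Ω, W = {y i} ∪ Set.range ![(l • ![1, ρ, β] : Fin 3 → Ω) 0,
      (l • ![1, ρ, β] : Fin 3 → Ω) 1, (m • ζ) 0, (m • ζ) 1, (m • ζ) 2] := ⟨_, rfl⟩
    rw [← hW]
    have m0 : y i ∈ cl k W := by
      apply subset_cl
      rw [hW]
      exact Or.inl rfl
    have ml : l ∈ cl k W := by
      have h1 : (l • ![1, ρ, β] : Fin 3 → Ω) 0 ∈ cl k W := by
        apply subset_cl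
        rw [hW]
        exact Or.inr ⟨0, rfl⟩
      simpa using h1
    have mρ : ρ ∈ cl k W := by
      have h1 : (l • ![1, ρ, β] : Fin 3 → Ω) 1 ∈ cl k W := by
        apply subset_cl
        rw [hW]
        exact Or.inr ⟨1, rfl⟩
      have h2 := div_mem h1 ml
      have h4 : (l • ![1, ρ, β] : Fin 3 → Ω) 1 / l = ρ := by
        simp only [Pi.smul_apply, smul_eq_mul]
        change l * ρ / l = ρ
        rw [mul_div_cancel_left₀ _ hl0]
      rwa [h4] at h2
    have mm : m ∈ cl k W := by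
      have h1 : (m • ζ) 0 ∈ cl k W := by
        apply subset_cl
        rw [hW]
        exact Or.inr ⟨2, rfl⟩
      simpa [hζ0] using h1
    have mζ1 : ζ 1 ∈ cl k W := by
      have h1 : (m • ζ) 1 ∈ cl k W := by
        apply subset_cl
        rw [hW]
        exact Or.inr ⟨3, rfl⟩
      have h2 := div_mem h1 mm
      have h4 : (m • ζ) 1 / m = ζ 1 := by
        simp only [Pi.smul_apply, smul_eq_mul]
        rw [mul_div_cancel_left₀ _ hm0]
      rwa [h4] at h2
    have mζ2 : ζ 2 ∈ cl k W := by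
      have h1 : (m • ζ) 2 ∈ cl k W := by
        apply subset_cl
        rw [hW]
        exact Or.inr ⟨4, rfl⟩
      have h2 := div_mem h1 mm
      have h4 : (m • ζ) 2 / m = ζ 2 := by
        simp only [Pi.smul_apply, smul_eq_mul]
        rw [mul_div_cancel_left₀ _ hm0]
      rwa [h4] at h2
    have hle : cl k (Set.range ![y i, ζ 1, ζ 2]) ≤ cl k W := by
      apply cl_le_cl
      rintro _ ⟨i', rfl⟩
      fin_cases i'
      · exact m0
      · exact mζ1
      · exact mζ2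
    have m1 : y j ∈ cl k W := hle (hC3 _ (h.yE j))
    have mx : ∀ l, x l ∈ cl k W := fun l => hle (hC3 _ (h.xE l))
    have m2 : s ∈ cl k W := hsS m0 m1 mx
    have mζ : ∀ l, ζ l ∈ cl k W := vec_mem (by rw [hζ0]; exact one_mem _) mζ1 mζ2
    have mβ : β ∈ cl k W := hβS W mρ mζ
    have m3 : r ∈ cl k W := (hr _ (hE2_le m0 m1 m2)).2 (fun l => by
      fin_cases l
      · exact one_mem _
      · exact mρ
      · exact mβ)
    fin_cases j'
    · exact m1
    · exact m2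
    · exact m3
    · exact ml
    · exact mm

end Pool.Agent.Y200.CB
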