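import Pool.Agent.Y200.CB.Irr
import Pool.Agent.Y200.CB.GPt
import Pool.Agent.Y200.CB.Dsc

/-! Bihomogeneous polynomials and tensors; the theorem. -/

set_option autoImplicit false

namespace Pool.Agent.Y200.CB

open MvPolynomial

universe u v

section bihom

variable {k : Type u} [Field k]

/-- bihomogeneous polynomials -/
def BH (m n : ℕ) (F : MvPolynomial (Fin 3 ⊕ Fin 3) k) : Prop :=
  IsWeightedHomogeneous (Sum.elim (fun _ => 1) (fun _ => 0) : Fin 3 ⊕ Fin 3 → ℕ) F m ∧
    IsWeightedHomogeneous (Sum.elim (fun _ => 0) (fun _ => 1) : Fin 3 ⊕ Fin 3 → ℕ) F n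

theorem BH.of_support {F : MvPolynomial (Fin 3 ⊕ Fin 3) k} {m n : ℕ}
    (hF : ∀ d ∈ F.support, ∑ i, d (Sum.inl i) = m ∧ ∑ i, d (Sum.inr i) = n) : BH m n F := by
  constructor
  · intro d hd
    have h1 := (hF d (mem_support_iff.2 hd)).1
    rw [Finsupp.weight_apply, Finsupp.sum_fintype _ _ (fun _ => by simp), Fintype.sum_sum_type]
    simp only [Sum.elim_inl, Sum.elim_inr, smul_eq_mul, mul_one, mul_zero, Finset.sum_const_zero,
      add_zero]
    exact h1
  · intro d hd
    have h1 := (hF d (mem_support_iff.2 hd)).2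
    rw [Finsupp.weight_apply, Finsupp.sum_fintype _ _ (fun _ => by simp), Fintype.sum_sum_type]
    simp only [Sum.elim_inl, Sum.elim_inr, smul_eq_mul, mul_one, mul_zero, Finset.sum_const_zero,
      zero_add]
    exact h1

theorem BH.dx {F : MvPolynomial (Fin 3 ⊕ Fin 3) k} {m n : ℕ} (h : BH (m + 1) n F) (i : Fin 3) :
    BH m n (pderiv (Sum.inl i) F) :=
  ⟨h.1.pderiv rfl, h.2.pderiv rfl⟩

theorem BH.dy {F : MvPolynomial (Fin 3 ⊕ Fin 3) k} {m n : ℕ} (h : BH m (n + 1) F) (i : Fin 3) :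
    BH m n (pderiv (Sum.inr i) F) :=
  ⟨h.1.pderiv rfl, h.2.pderiv rfl⟩

theorem BH.ex {F : MvPolynomial (Fin 3 ⊕ Fin 3) k} {m n : ℕ} (h : BH m n F) :
    ∑ i, X (Sum.inl i) * pderiv (Sum.inl i) F = (m : MvPolynomial (Fin 3 ⊕ Fin 3) k) * F := by
  have h1 := h.1.sum_weight_X_mul_pderiv
  rw [Fintype.sum_sum_type] at h1
  simpa using h1

theorem BH.ey {F : MvPolynomial (Fin 3 ⊕ Fin 3) k} {m n : ℕ} (h : BH m n F) :
    ∑ i, X (Sum.inr i) * pderiv (Sum.inr i) F = (n : MvPolynomial (Fin 3 ⊕ Fin 3) k) * F := by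
  have h1 := h.2.sum_weight_X_mul_pderiv
  rw [Fintype.sum_sum_type] at h1
  simpa using h1

theorem BH.const {F : MvPolynomial (Fin 3 ⊕ Fin 3) k} (h : BH 0 0 F) : F = C (coeff 0 F) := by
  ext d
  rw [coeff_C]
  split_ifs with h0
  · rw [← h0]
  · by_contra hne
    apply h0
    have h1 := h.1 hne
    have h2 := h.2 hne
    rw [Finsupp.weight_apply, Finsupp.sum_fintype _ _ (fun _ => by simp),
      Fintype.sum_sum_type] at h1 h2
    simp only [Sum.elim_inl, Sum.elim_inr, smul_eq_mul, mul_one, mul_zero, Finset.sum_const_zero,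
      add_zero, zero_add, Finset.sum_eq_zero_iff, Finset.mem_univ, true_implies] at h1 h2
    ext s
    rcases s with i | i
    · simp [h1 i]
    · simp [h2 i]

theorem pderiv_comm' {σ : Type} (i j : σ) (F : MvPolynomial σ k) :
    pderiv i (pderiv j F) = pderiv j (pderiv i F) := by
  classical
  have h : ⁅(pderiv i : Derivation k (MvPolynomial σ k) (MvPolynomial σ k)),
      (pderiv j : Derivation k (MvPolynomial σ k) (MvPolynomial σ k))⁆ = 0 := by
    apply MvPolynomial.derivation_ext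
    intro l
    rw [Derivation.commutator_apply, pderiv_X, pderiv_X, Pi.single_apply, Pi.single_apply]
    split_ifs <;> simp
  have h1 := congrArg (fun D : Derivation k (MvPolynomial σ k) (MvPolynomial σ k) => D F) h
  simp only [Derivation.commutator_apply] at h1
  exact sub_eq_zero.1 h1

/-- the coefficients -/
noncomputable def tens (F : MvPolynomial (Fin 3 ⊕ Fin 3) k) : Ten k := fun i j p q r =>
  (12 : k)⁻¹ * coeff 0 (pderiv (Sum.inr r) (pderiv (Sum.inr q) (pderiv (Sum.inr p)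
    (pderiv (Sum.inl j) (pderiv (Sum.inl i) F)))))

theorem tens_sy (F : MvPolynomial (Fin 3 ⊕ Fin 3) k) : Sy (tens F) where
  s1 i j p q r := by
    unfold tens
    rw [pderiv_comm' (Sum.inl j) (Sum.inl i)]
  s2 i j p q r := by
    unfold tens
    rw [pderiv_comm' (Sum.inr q) (Sum.inr p)]
  s3 i j p q r := by
    unfold tens
    rw [pderiv_comm' (Sum.inr r) (Sum.inr q)]

variable [CharZero k] {Ω : Type v} [Field Ω] [Algebra k Ω]

theorem eval_ijp {F : MvPolynomial (Fin 3 ⊕ Fin 3) k} (hF : BH 2 3 F) (x y : Fin 3 → Ω)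
    (i j p : Fin 3) :
    aeval (Sum.elim x y) (pderiv (Sum.inr p) (pderiv (Sum.inl j) (pderiv (Sum.inl i) F))) =
      6 * T (tens F) (e3 Ω i) (e3 Ω j) (e3 Ω p) y y := by
  have hΩ : CharZero Ω := charZero_of_injective_algebraMap (algebraMap k Ω).injective
  have h3 : BH 0 2 (pderiv (Sum.inr p) (pderiv (Sum.inl j) (pderiv (Sum.inl i) F))) :=
    ((hF.dx i).dx j).dy p
  have e3' := congrArg (aeval (Sum.elim x y)) h3.ey
  have e4 : ∀ q, aeval (Sum.elim x y) (pderiv (Sum.inr q)
      (pderiv (Sum.inr p) (pderiv (Sum.inl j) (pderiv (Sum.inl i) F)))) =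
      ∑ r, y r * (12 * algebraMap k Ω (tens F i j p q r)) := by
    intro q
    have h4 := congrArg (aeval (Sum.elim x y)) (h3.dy q).ey
    rw [map_sum, map_mul] at h4
    simp only [Nat.cast_one, map_one, one_mul] at h4
    rw [← h4]
    refine Finset.sum_congr rfl fun r _ => ?_
    rw [map_mul, aeval_X, Sum.elim_inr, ((h3.dy q).dy r).const, aeval_C]
    congr 1
    unfold tens
    have h12 : (12 : k) ≠ 0 := by norm_num
    have h13 : (12 : Ω) = algebraMap k Ω 12 := (map_ofNat _ 12).symm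
    rw [h13, ← map_mul, mul_inv_cancel_left₀ h12]
  rw [map_sum, map_mul] at e3'
  simp only [map_mul, aeval_X, Sum.elim_inr, e4, map_ofNat, Nat.cast_ofNat] at e3'
  have e5 : T (tens F) (e3 Ω i) (e3 Ω j) (e3 Ω p) y y =
      ∑ q, ∑ r, algebraMap k Ω (tens F i j p q r) * y q * y r := by
    rw [T_ee]
    rw [Finset.sum_eq_single p]
    · simp [e3]
    · intro p' _ hp
      refine Finset.sum_eq_zero fun q _ => Finset.sum_eq_zero fun r _ => ?_
      simp [e3, Pi.single_eq_of_ne hp]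
    · intro h
      exact absurd (Finset.mem_univ _) h
  rw [e5]
  have h2 : (2 : Ω) ≠ 0 := two_ne_zero
  apply mul_left_cancel₀ h2
  rw [← e3']
  simp only [Finset.mul_sum]
  refine Finset.sum_congr rfl fun q _ => Finset.sum_congr rfl fun r _ => by ring

theorem eval_ij {F : MvPolynomial (Fin 3 ⊕ Fin 3) k} (hF : BH 2 3 F) (x y : Fin 3 → Ω)
    (i j : Fin 3) :
    aeval (Sum.elim x y) (pderiv (Sum.inl j) (pderiv (Sum.inl i) F)) =
      2 * T (tens F) (e3 Ω i) (e3 Ω j) y y y := by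
  have hΩ : CharZero Ω := charZero_of_injective_algebraMap (algebraMap k Ω).injective
  have h1 := congrArg (aeval (Sum.elim x y)) ((hF.dx i).dx j).ey
  rw [map_sum, map_mul] at h1
  simp only [map_mul, aeval_X, Sum.elim_inr, eval_ijp hF, map_ofNat, Nat.cast_ofNat] at h1
  have h3 : (3 : Ω) ≠ 0 := three_ne_zero
  apply mul_left_cancel₀ h3
  rw [← h1, Fin.sum_univ_three]
  conv_rhs =>
    rw [vec_eq y, T_add3, T_add3, T_smul3, T_smul3, T_smul3, ← vec_eq y]
  ring

theorem eval_i {F : MvPolynomial (Fin 3 ⊕ Fin 3) k} (hF : BH 2 3 F) (x y : Fin 3 → Ω)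
    (i : Fin 3) :
    aeval (Sum.elim x y) (pderiv (Sum.inl i) F) = 2 * T (tens F) (e3 Ω i) x y y y := by
  have h1 := congrArg (aeval (Sum.elim x y)) (hF.dx i).ex
  rw [map_sum, map_mul] at h1
  simp only [map_mul, aeval_X, Sum.elim_inl, eval_ij hF, Nat.cast_one, map_one,
    one_mul] at h1
  rw [← h1, Fin.sum_univ_three]
  conv_rhs =>
    rw [vec_eq x, T_add2, T_add2, T_smul2, T_smul2, T_smul2]
  ring

theorem eval_F {F : MvPolynomial (Fin 3 ⊕ Fin 3) k} (hF : BH 2 3 F) (x y : Fin 3 → Ω) :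
    aeval (Sum.elim x y) F = T (tens F) x x y y y := by
  have hΩ : CharZero Ω := charZero_of_injective_algebraMap (algebraMap k Ω).injective
  have h1 := congrArg (aeval (Sum.elim x y)) hF.ex
  rw [map_sum, map_mul] at h1
  simp only [map_mul, aeval_X, Sum.elim_inl, eval_i hF, map_ofNat, Nat.cast_ofNat] at h1
  have h3 : (2 : Ω) ≠ 0 := two_ne_zero
  apply mul_left_cancel₀ h3
  rw [← h1, Fin.sum_univ_three]
  conv_rhs =>
    rw [vec_eq x, T_add1, T_add1, T_smul1, T_smul1, T_smul1, ← vec_eq x]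
  ring

theorem eval_p {F : MvPolynomial (Fin 3 ⊕ Fin 3) k} (hF : BH 2 3 F) (x y : Fin 3 → Ω)
    (p : Fin 3) :
    aeval (Sum.elim x y) (pderiv (Sum.inr p) F) = 3 * T (tens F) x x (e3 Ω p) y y := by
  have hΩ : CharZero Ω := charZero_of_injective_algebraMap (algebraMap k Ω).injective
  have h2 : ∀ i, aeval (Sum.elim x y) (pderiv (Sum.inl i) (pderiv (Sum.inr p) F)) =
      6 * T (tens F) (e3 Ω i) x (e3 Ω p) y y := by
    intro i
    have h1 := congrArg (aeval (Sum.elim x y)) ((hF.dy p).dx i).ex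
    rw [map_sum, map_mul] at h1
    simp only [map_mul, aeval_X, Sum.elim_inl, Nat.cast_one, map_one, one_mul] at h1
    rw [← h1, Fin.sum_univ_three]
    have h4 : ∀ j, aeval (Sum.elim x y) (pderiv (Sum.inl j) (pderiv (Sum.inl i)
        (pderiv (Sum.inr p) F))) = 6 * T (tens F) (e3 Ω i) (e3 Ω j) (e3 Ω p) y y := by
      intro j
      rw [pderiv_comm' (Sum.inl i) (Sum.inr p), pderiv_comm' (Sum.inl j) (Sum.inr p),
        eval_ijp hF]
    rw [h4, h4, h4]
    conv_rhs =>
      rw [vec_eq x, T_add2, T_add2, T_smul2, T_smul2, T_smul2]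
    ring
  have h1 := congrArg (aeval (Sum.elim x y)) (hF.dy p).ex
  rw [map_sum, map_mul] at h1
  simp only [map_mul, aeval_X, Sum.elim_inl, h2, map_ofNat, Nat.cast_ofNat] at h1
  have h3 : (2 : Ω) ≠ 0 := two_ne_zero
  apply mul_left_cancel₀ h3
  rw [← h1, Fin.sum_univ_three]
  conv_rhs =>
    rw [vec_eq x, T_add1, T_add1, T_smul1, T_smul1, T_smul1, ← vec_eq x]
  ring

end bihom

section null

variable {k : Type u} [Field k] [IsAlgClosed k]

/-- Nullstellensatz -/
theorem null {σ : Type} [Finite σ] (S : Set (MvPolynomial σ k)) (K : Type v) [Field K]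
    [Algebra k K] (z : σ → K) (hz : ∀ p ∈ S, aeval z p = 0) :
    ∃ z' : σ → k, ∀ p ∈ S, eval z' p = 0 := by
  by_contra hcon
  push Not at hcon
  have h1 : zeroLocus k (Ideal.span S) = ∅ := by
    ext y
    simp only [Set.mem_empty_iff_false, iff_false]
    intro hy
    obtain ⟨p, hp, hp'⟩ := hcon y
    exact hp' (hy p (Ideal.subset_span hp))
  have h2 := vanishingIdeal_zeroLocus_eq_radical (K := k) (Ideal.span S)
  rw [h1] at h2
  have h3 : (1 : MvPolynomial σ k) ∈ (Ideal.span S).radical := by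
    rw [← h2]
    intro y hy
    exact absurd hy (Set.notMem_empty y)
  have h4 : Ideal.span S = ⊤ := by
    rw [← Ideal.radical_eq_top]
    exact (Ideal.eq_top_iff_one _).2 h3
  have h5 : Ideal.span S ≤ RingHom.ker (aeval z : MvPolynomial σ k →ₐ[k] K) := by
    rw [Ideal.span_le]
    exact hz
  have h6 : (1 : MvPolynomial σ k) ∈ RingHom.ker (aeval z : MvPolynomial σ k →ₐ[k] K) := by
    apply h5
    rw [h4]
    trivial
  rw [RingHom.mem_ker, map_one] at h6
  exact one_ne_zero h6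

/-- the partial derivatives in the first group -/
noncomputable def gx (a : Ten k) (l : Fin 3) : MvPolynomial (Fin 3 ⊕ Fin 3) k :=
  ∑ i', ∑ p, ∑ q, ∑ r,
    C (a i' l p q r) * X (Sum.inl i') * X (Sum.inr p) * X (Sum.inr q) * X (Sum.inr r)

/-- the partial derivatives in the second group -/
noncomputable def gy (a : Ten k) (l : Fin 3) : MvPolynomial (Fin 3 ⊕ Fin 3) k :=
  ∑ i', ∑ j', ∑ p, ∑ q,
    C (a i' j' p q l) * X (Sum.inl i') * X (Sum.inl j') * X (Sum.inr p) * X (Sum.inr q)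

omit [IsAlgClosed k] in
theorem aeval_gx (a : Ten k) {Ω : Type v} [Field Ω] [Algebra k Ω] (x y : Fin 3 → Ω) (l : Fin 3) :
    aeval (Sum.elim x y) (gx a l) = T a x (e3 Ω l) y y y := by
  simp only [gx, map_sum, map_mul, aeval_C, aeval_X, Sum.elim_inl, Sum.elim_inr]
  unfold T
  refine Finset.sum_congr rfl fun i' _ => ?_
  symm
  rw [Finset.sum_eq_single l]
  · refine Finset.sum_congr rfl fun p _ => Finset.sum_congr rfl fun q _ =>
      Finset.sum_congr rfl fun r _ => ?_
    simp [e3]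
  · intro j' _ hj'
    refine Finset.sum_eq_zero fun p _ => Finset.sum_eq_zero fun q _ =>
      Finset.sum_eq_zero fun r _ => ?_
    simp [e3, Pi.single_eq_of_ne hj']
  · intro h
    exact absurd (Finset.mem_univ _) h

omit [IsAlgClosed k] in
theorem aeval_gy (a : Ten k) {Ω : Type v} [Field Ω] [Algebra k Ω] (x y : Fin 3 → Ω) (l : Fin 3) :
    aeval (Sum.elim x y) (gy a l) = T a x x y y (e3 Ω l) := by
  simp only [gy, map_sum, map_mul, aeval_C, aeval_X, Sum.elim_inl, Sum.elim_inr]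
  unfold T
  refine Finset.sum_congr rfl fun i' _ => Finset.sum_congr rfl fun j' _ =>
    Finset.sum_congr rfl fun p _ => Finset.sum_congr rfl fun q _ => ?_
  rw [Finset.sum_eq_single l]
  · simp [e3]
  · intro r _ hr
    simp [e3, Pi.single_eq_of_ne hr]
  · intro h
    exact absurd (Finset.mem_univ _) h

theorem smo_all (a : Ten k) (h : Smo a k) (K : Type v) [Field K] [Algebra k K] : Smo a K := by
  intro x y hx hy h1 h2
  obtain ⟨i, hi⟩ : ∃ i, x i ≠ 0 := by
    by_contra hcon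
    push Not at hcon
    exact hx (funext hcon)
  obtain ⟨j, hj⟩ : ∃ j, y j ≠ 0 := by
    by_contra hcon
    push Not at hcon
    exact hy (funext hcon)
  obtain ⟨x', hx'⟩ : ∃ x', x' = (x i)⁻¹ • x := ⟨_, rfl⟩
  obtain ⟨y', hy'⟩ : ∃ y', y' = (y j)⁻¹ • y := ⟨_, rfl⟩
  obtain ⟨z, hz⟩ := null (Set.range (gx a) ∪ Set.range (gy a) ∪
    {X (Sum.inl i) - 1, X (Sum.inr j) - 1}) K (Sum.elim x' y') (by
      rintro _ ((⟨l, rfl⟩ | ⟨l, rfl⟩) | (rfl | rfl))
      · rw [aeval_gx, hx', hy', T_smul1, T_smul3, T_smul4, T_smul5, h1]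
        ring
      · rw [aeval_gy, hx', hy', T_smul1, T_smul2, T_smul3, T_smul4, h2]
        ring
      · rw [map_sub, aeval_X, map_one, Sum.elim_inl, hx']
        simp [hi]
      · rw [map_sub, aeval_X, map_one, Sum.elim_inr, hy']
        simp [hj])
  obtain ⟨x0, hx0⟩ : ∃ x0 : Fin 3 → k, x0 = fun i => z (Sum.inl i) := ⟨_, rfl⟩
  obtain ⟨y0, hy0⟩ : ∃ y0 : Fin 3 → k, y0 = fun i => z (Sum.inr i) := ⟨_, rfl⟩
  have hz0 : z = Sum.elim x0 y0 := by
    funext s
    rcases s with s | s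
    · rw [hx0, Sum.elim_inl]
    · rw [hy0, Sum.elim_inr]
  rw [hz0] at hz
  have e1 : x0 i = 1 := by
    have := hz (X (Sum.inl i) - 1) (by simp)
    rw [map_sub, eval_X, map_one, Sum.elim_inl] at this
    exact sub_eq_zero.1 this
  have e2 : y0 j = 1 := by
    have := hz (X (Sum.inr j) - 1) (by simp)
    rw [map_sub, eval_X, map_one, Sum.elim_inr] at this
    exact sub_eq_zero.1 this
  have e3' : ∀ l, T a x0 (e3 k l) y0 y0 y0 = 0 := by
    intro l
    rw [← aeval_gx]
    exact hz (gx a l) (Or.inl (Or.inl ⟨l, rfl⟩))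
  have e4 : ∀ l, T a x0 x0 y0 y0 (e3 k l) = 0 := by
    intro l
    rw [← aeval_gy]
    exact hz (gy a l) (Or.inl (Or.inr ⟨l, rfl⟩))
  refine h x0 y0 (fun h0 => ?_) (fun h0 => ?_) (fun u => ?_) (fun v => ?_)
  · rw [h0] at e1
    exact zero_ne_one e1
  · rw [h0] at e2
    exact zero_ne_one e2
  · rw [vec_eq u]
    simp only [T_add2, T_smul2, e3']
    ring
  · rw [vec_eq v]
    simp only [T_add5, T_smul5, e4]
    ring

end null

section main

variable {k : Type u} [Field k] [IsAlgClosed k] [CharZero k]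

/-- the form given by a tensor -/
noncomputable def FF (a : Ten k) : MvPolynomial (Fin 3 ⊕ Fin 3) k :=
  ∑ i, ∑ j, ∑ p, ∑ q, ∑ r, C (a i j p q r) * X (Sum.inl i) * X (Sum.inl j) * X (Sum.inr p) *
    X (Sum.inr q) * X (Sum.inr r)

omit [IsAlgClosed k] in
theorem eq_FF {F : MvPolynomial (Fin 3 ⊕ Fin 3) k} (hF : BH 2 3 F) : F = FF (tens F) := by
  apply MvPolynomial.funext
  intro z
  obtain ⟨x, hx⟩ : ∃ x : Fin 3 → k, x = fun i => z (Sum.inl i) := ⟨_, rfl⟩
  obtain ⟨y, hy⟩ : ∃ y : Fin 3 → k, y = fun i => z (Sum.inr i) := ⟨_, rfl⟩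
  have hz0 : z = Sum.elim x y := by
    funext s
    rcases s with s | s
    · rw [hx, Sum.elim_inl]
    · rw [hy, Sum.elim_inr]
  rw [hz0]
  have h1 := eval_F hF x y
  change eval (Sum.elim x y) F = _ at h1
  rw [h1]
  simp only [FF, map_sum, map_mul, eval_C, eval_X, Sum.elim_inl, Sum.elim_inr]
  unfold T
  rfl

omit [IsAlgClosed k] [CharZero k] in
theorem sumAlg_FF (a : Ten k) : sumAlgEquiv k (Fin 3) (Fin 3) (FF a) =
    ∑ i, ∑ j, C (∑ p, ∑ q, ∑ r, C (a i j p q r) * X p * X q * X r) * (X i * X j) := by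
  have hC : ∀ c, sumAlgEquiv k (Fin 3) (Fin 3) (C c) = C (C c) := fun c => sumRingEquiv_C _ _ _ c
  have hl : ∀ i, sumAlgEquiv k (Fin 3) (Fin 3) (X (Sum.inl i)) = X i :=
    fun i => sumRingEquiv_X_inl _ _ _ i
  have hr : ∀ i, sumAlgEquiv k (Fin 3) (Fin 3) (X (Sum.inr i)) = C (X i) :=
    fun i => sumRingEquiv_X_inr _ _ _ i
  simp only [FF, map_sum, map_mul, hC, hl, hr, Finset.sum_mul]
  refine Finset.sum_congr rfl fun i _ => Finset.sum_congr rfl fun j _ =>
    Finset.sum_congr rfl fun p _ => Finset.sum_congr rfl fun q _ =>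
    Finset.sum_congr rfl fun r _ => by ring

theorem main (F : MvPolynomial (Fin 3 ⊕ Fin 3) k)
    (hF : ∀ d ∈ F.support, ∑ i, d (Sum.inl i) = 2 ∧ ∑ i, d (Sum.inr i) = 3)
    (hsm : ∀ x y : Fin 3 → k, x ≠ 0 → y ≠ 0 → eval (Sum.elim x y) F = 0 →
      ∃ s, eval (Sum.elim x y) (pderiv s F) ≠ 0) :
    Irreducible F ∧ ∃ P : Fin 3 ⊕ Fin 3 → FractionRing (MvPolynomial (Fin 5) k),
      ∀ G : MvPolynomial (Fin 3 ⊕ Fin 3) k, aeval P G = 0 ↔ F ∣ G := by
  have hBH : BH 2 3 F := BH.of_support hF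
  have ha : Sy (tens F) := tens_sy F
  have hSk : Smo (tens F) k := by
    intro x y hx hy h1 h2
    obtain ⟨s, hs⟩ := hsm x y hx hy (by
      have h3 := eval_F hBH x y
      change eval (Sum.elim x y) F = _ at h3
      rw [h3]
      exact h1 x)
    apply hs
    rcases s with i | p
    · have h3 := eval_i hBH x y i
      change eval (Sum.elim x y) (pderiv (Sum.inl i) F) = _ at h3
      rw [h3, T_s1 ha, h1, mul_zero]
    · have h3 := eval_p hBH x y p
      change eval (Sum.elim x y) (pderiv (Sum.inr p) F) = _ at h3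
      rw [h3, T_s2 ha, T_s3 ha, h2, mul_zero]
  have hSall : ∀ (K : Type u) [Field K] [Algebra k K], Smo (tens F) K :=
    fun K _ _ => smo_all _ hSk K
  have hirr : Irreducible F := by
    have hF2 : sumAlgEquiv k (Fin 3) (Fin 3) F = ∑ i, ∑ j,
        C (∑ p, ∑ q, ∑ r, C (tens F i j p q r) * X p * X q * X r) * (X i * X j) := by
      conv_lhs => rw [eq_FF hBH]
      exact sumAlg_FF _
    refine irr F (fun x y hx hy => ?_) ?_ ?_ ?_ ?_
    · by_cases h0 : eval (Sum.elim x y) F = 0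
      · exact hsm x y hx hy h0
      · by_contra hcon
        push Not at hcon
        apply h0
        have h3 := eval_F hBH x y
        change eval (Sum.elim x y) F = _ at h3
        rw [h3, vec_eq x]
        have h4 : ∀ i, T (tens F) (e3 k i) x y y y = 0 := by
          intro i
          have h5 := eval_i hBH x y i
          change eval (Sum.elim x y) (pderiv (Sum.inl i) F) = _ at h5
          rw [hcon] at h5
          exact (mul_eq_zero.1 h5.symm).resolve_left two_ne_zero
        rw [T_add1, T_add1, T_smul1, T_smul1, T_smul1, ← vec_eq x, h4, h4, h4]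
        ring
    · rw [hF2]
      refine totalDegree_finsetSum_le fun i _ => totalDegree_finsetSum_le fun j _ => ?_
      refine (totalDegree_mul _ _).trans ?_
      rw [totalDegree_C]
      refine (Nat.add_le_add_left (totalDegree_mul _ _) _).trans ?_
      rw [totalDegree_X, totalDegree_X]
    · rw [hF2]
      simp only [map_sum, map_mul, constantCoeff_X, mul_zero, Finset.sum_const_zero]
    · intro i
      rw [hF2]
      simp only [map_sum, Derivation.leibniz, pderiv_C, smul_eq_mul, map_add, map_mul,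
        constantCoeff_X, mul_zero, zero_mul, add_zero, Finset.sum_const_zero]
    · intro y hy
      by_contra hcon
      push Not at hcon
      have h1 : ∀ x : Fin 3 → k, T (tens F) x x y y y = 0 := by
        intro x
        rw [← eval_F hBH x y]
        exact hcon x
      refine base_free hSk y hy (fun u u' => ?_)
      have h2 := h1 (u + u')
      simp only [T_add1, T_add2, h1 u, h1 u', T_s1 ha u' u] at h2
      have h3 : 2 * T (tens F) u u' y y y = 0 := by linear_combination h2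
      exact (mul_eq_zero.1 h3).resolve_left two_ne_zero
  refine ⟨hirr, ?_⟩
  -- a universal domain
  let Ω := AlgebraicClosure (FractionRing (MvPolynomial (Fin 6) k))
  have hΩ : CharZero Ω := charZero_of_injective_algebraMap (algebraMap k Ω).injective
  let b : Fin 6 → Ω := fun i => algebraMap (MvPolynomial (Fin 6) k) Ω (X i)
  have hb : AlgebraicIndependent k b := by
    refine (MvPolynomial.algebraicIndependent_X (Fin 6) k).map'
      (f := IsScalarTower.toAlgHom k (MvPolynomial (Fin 6) k) Ω) ?_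
    change Function.Injective (algebraMap (MvPolynomial (Fin 6) k) Ω)
    rw [IsScalarTower.algebraMap_eq (MvPolynomial (Fin 6) k)
      (FractionRing (MvPolynomial (Fin 6) k)) Ω]
    exact (algebraMap (FractionRing (MvPolynomial (Fin 6) k)) Ω).injective.comp
      (IsFractionRing.injective _ _)
  have hb2 : AlgebraicIndependent k ![b 0, b 1, b 2, b 3, b 4, b 5] := by
    have h1 : (![b 0, b 1, b 2, b 3, b 4, b 5] : Fin 6 → Ω) = b := by
      funext i
      fin_cases i <;> rfl
    rw [h1]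
    exact hb
  obtain ⟨S, t, ξ, η, ht, hξ, hη, hT, halg⟩ := generic_point (a := tens F) hSall ha _ _ _ _ _ _ hb2
  let e : Fin 5 → Fin 3 ⊕ Fin 3 := ![Sum.inl 0, Sum.inl 1, Sum.inr 0, Sum.inr 1, Sum.inr 2]
  have he : (Sum.elim ξ η : Fin 3 ⊕ Fin 3 → Ω) ∘ e = ![ξ 0, ξ 1, η 0, η 1, η 2] := by
    funext i
    fin_cases i <;> rfl
  obtain ⟨P, hP, hind⟩ := descent (k := k) t ht (Sum.elim ξ η) (by
    rintro (i | i)
    · exact hξ i
    · exact hη i) e (by
    intro j
    rw [he]
    exact halg j)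
  refine ⟨P, fun G => ⟨fun hG => ?_, ?_⟩⟩
  · let e' : Fin 3 ⊕ Fin 3 ≃ Option (Fin 5) :=
      (Equiv.ofBijective (fun o : Option (Fin 5) => (o.elim (Sum.inl 2) e : Fin 3 ⊕ Fin 3))
        (by decide)).symm
    refine ker_eq e' F hirr P (hP F ?_) ?_ G hG
    · rw [eval_F hBH]
      exact hT
    · exact hind
  · rintro ⟨G', rfl⟩
    rw [map_mul, hP F (by rw [eval_F hBH]; exact hT), zero_mul]

end main

end Pool.Agent.Y200.CB
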