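import Pool.Agent.Y200.CB.Gen

/-! The form of bidegree `(2, 3)` as a polynomial; irreducibility. -/

set_option autoImplicit false

namespace Pool.Agent.Y200.CB

open MvPolynomial

universe u v

variable {k : Type u} [Field k]

/-- a common zero of a polynomial which is not a unit -/
theorem exists_zero_of_not_isUnit [IsAlgClosed k] (g : MvPolynomial (Fin 3) k) (hg : ¬ IsUnit g) :
    ∃ y : Fin 3 → k, y ≠ 0 ∧ eval y g = 0 := by
  obtain ⟨y, hy⟩ : ∃ y : Fin 3 → k, eval y g = 0 := by
    by_contra hcon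
    push Not at hcon
    apply hg
    have h1 : zeroLocus k (Ideal.span {g}) = ∅ := by
      ext y
      simp only [Set.mem_empty_iff_false, iff_false]
      intro hy
      exact hcon y (hy g (Ideal.subset_span rfl))
    have h2 := vanishingIdeal_zeroLocus_eq_radical (K := k) (Ideal.span {g})
    rw [h1] at h2
    have h3 : (1 : MvPolynomial (Fin 3) k) ∈ (Ideal.span {g}).radical := by
      rw [← h2]
      intro y hy
      exact absurd hy (Set.notMem_empty y)
    have h4 : Ideal.span {g} = ⊤ := by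
      rw [← Ideal.radical_eq_top]
      exact (Ideal.eq_top_iff_one _).2 h3
    exact Ideal.span_singleton_eq_top.1 h4
  by_cases hy0 : y = 0
  · rw [hy0] at hy
    obtain ⟨v, hv, hv'⟩ := Pool.Agent.H552R3.Tsen.exists_common_zero (ι := Fin 1)
      (fun _ => g) (fun _ => hy) (by simp)
    exact ⟨v, hv, hv' 0⟩
  · exact ⟨y, hy0, hy⟩

theorem eval_sumAlg (x y : Fin 3 → k) (G : MvPolynomial (Fin 3 ⊕ Fin 3) k) :
    eval (Sum.elim x y) G = eval x (MvPolynomial.map (eval y) (sumAlgEquiv k (Fin 3) (Fin 3) G)) := by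
  have h : (eval (Sum.elim x y) : MvPolynomial (Fin 3 ⊕ Fin 3) k →+* k) =
      ((eval x).comp (MvPolynomial.map (eval y))).comp
        (sumAlgEquiv k (Fin 3) (Fin 3) : MvPolynomial (Fin 3 ⊕ Fin 3) k →+* _) := by
    apply MvPolynomial.ringHom_ext
    · intro c
      have h1 : sumAlgEquiv k (Fin 3) (Fin 3) (C c) = C (C c) := sumRingEquiv_C _ _ _ c
      simp only [RingHom.comp_apply, RingHom.coe_coe, h1, eval_C, MvPolynomial.map_C]
    · intro s
      rcases s with i | i
      · have h1 : sumAlgEquiv k (Fin 3) (Fin 3) (X (Sum.inl i)) = X i :=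
          sumRingEquiv_X_inl _ _ _ i
        simp only [RingHom.comp_apply, RingHom.coe_coe, h1, eval_X, MvPolynomial.map_X,
          Sum.elim_inl]
      · have h1 : sumAlgEquiv k (Fin 3) (Fin 3) (X (Sum.inr i)) = C (X i) :=
          sumRingEquiv_X_inr _ _ _ i
        simp only [RingHom.comp_apply, RingHom.coe_coe, h1, eval_X, MvPolynomial.map_C, eval_C,
          Sum.elim_inr]
  exact congrFun (congrArg DFunLike.coe h) G

/-- a polynomial of degree at most one without constant and linear terms -/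
theorem eq_zero_of_deg_one {R : Type v} [CommRing R] (G : MvPolynomial (Fin 3) R)
    (hd : G.totalDegree ≤ 1) (h0 : constantCoeff G = 0)
    (h1 : ∀ i, constantCoeff (pderiv i G) = 0) : G = 0 := by
  classical
  ext d
  rw [coeff_zero]
  by_contra hne
  have h2 : d.degree ≤ 1 := by
    refine le_trans ?_ hd
    have h3 := MvPolynomial.le_totalDegree (mem_support_iff.2 hne)
    rwa [Finsupp.degree_apply]
  by_cases hd0 : d = 0
  · rw [hd0] at hne
    exact hne h0
  · obtain ⟨i, hi⟩ : ∃ i, d = Finsupp.single i 1 := by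
      obtain ⟨i, hi⟩ := Finsupp.ne_iff.1 hd0
      refine ⟨i, ?_⟩
      have h4 : Finsupp.single i 1 ≤ d := by
        rw [Finsupp.single_le_iff]
        exact Nat.one_le_iff_ne_zero.2 hi
      obtain ⟨c, hc⟩ := exists_add_of_le h4
      have h5 : d.degree = 1 + c.degree := by
        rw [hc, map_add, Finsupp.degree_single]
      have h6 : c.degree = 0 := by omega
      rw [Finsupp.degree_eq_zero_iff] at h6
      rw [hc, h6, add_zero]
    have h7 := h1 i
    rw [constantCoeff_eq, coeff_pderiv] at h7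
    simp only [Finsupp.coe_zero, Pi.zero_apply, Nat.cast_zero, zero_add, mul_one] at h7
    rw [hi] at hne
    exact hne h7

theorem irr_aux [IsAlgClosed k] (F G H : MvPolynomial (Fin 3 ⊕ Fin 3) k) (hF : F = G * H)
    (hsm : ∀ x y : Fin 3 → k, x ≠ 0 → y ≠ 0 → ∃ s, eval (Sum.elim x y) (pderiv s F) ≠ 0)
    (h0 : constantCoeff (sumAlgEquiv k (Fin 3) (Fin 3) F) = 0)
    (h1 : ∀ i, constantCoeff (pderiv i (sumAlgEquiv k (Fin 3) (Fin 3) F)) = 0)
    (hG : (sumAlgEquiv k (Fin 3) (Fin 3) G).totalDegree = 1)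
    (hH : (sumAlgEquiv k (Fin 3) (Fin 3) H).totalDegree = 1)
    (hG0 : constantCoeff (sumAlgEquiv k (Fin 3) (Fin 3) G) = 0) : False := by
  have hGne : sumAlgEquiv k (Fin 3) (Fin 3) G ≠ 0 := by
    intro h
    rw [h, totalDegree_zero] at hG
    exact absurd hG (by decide)
  have hH0 : constantCoeff (sumAlgEquiv k (Fin 3) (Fin 3) H) = 0 := by
    by_contra hne
    apply hGne
    refine eq_zero_of_deg_one _ hG.le hG0 (fun i => ?_)
    have h2 := h1 i
    rw [hF, map_mul, Derivation.leibniz, smul_eq_mul, smul_eq_mul, map_add, map_mul, map_mul, hG0,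
      zero_mul, zero_add] at h2
    exact (mul_eq_zero.1 h2).resolve_left hne
  have hy0 : (Pi.single 0 1 : Fin 3 → k) ≠ 0 := by
    intro h
    have := congrFun h 0
    simp at this
  have hc : ∀ P : MvPolynomial (Fin 3 ⊕ Fin 3) k,
      constantCoeff (sumAlgEquiv k (Fin 3) (Fin 3) P) = 0 →
      eval 0 (MvPolynomial.map (eval (Pi.single 0 1 : Fin 3 → k))
        (sumAlgEquiv k (Fin 3) (Fin 3) P)) = 0 := by
    intro P hP
    have h2 : ∀ Q : MvPolynomial (Fin 3) k, eval 0 Q = constantCoeff Q := by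
      intro Q
      rw [MvPolynomial.eval_zero]
    rw [h2, constantCoeff_map, hP, map_zero]
  obtain ⟨x, hx, hx'⟩ := Pool.Agent.H552R3.Tsen.exists_common_zero (ι := Fin 2)
    ![MvPolynomial.map (eval (Pi.single 0 1 : Fin 3 → k)) (sumAlgEquiv k (Fin 3) (Fin 3) G),
      MvPolynomial.map (eval (Pi.single 0 1 : Fin 3 → k)) (sumAlgEquiv k (Fin 3) (Fin 3) H)] (by
      intro i
      fin_cases i
      · exact hc G hG0
      · exact hc H hH0) (by simp)
  obtain ⟨s, hs⟩ := hsm x (Pi.single 0 1) hx hy0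
  have e1 : eval (Sum.elim x (Pi.single 0 1)) G = 0 := by
    rw [eval_sumAlg]
    exact hx' 0
  have e2 : eval (Sum.elim x (Pi.single 0 1)) H = 0 := by
    rw [eval_sumAlg]
    exact hx' 1
  apply hs
  rw [hF, Derivation.leibniz, smul_eq_mul, smul_eq_mul, map_add, map_mul, map_mul, e1, e2]
  ring

theorem irr [IsAlgClosed k] (F : MvPolynomial (Fin 3 ⊕ Fin 3) k)
    (hsm : ∀ x y : Fin 3 → k, x ≠ 0 → y ≠ 0 → ∃ s, eval (Sum.elim x y) (pderiv s F) ≠ 0)
    (hd : (sumAlgEquiv k (Fin 3) (Fin 3) F).totalDegree ≤ 2)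
    (h0 : constantCoeff (sumAlgEquiv k (Fin 3) (Fin 3) F) = 0)
    (h1 : ∀ i, constantCoeff (pderiv i (sumAlgEquiv k (Fin 3) (Fin 3) F)) = 0)
    (hbf : ∀ y : Fin 3 → k, y ≠ 0 → ∃ x, eval (Sum.elim x y) F ≠ 0) : Irreducible F := by
  have hy0 : (Pi.single 0 1 : Fin 3 → k) ≠ 0 := by
    intro h
    have := congrFun h 0
    simp at this
  have hF0 : F ≠ 0 := by
    intro h
    obtain ⟨x, hx⟩ := hbf _ hy0
    rw [h, map_zero] at hx
    exact hx rfl
  -- a factor without `X` is a unit
  have hunit : ∀ G H : MvPolynomial (Fin 3 ⊕ Fin 3) k, F = G * H →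
      (sumAlgEquiv k (Fin 3) (Fin 3) G).totalDegree = 0 → IsUnit G := by
    intro G H hGH hdG
    rw [totalDegree_eq_zero_iff_eq_C] at hdG
    obtain ⟨g, hg⟩ : ∃ g, g = coeff 0 (sumAlgEquiv k (Fin 3) (Fin 3) G) := ⟨_, rfl⟩
    rw [← hg] at hdG
    by_contra hnu
    have hgu : ¬ IsUnit g := by
      intro hgu
      apply hnu
      have h2 : IsUnit (sumAlgEquiv k (Fin 3) (Fin 3) G) := by
        rw [hdG]
        exact hgu.map C
      exact (MulEquiv.isUnit_map (sumAlgEquiv k (Fin 3) (Fin 3))).1 h2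
    obtain ⟨y, hy, hgy⟩ := exists_zero_of_not_isUnit g hgu
    obtain ⟨x, hx⟩ := hbf y hy
    apply hx
    rw [hGH, map_mul, eval_sumAlg x y G, hdG, MvPolynomial.map_C, eval_C, hgy, zero_mul]
  refine ⟨fun hu => ?_, fun G H hGH => ?_⟩
  · have h2 : IsUnit (constantCoeff (sumAlgEquiv k (Fin 3) (Fin 3) F)) :=
      (hu.map (sumAlgEquiv k (Fin 3) (Fin 3))).map constantCoeff
    rw [h0] at h2
    exact not_isUnit_zero h2
  · have hG0 : G ≠ 0 := by
      rintro rfl
      exact hF0 (by rw [hGH, zero_mul])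
    have hH0 : H ≠ 0 := by
      rintro rfl
      exact hF0 (by rw [hGH, mul_zero])
    have hG0' : sumAlgEquiv k (Fin 3) (Fin 3) G ≠ 0 := fun h => hG0
      ((sumAlgEquiv k (Fin 3) (Fin 3)).injective (by rw [h, map_zero]))
    have hH0' : sumAlgEquiv k (Fin 3) (Fin 3) H ≠ 0 := fun h => hH0
      ((sumAlgEquiv k (Fin 3) (Fin 3)).injective (by rw [h, map_zero]))
    have hdeg : (sumAlgEquiv k (Fin 3) (Fin 3) G).totalDegree +
        (sumAlgEquiv k (Fin 3) (Fin 3) H).totalDegree ≤ 2 := by
      rw [← totalDegree_mul_of_isDomain hG0' hH0', ← map_mul, ← hGH]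
      exact hd
    by_cases hdG : (sumAlgEquiv k (Fin 3) (Fin 3) G).totalDegree = 0
    · exact Or.inl (hunit G H hGH hdG)
    by_cases hdH : (sumAlgEquiv k (Fin 3) (Fin 3) H).totalDegree = 0
    · exact Or.inr (hunit H G (by rw [hGH, mul_comm]) hdH)
    exfalso
    have h2 : constantCoeff (sumAlgEquiv k (Fin 3) (Fin 3) G) *
        constantCoeff (sumAlgEquiv k (Fin 3) (Fin 3) H) = 0 := by
      rw [← map_mul, ← map_mul, ← hGH]
      exact h0
    rcases mul_eq_zero.1 h2 with h3 | h3
    · exact irr_aux F G H hGH hsm h0 h1 (by omega) (by omega) h3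
    · exact irr_aux F H G (by rw [hGH, mul_comm]) hsm h0 h1 (by omega) (by omega) h3

/-- the kernel of a generic point of an irreducible hypersurface -/
theorem ker_eq {σ : Type} {n : ℕ} (e : σ ≃ Option (Fin n)) {L : Type v} [Field L] [Algebra k L]
    (F : MvPolynomial σ k) (hF : Irreducible F) (P : σ → L) (hP : aeval P F = 0)
    (hind : AlgebraicIndependent k (fun i : Fin n => P (e.symm (some i)))) (G : MvPolynomial σ k)
    (hG : aeval P G = 0) : F ∣ G := by
  let θ : MvPolynomial σ k ≃ₐ[k] Polynomial (MvPolynomial (Fin n) k) :=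
    (renameEquiv k e).trans (optionEquivLeft k (Fin n))
  let w : Fin n → L := fun i => P (e.symm (some i))
  let ι : MvPolynomial (Fin n) k →+* L := ((aeval w : MvPolynomial (Fin n) k →ₐ[k] L) : _ →+* L)
  have hι : Function.Injective ι := hind
  let ev : Polynomial (MvPolynomial (Fin n) k) →+* L := Polynomial.eval₂RingHom ι (P (e.symm none))
  have hev : ∀ Q : MvPolynomial σ k, ev (θ Q) = aeval P Q := by
    intro Q
    have h : (ev.comp (θ : MvPolynomial σ k →+* _)) =
        ((aeval P : MvPolynomial σ k →ₐ[k] L) : MvPolynomial σ k →+* L) := by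
      apply MvPolynomial.ringHom_ext
      · intro c
        simp only [RingHom.comp_apply, RingHom.coe_coe]
        have h1 : θ (C c) = Polynomial.C (C c) := θ.commutes c
        rw [h1]
        simp [ev, ι]
      · intro s
        simp only [RingHom.comp_apply, RingHom.coe_coe, aeval_X]
        have h1 : θ (X s) = optionEquivLeft k (Fin n) (X (e s)) := by
          simp [θ]
        rw [h1]
        rcases h2 : e s with _ | i
        · rw [optionEquivLeft_X_none]
          have h3 : e.symm none = s := by rw [← h2, Equiv.symm_apply_apply]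
          simp [ev, h3]
        · rw [optionEquivLeft_X_some]
          have h3 : e.symm (some i) = s := by rw [← h2, Equiv.symm_apply_apply]
          simp [ev, ι, w, h3]
    exact congrFun (congrArg DFunLike.coe h) Q
  have hirr : Irreducible (θ F) := (MulEquiv.irreducible_iff θ).2 hF
  have hdeg : (θ F).natDegree ≠ 0 := by
    intro h0
    have h1 := Polynomial.eq_C_of_natDegree_eq_zero h0
    have h2 := hev F
    rw [hP, h1] at h2
    simp only [ev, Polynomial.coe_eval₂RingHom, Polynomial.eval₂_C] at h2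
    have h3 : (θ F).coeff 0 = 0 := hι (by rw [h2, map_zero])
    rw [h3, Polynomial.C_0] at h1
    exact hirr.ne_zero h1
  have hprim : (θ F).IsPrimitive := hirr.isPrimitive hdeg
  let K := FractionRing (MvPolynomial (Fin n) k)
  have hirrK : Irreducible ((θ F).map (algebraMap (MvPolynomial (Fin n) k) K)) :=
    (hprim.irreducible_iff_irreducible_map_fraction_map).1 hirr
  let ιK : K →+* L := IsFractionRing.lift (A := MvPolynomial (Fin n) k) hι
  have hιK : ∀ a, ιK (algebraMap (MvPolynomial (Fin n) k) K a) = ι a :=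
    fun a => IsFractionRing.lift_algebraMap hι a
  have hevK : ∀ Q : Polynomial (MvPolynomial (Fin n) k),
      Polynomial.eval₂ ιK (P (e.symm none)) (Q.map (algebraMap (MvPolynomial (Fin n) k) K)) =
        ev Q := by
    intro Q
    rw [Polynomial.eval₂_map]
    change _ = Polynomial.eval₂ ι (P (e.symm none)) Q
    congr 1
    ext a
    · simp [hιK]
    · simp [hιK]
  have hdvdK : (θ F).map (algebraMap (MvPolynomial (Fin n) k) K) ∣
      (θ G).map (algebraMap (MvPolynomial (Fin n) k) K) := by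
    by_contra hnd
    obtain ⟨a, b, hab⟩ := ((hirrK.coprime_iff_not_dvd).2 hnd)
    have h1 := congrArg (Polynomial.eval₂ ιK (P (e.symm none))) hab
    rw [Polynomial.eval₂_add, Polynomial.eval₂_mul, Polynomial.eval₂_mul, hevK, hevK, hev, hev,
      hP, hG, mul_zero, mul_zero, add_zero, Polynomial.eval₂_one] at h1
    exact zero_ne_one h1
  have hdvd : θ F ∣ θ G := hprim.dvd_of_fraction_map_dvd_fraction_map hdvdK
  exact (map_dvd_iff θ).1 hdvd

end Pool.Agent.Y200.CB
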