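import Mathlib
import Pool.Agent.Y200.V1.Indep

/-! Relative algebraic closures and derivations of fields of characteristic zero. -/

set_option autoImplicit false

open MvPolynomial

namespace Pool.Agent.Y200.CB

universe u v

section ext

variable {L : Type u} {K : Type v} [Field L] [Field K] [Algebra L K]

/-- the algebra structure given by a family of elements (universe polymorphic version of
`Pool.Agent.W602.GT.alg_of_basis`) -/
theorem alg_of_basis {ι : Type v} (t : ι → K) (ht : IsTranscendenceBasis L t) :
    letI : Algebra (MvPolynomial ι L) K :=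
      ((aeval t : MvPolynomial ι L →ₐ[L] K) : MvPolynomial ι L →+* K).toAlgebra
    Algebra.IsAlgebraic (MvPolynomial ι L) K := by
  let _ : Algebra (MvPolynomial ι L) K :=
    ((aeval t : MvPolynomial ι L →ₐ[L] K) : MvPolynomial ι L →+* K).toAlgebra
  have h1 := ht.isAlgebraic
  refine Algebra.IsAlgebraic.of_ringHom_of_comp_eq
    (f := (ht.1.aevalEquiv : MvPolynomial ι L ≃ₐ[L] Algebra.adjoin L (Set.range t)))
    (g := RingHom.id K) ?_ Function.injective_id ?_
  · exact ht.1.aevalEquiv.surjective
  · ext x
    · simp [RingHom.algebraMap_toAlgebra]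
    · simp [RingHom.algebraMap_toAlgebra]

variable [CharZero L]

/-- derivations can be prescribed on a transcendence basis -/
theorem exists_der_basis {ι : Type v} (t : ι → K) (ht : IsTranscendenceBasis L t) (c : ι → K) :
    ∃ D : Derivation L K K, ∀ i, D (t i) = c i := by
  have hinj : Function.Injective (aeval t : MvPolynomial ι L →ₐ[L] K) :=
    ht.1
  have halg := alg_of_basis t ht
  let _ : Algebra (MvPolynomial ι L) K :=
    ((aeval t : MvPolynomial ι L →ₐ[L] K) : MvPolynomial ι L →+* K).toAlgebra
  have hst : IsScalarTower L (MvPolynomial ι L) K := IsScalarTower.of_algebraMap_eq' (by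
    ext c
    simp [RingHom.algebraMap_toAlgebra])
  have hfs : FaithfulSMul (MvPolynomial ι L) K := (faithfulSMul_iff_algebraMap_injective _ _).2 hinj
  let _ : Algebra (FractionRing (MvPolynomial ι L)) K := FractionRing.liftAlgebra (MvPolynomial ι L) K
  have hst2 : IsScalarTower (MvPolynomial ι L) (FractionRing (MvPolynomial ι L)) K := inferInstance
  have halg2 : Algebra.IsAlgebraic (FractionRing (MvPolynomial ι L)) K :=
    (IsFractionRing.comap_isAlgebraic_iff (A := MvPolynomial ι L)
      (K := FractionRing (MvPolynomial ι L)) (C := K)).1 halg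
  have hchar : CharZero (FractionRing (MvPolynomial ι L)) := inferInstance
  have hsep : Algebra.IsSeparable (FractionRing (MvPolynomial ι L)) K := inferInstance
  have h1 : Algebra.FormallyEtale (FractionRing (MvPolynomial ι L)) K :=
    Algebra.FormallyEtale.of_isSeparable _ _
  have h2 : Algebra.FormallyEtale (MvPolynomial ι L) (FractionRing (MvPolynomial ι L)) :=
    Algebra.FormallyEtale.of_isLocalization (nonZeroDivisors (MvPolynomial ι L))
  have h3 : Algebra.FormallyEtale (MvPolynomial ι L) K :=
    Algebra.FormallyEtale.comp (MvPolynomial ι L) (FractionRing (MvPolynomial ι L)) K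
  let e := KaehlerDifferential.tensorKaehlerEquivOfFormallyEtale L (MvPolynomial ι L) K
  let d : Derivation L (MvPolynomial ι L) K := MvPolynomial.mkDerivation L c
  let l : Ω[MvPolynomial ι L⁄L] →ₗ[MvPolynomial ι L] K := d.liftKaehlerDifferential
  let Λ : Ω[K⁄L] →ₗ[K] K := (LinearMap.liftBaseChange K l).comp e.symm.toLinearMap
  let D : Derivation L K K := Λ.compDer (KaehlerDifferential.D L K)
  refine ⟨D, fun i => ?_⟩
  have h5 : t i = algebraMap (MvPolynomial ι L) K (X i) := by
    simp [RingHom.algebraMap_toAlgebra]
  change Λ (KaehlerDifferential.D L K (t i)) = c i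
  change LinearMap.liftBaseChange K l (e.symm (KaehlerDifferential.D L K (t i))) = c i
  rw [h5, KaehlerDifferential.tensorKaehlerEquivOfFormallyEtale_symm_D_algebraMap]
  simp [l, d]

/-- derivations can be prescribed on an algebraically independent family -/
theorem exists_der {n : ℕ} (t : Fin n → K) (ht : AlgebraicIndependent L t) (c : Fin n → K) :
    ∃ D : Derivation L K K, ∀ i, D (t i) = c i := by
  classical
  obtain ⟨s, hs, hb⟩ := exists_isTranscendenceBasis_superset ht.coe_range
  obtain ⟨D, hD⟩ := exists_der_basis (fun x : s => (x : K)) hb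
    (fun x => if h : ∃ i, t i = x then c h.choose else 0)
  refine ⟨D, fun i => ?_⟩
  have h1 := hD ⟨t i, hs ⟨i, rfl⟩⟩
  have hex : ∃ j, t j = t i := ⟨i, rfl⟩
  simp only at h1
  rw [dif_pos hex] at h1
  rw [h1]
  congr 1
  exact ht.injective hex.choose_spec

end ext

section consts

variable {k : Type u} {K : Type v} [Field k] [Field K] [Algebra k K]

/-- the field of constants of a derivation -/
def consts (D : Derivation k K K) : IntermediateField k K where
  carrier := {x | D x = 0}
  mul_mem' := by
    intro a b ha hb
    simp only [Set.mem_ofPred_eq] at ha hb ⊢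
    rw [D.leibniz, ha, hb]; simp
  add_mem' := by
    intro a b ha hb
    simp only [Set.mem_ofPred_eq] at ha hb ⊢
    rw [map_add, ha, hb, add_zero]
  algebraMap_mem' := fun r => D.map_algebraMap r
  inv_mem' := by
    intro a ha
    simp only [Set.mem_ofPred_eq] at ha ⊢
    rw [D.leibniz_inv, ha]; simp

/-- a derivation is linear over its field of constants -/
def overConsts (D : Derivation k K K) : Derivation (consts D) K K :=
  Derivation.mk'
    { toFun := fun x => D x
      map_add' := fun x y => map_add D x y
      map_smul' := fun c x => by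
        have h : D (c : K) = 0 := c.2
        change D ((c : K) * x) = (c : K) * D x
        rw [D.leibniz, h]; simp }
    (fun x y => D.leibniz x y)

theorem overConsts_apply (D : Derivation k K K) (x : K) : overConsts D x = D x := rfl

/-- elements which are algebraic over constants are constants -/
theorem der_alg [CharZero k] (D : Derivation k K K) (z : K) (hz : IsAlgebraic (consts D) z) :
    D z = 0 := by
  have hint : IsIntegral (consts D) z := hz.isIntegral
  have hchar : CharZero (consts D) := charZero_of_injective_algebraMap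
    (algebraMap k (consts D)).injective
  have h1 : overConsts D (Polynomial.aeval z (minpoly (consts D) z)) = 0 := by
    rw [minpoly.aeval, map_zero]
  rw [Derivation.map_aeval] at h1
  have h2 : Polynomial.aeval z (Polynomial.derivative (minpoly (consts D) z)) ≠ 0 :=
    (minpoly.irreducible hint).separable.aeval_derivative_ne_zero (minpoly.aeval _ _)
  rw [smul_eq_mul, overConsts_apply] at h1
  exact (mul_eq_zero.mp h1).resolve_left h2

end consts

section cl

variable (k : Type u) {Ω : Type v} [Field k] [Field Ω] [Algebra k Ω]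

/-- the algebraic closure in `Ω` of the field generated by a set -/
noncomputable def cl (S : Set Ω) : IntermediateField k Ω :=
  (algebraicClosure (IntermediateField.adjoin k S) Ω).restrictScalars k

variable {k}

theorem mem_cl {S : Set Ω} {z : Ω} : z ∈ cl k S ↔ IsAlgebraic (IntermediateField.adjoin k S) z :=
  mem_algebraicClosure_iff

theorem subset_cl (S : Set Ω) : S ⊆ cl k S := by
  intro z hz
  exact mem_cl.2 (isAlgebraic_algebraMap
    (⟨z, IntermediateField.subset_adjoin _ _ hz⟩ : IntermediateField.adjoin k S))

/-- algebraic over a smaller field -/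
theorem isAlgebraic_of_le {E E' : IntermediateField k Ω} (h : E ≤ E') {z : Ω}
    (hz : IsAlgebraic E z) : IsAlgebraic E' z := by
  obtain ⟨p, hp0, hp⟩ := hz
  refine ⟨p.map (IntermediateField.inclusion h).toRingHom, ?_, ?_⟩
  · exact (Polynomial.map_ne_zero_iff (IntermediateField.inclusion h).toRingHom.injective).2 hp0
  · rw [Polynomial.aeval_def, Polynomial.eval₂_map]
    exact hp

/-- `cl S` is algebraically closed in `Ω` -/
theorem mem_cl_of_isAlgebraic {S : Set Ω} {z : Ω} (hz : IsAlgebraic (cl k S) z) : z ∈ cl k S := by
  rw [mem_cl]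
  have hz' : IsAlgebraic (algebraicClosure (IntermediateField.adjoin k S) Ω) z := by
    obtain ⟨p, hp0, hp⟩ := hz
    exact ⟨p, hp0, hp⟩
  exact hz'.restrictScalars _

theorem cl_le {S : Set Ω} {E : IntermediateField k Ω} (hS : S ⊆ E)
    (hE : ∀ z, IsAlgebraic E z → z ∈ E) : cl k S ≤ E := by
  intro z hz
  apply hE
  exact isAlgebraic_of_le (IntermediateField.adjoin_le_iff.2 hS) (mem_cl.1 hz)

theorem cl_le_cl {S S' : Set Ω} (hS : S ⊆ cl k S') : cl k S ≤ cl k S' :=
  cl_le hS (fun _ => mem_cl_of_isAlgebraic)

theorem mem_cl_of_le {S : Set Ω} {E : IntermediateField k Ω} (hE : E ≤ cl k S) {z : Ω}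
    (hz : IsAlgebraic E z) : z ∈ cl k S := mem_cl_of_isAlgebraic (isAlgebraic_of_le hE hz)

/-- derivations which vanish on `S` vanish on `cl S` -/
theorem der_cl [CharZero k] (D : Derivation k Ω Ω) {S : Set Ω} (hS : ∀ s ∈ S, D s = 0) {z : Ω}
    (hz : z ∈ cl k S) : D z = 0 := by
  have h : cl k S ≤ consts D := cl_le (fun s hs => hS s hs) (fun z hz => der_alg D z hz)
  exact h hz

instance [IsAlgClosed Ω] (S : Set Ω) : IsAlgClosed (cl k S) := by
  have h1 : IsAlgClosure (IntermediateField.adjoin k S)
      (algebraicClosure (IntermediateField.adjoin k S) Ω) := inferInstance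
  have h : IsAlgClosed (algebraicClosure (IntermediateField.adjoin k S) Ω) := h1.isAlgClosed
  exact h

theorem indep_cons_cl {n : ℕ} (x : Fin n → Ω) (t : Ω) :
    AlgebraicIndependent k (Fin.cons t x : Fin (n + 1) → Ω) ↔
      AlgebraicIndependent k x ∧ t ∉ cl k (Set.range x) := by
  rw [V1.indep_cons_iff, mem_cl]
  rfl

theorem indep_exch {n : ℕ} (x y : Fin n → Ω) (hx : AlgebraicIndependent k x)
    (h : ∀ i, x i ∈ cl k (Set.range y)) : AlgebraicIndependent k y :=
  V1.indep_exchange x y hx (fun i => mem_cl.1 (h i))

/-- there are not more than `n` independent elements in the closure of `n` elements -/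
theorem not_indep_of_rank {n : ℕ} (x : Fin (n + 1) → Ω) (y : Fin (n + 1) → Ω)
    (hx : AlgebraicIndependent k x) (h : ∀ i, x i ∈ cl k (Set.range y)) {i j : Fin (n + 1)}
    (hij : i ≠ j) (he : y i = y j) : False :=
  hij ((indep_exch x y hx h).injective he)

theorem indep_over_cl {n : ℕ} (S : Set Ω) (x : Fin n → Ω) :
    AlgebraicIndependent (cl k S) x ↔ AlgebraicIndependent (IntermediateField.adjoin k S) x := by
  have h : AlgebraicIndependent (algebraicClosure (IntermediateField.adjoin k S) Ω) x ↔
      AlgebraicIndependent (IntermediateField.adjoin k S) x :=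
    (Algebra.IsAlgebraic.algebraicIndependent_iff ..).symm
  exact h

end cl

end Pool.Agent.Y200.CB
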