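import Pool.Agent.Y200.CB.Gau
import Pool.Agent.Y200.V1.Place

/-! The map of the plane given by the coefficients of the conic bundle is finite. -/

set_option autoImplicit false

namespace Pool.Agent.Y200.CB

universe u v

variable {k : Type u} {Ω : Type v} [Field k] [Field Ω] [Algebra k Ω] {a : Ten k}

theorem T_ee (i j : Fin 3) (y v w : Fin 3 → Ω) :
    T a (e3 Ω i) (e3 Ω j) y v w =
      ∑ p, ∑ q, ∑ r, algebraMap k Ω (a i j p q r) * y p * v q * w r := by
  unfold T
  rw [Finset.sum_eq_single i, Finset.sum_eq_single j]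
  · refine Finset.sum_congr rfl fun p _ => Finset.sum_congr rfl fun q _ =>
      Finset.sum_congr rfl fun r _ => ?_
    simp [e3]
  · intro j' _ hj
    refine Finset.sum_eq_zero fun p _ => Finset.sum_eq_zero fun q _ =>
      Finset.sum_eq_zero fun r _ => ?_
    simp [e3, Pi.single_eq_of_ne hj]
  · intro h
    exact absurd (Finset.mem_univ _) h
  · intro i' _ hi
    refine Finset.sum_eq_zero fun j' _ => Finset.sum_eq_zero fun p _ =>
      Finset.sum_eq_zero fun q _ => Finset.sum_eq_zero fun r _ => ?_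
    simp [e3, Pi.single_eq_of_ne hi]
  · intro h
    exact absurd (Finset.mem_univ _) h

theorem T_ee_zero {y v w : Fin 3 → Ω} (h : ∀ i j, T a (e3 Ω i) (e3 Ω j) y v w = 0)
    (u u' : Fin 3 → Ω) : T a u u' y v w = 0 := by
  rw [vec_eq u, vec_eq u']
  simp only [T_add1, T_add2, T_smul1, T_smul2, h]
  ring

/-- the largest coordinate relative to a valuation ring -/
theorem exists_max_coord {E : Type u} [Field E] [Algebra E Ω] (O : Subalgebra E Ω)
    (hV : ∀ x : Ω, x ∈ O ∨ x⁻¹ ∈ O) (y : Fin 3 → Ω) (hy0 : y 0 ≠ 0) :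
    ∃ q, y q ≠ 0 ∧ ∀ r, y r / y q ∈ O := by
  have step : ∀ c d : Ω, c ≠ 0 → d / c ∈ O ∨ (d ≠ 0 ∧ c / d ∈ O) := by
    intro c d hc
    rcases hV (d / c) with h | h
    · exact Or.inl h
    · by_cases hd : d = 0
      · left
        rw [hd, zero_div]
        exact O.zero_mem
      · right
        refine ⟨hd, ?_⟩
        rwa [inv_div] at h
  have self : ∀ c : Ω, c ≠ 0 → c / c ∈ O := fun c hc => by
    rw [div_self hc]
    exact O.one_mem
  have trans : ∀ b c d : Ω, c ≠ 0 → b / c ∈ O → c / d ∈ O → b / d ∈ O := by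
    intro b c d hc h1 h2
    have h3 : b / d = b / c * (c / d) := by field_simp
    rw [h3]
    exact O.mul_mem h1 h2
  obtain ⟨q, hq, h0, h1⟩ : ∃ q, y q ≠ 0 ∧ y 0 / y q ∈ O ∧ y 1 / y q ∈ O := by
    rcases step (y 0) (y 1) hy0 with h | ⟨h, h'⟩
    · exact ⟨0, hy0, self _ hy0, h⟩
    · exact ⟨1, h, h', self _ h⟩
  rcases step (y q) (y 2) hq with h | ⟨h, h'⟩
  · refine ⟨q, hq, fun r => ?_⟩
    fin_cases r
    · exact h0
    · exact h1
    · exact h
  · refine ⟨2, h, fun r => ?_⟩
    fin_cases r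
    · exact trans _ _ _ hq h0 h'
    · exact trans _ _ _ hq h1 h'
    · exact self _ h

variable [CharZero k] [CharZero Ω] [IsAlgClosed Ω]

theorem no_n (hS : Smo a Ω)
    (hSall : ∀ (K : Type v) [Field K] [Algebra k K], Smo a K) (ha : Sy a)
    {y : Fin 3 → Ω} (hy0 : y 0 = 1) (hy : AlgebraicIndependent k ![y 1, y 2])
    (n : Fin 3 → Ω) (hn : n ≠ 0) (h : ∀ u u', T a u u' y y n = 0) : False := by
  obtain ⟨D, hD⟩ := der_vec y hy0 hy n
  obtain ⟨m, hm⟩ : ∃ m : Fin 3 → Fin 3 → Ω, m = fun i j => T a (e3 Ω i) (e3 Ω j) y y y :=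
    ⟨_, rfl⟩
  have hDe : ∀ i, (fun j => D (e3 Ω i j)) = 0 := by
    intro i
    funext j
    unfold e3
    by_cases h2 : j = i
    · rw [h2, Pi.single_eq_same]
      simp
    · rw [Pi.single_eq_of_ne h2]
      simp
  have hDm : ∀ i j, D (m i j) = -(3 * n 0) * m i j := by
    intro i j
    rw [hm]
    simp only
    have h1 := T_der a D (e3 Ω i) (e3 Ω j) y y y
    rw [hDe, hDe, T_zero1, T_zero2, T_s2 ha _ _ (fun i => D (y i)) y y,
      T_s3 ha _ _ y (fun i => D (y i)) y] at h1
    have h2 := h (e3 Ω i) (e3 Ω j)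
    rw [hD, T_add5, T_smul5] at h2
    linear_combination h1 + 3 * h2
  have hyne : y ≠ 0 := fun h0 => by
    rw [h0] at hy0
    exact zero_ne_one hy0
  obtain ⟨i₀, j₀, hm0⟩ : ∃ i j, m i j ≠ 0 := by
    by_contra hcon
    push Not at hcon
    exact base_free hS y hyne (T_ee_zero (fun i j => by
      have := hcon i j
      rw [hm] at this
      exact this))
  obtain ⟨m₀, hm₀⟩ : ∃ m₀, m₀ = m i₀ j₀ := ⟨_, rfl⟩
  rw [← hm₀] at hm0
  have hDm₀ : D m₀ = -(3 * n 0) * m₀ := by rw [hm₀]; exact hDm _ _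
  have hquot : ∀ b c : Ω, c ≠ 0 → D (b / c) * c ^ 2 = D b * c - b * D c := by
    intro b c hc
    have h1 : b = b / c * c := by field_simp
    have h2 : D b = D (b / c) * c + b / c * D c := by
      conv_lhs => rw [h1]
      rw [D.leibniz]
      simp only [smul_eq_mul]
      ring
    rw [h2]
    field_simp
    ring
  obtain ⟨p, hp⟩ : ∃ p, Transcendental (consts D) (y p ^ 3 / m₀) := by
    by_contra hcon
    push Not at hcon
    have hcon' : ∀ p, D (y p ^ 3 / m₀) = 0 := fun p => der_alg D _ (by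
      by_contra h1
      exact hcon p h1)
    have h0 := hquot (y 0 ^ 3) m₀ hm0
    rw [hcon', hy0, one_pow, hDm₀] at h0
    have h1 : n 0 = 0 := by
      have h2 : 3 * (n 0 * m₀) = 0 := by
        rw [D.map_one_eq_zero] at h0
        linear_combination -h0
      have h3 := (mul_eq_zero.1 h2).resolve_left three_ne_zero
      exact (mul_eq_zero.1 h3).resolve_right hm0
    have hDy : ∀ p, D (y p) = 0 := by
      intro p
      by_cases hyp : y p = 0
      · rw [hyp, map_zero]
      · have h2 := hquot (y p ^ 3) m₀ hm0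
        rw [hcon', hDm₀, h1, D.leibniz_pow] at h2
        simp only [smul_eq_mul, nsmul_eq_mul, Nat.add_one_sub_one, Nat.cast_ofNat] at h2
        have h3 : 3 * (y p ^ 2 * (D (y p) * m₀)) = 0 := by linear_combination -h2
        have h4 := (mul_eq_zero.1 h3).resolve_left three_ne_zero
        have h5 := (mul_eq_zero.1 h4).resolve_left (pow_ne_zero 2 hyp)
        exact (mul_eq_zero.1 h5).resolve_right hm0
    apply hn
    rw [hD]
    funext i
    simp [h1, hDy]
  have hyp : y p ≠ 0 := by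
    intro h0
    apply hp
    rw [h0]
    simpa using isAlgebraic_zero
  obtain ⟨θ, hθ⟩ : ∃ θ, θ = m₀ / y p ^ 3 := ⟨_, rfl⟩
  have hθt : Transcendental (consts D) θ := by
    intro halg
    apply hp
    have h1 : y p ^ 3 / m₀ = θ⁻¹ := by rw [hθ, inv_div]
    rw [h1]
    exact halg.inv
  obtain ⟨κ, _, _, O, π, hO, hV, hmem, hroot⟩ := V1.exists_place θ hθt Polynomial.X
    Polynomial.irreducible_X
  rw [Polynomial.aeval_X] at hroot
  obtain ⟨q, hq, hyO⟩ := exists_max_coord O hV y (by rw [hy0]; exact one_ne_zero)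
  let yO : Fin 3 → O := fun r => ⟨y r / y q, hyO r⟩
  let _ : Algebra k κ := ((algebraMap (consts D) κ).comp (algebraMap k (consts D))).toAlgebra
  have hkκ : ∀ c : k, algebraMap k κ c = π (algebraMap (consts D) O (algebraMap k (consts D) c)) :=
    fun c => (π.commutes _).symm
  have hkΩ : ∀ c : k, algebraMap k Ω c =
      O.val (algebraMap (consts D) O (algebraMap k (consts D) c)) := fun c => rfl
  let M : Fin 3 → Fin 3 → O := fun i j => ∑ p, ∑ q, ∑ r,
    algebraMap (consts D) O (algebraMap k (consts D) (a i j p q r)) * yO p * yO q * yO r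
  have hMκ : ∀ i j, T a (e3 κ i) (e3 κ j) (fun r => π (yO r)) (fun r => π (yO r))
      (fun r => π (yO r)) = π (M i j) := by
    intro i j
    rw [T_ee]
    simp only [M, map_sum, map_mul, hkκ]
  have hMΩ : ∀ i j, T a (e3 Ω i) (e3 Ω j) (fun r => y r / y q) (fun r => y r / y q)
      (fun r => y r / y q) = O.val (M i j) := by
    intro i j
    rw [T_ee]
    simp only [M, map_sum, map_mul, hkΩ]
    rfl
  have hMm : ∀ i j, O.val (M i j) = m i j / m₀ * θ * (y p / y q) ^ 3 := by
    intro i j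
    rw [← hMΩ]
    have h1 : (fun r => y r / y q) = (y q)⁻¹ • y := by
      funext r
      simp [div_eq_mul_inv, mul_comm]
    rw [h1, T_smul3, T_smul4, T_smul5, hm, hθ]
    simp only
    field_simp
  have hρ : ∀ i j, m i j / m₀ ∈ consts D := by
    intro i j
    change D (m i j / m₀) = 0
    have h2 := hquot (m i j) m₀ hm0
    rw [hDm, hDm₀] at h2
    have h3 : D (m i j / m₀) * m₀ ^ 2 = 0 := by linear_combination h2
    exact (mul_eq_zero.1 h3).resolve_right (pow_ne_zero 2 hm0)
  have hMfac : ∀ i j, M i j = algebraMap (consts D) O ⟨m i j / m₀, hρ i j⟩ * ⟨θ, hmem⟩ *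
      yO p ^ 3 := by
    intro i j
    apply Subtype.ext
    exact hMm i j
  have hM0 : ∀ i j, π (M i j) = 0 := by
    intro i j
    rw [hMfac, map_mul, map_mul, hroot]
    ring
  -- pass to the algebraic closure
  let f : κ →ₐ[k] AlgebraicClosure κ := IsScalarTower.toAlgHom k κ (AlgebraicClosure κ)
  have hfe : ∀ i, (fun j => f (e3 κ i j)) = e3 (AlgebraicClosure κ) i := by
    intro i
    funext j
    unfold e3
    by_cases h2 : j = i
    · rw [h2, Pi.single_eq_same, Pi.single_eq_same, map_one]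
    · rw [Pi.single_eq_of_ne h2, Pi.single_eq_of_ne h2, map_zero]
  refine base_free (hSall (AlgebraicClosure κ)) (fun r => f (π (yO r))) (fun h0 => ?_)
    (T_ee_zero (fun i j => ?_))
  · have h1 := congrFun h0 q
    have h2 : yO q = 1 := Subtype.ext (div_self hq)
    simp only [h2, map_one, Pi.zero_apply] at h1
    exact one_ne_zero h1
  · have h1 := T_map a f (e3 κ i) (e3 κ j) (fun r => π (yO r)) (fun r => π (yO r))
      (fun r => π (yO r))
    rw [hMκ, hM0, map_zero, hfe, hfe] at h1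
    exact h1.symm

/-- the tangential point is not rational over the closure of `k(y)` -/
theorem tp_not_rat' (hSall : ∀ (K : Type v) [Field K] [Algebra k K], Smo a K) (ha : Sy a)
    {x y : Fin 3 → Ω} (h : GP a x y) : ¬ Rat (cl k (Set.range ![y 1, y 2])) (tp a x y) := by
  intro hr
  obtain ⟨n, hn, hT⟩ := key_n ha (hSall Ω) h hr
  exact no_n (hSall Ω) hSall ha h.hy0 (h.hy ha (hSall Ω)) n hn hT

end Pool.Agent.Y200.CB
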