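import Pool.Agent.Y200.CB.Tan

/-! The generic point is not a flex; the tangential point is a generic point. -/

set_option autoImplicit false

namespace Pool.Agent.Y200.CB

open MvPolynomial

universe u v

variable {k : Type u} {Ω : Type v} [Field k] [Field Ω] [Algebra k Ω] {a : Ten k}

/-- exchange in the closure of three elements -/
theorem exch3 {y1 x1 x2 c : Ω} (h : AlgebraicIndependent k ![y1, x1, x2])
    (hc : c ∈ cl k (Set.range ![y1, x1, x2])) (hc' : c ∉ cl k (Set.range ![x1, x2])) :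
    y1 ∈ cl k (Set.range ![c, x1, x2]) := by
  have hx : AlgebraicIndependent k ![x1, x2] := ((indep_cons_cl ![x1, x2] y1).1 h).1
  have h1 : AlgebraicIndependent k ![c, x1, x2] := indep_of_notMem hx hc'
  by_contra h2
  have h3 : AlgebraicIndependent k ![y1, c, x1, x2] := indep_of_notMem h1 h2
  refine not_indep_of_rank (k := k) ![y1, c, x1, x2] ![y1, y1, x1, x2] h3 ?_
    (i := 0) (j := 1) (by decide) rfl
  have hle : cl k (Set.range ![y1, x1, x2]) ≤ cl k (Set.range ![y1, y1, x1, x2]) := by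
    apply cl_le_cl
    rintro _ ⟨i, rfl⟩
    fin_cases i
    · exact subset_cl _ ⟨0, rfl⟩
    · exact subset_cl _ ⟨2, rfl⟩
    · exact subset_cl _ ⟨3, rfl⟩
  intro i
  fin_cases i
  · exact subset_cl _ ⟨0, rfl⟩
  · exact hle hc
  · exact subset_cl _ ⟨2, rfl⟩
  · exact subset_cl _ ⟨3, rfl⟩

/-- constants in the closure -/
theorem const_mem [CharZero k] {y1 x1 x2 c : Ω} (h : AlgebraicIndependent k ![y1, x1, x2])
    (D : Derivation k Ω Ω) (h1 : D y1 = 1) (hx1 : D x1 = 0) (hx2 : D x2 = 0)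
    (hc : c ∈ cl k (Set.range ![y1, x1, x2])) (hDc : D c = 0) : c ∈ cl k (Set.range ![x1, x2]) := by
  by_contra hc'
  have h2 : D y1 = 0 := by
    refine der_cl D ?_ (exch3 h hc hc')
    rintro _ ⟨i, rfl⟩
    fin_cases i
    · exact hDc
    · exact hx1
    · exact hx2
  rw [h1] at h2
  exact one_ne_zero h2

/-- a cubic polynomial over `cl S` with a root outside is zero -/
theorem cubic_zero {S : Set Ω} {t c0 c1 c2 c3 : Ω} (h0 : c0 ∈ cl k S) (h1 : c1 ∈ cl k S)
    (h2 : c2 ∈ cl k S) (h3 : c3 ∈ cl k S) (ht : t ∉ cl k S)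
    (h : c3 * t ^ 3 + c2 * t ^ 2 + c1 * t + c0 = 0) : c0 = 0 ∧ c1 = 0 ∧ c2 = 0 ∧ c3 = 0 := by
  let p : Polynomial (cl k S) := Polynomial.C ⟨c3, h3⟩ * Polynomial.X ^ 3 +
    Polynomial.C ⟨c2, h2⟩ * Polynomial.X ^ 2 + Polynomial.C ⟨c1, h1⟩ * Polynomial.X +
    Polynomial.C ⟨c0, h0⟩
  have hp : Polynomial.aeval t p = 0 := by
    simp only [p, map_add, map_mul, map_pow, Polynomial.aeval_X, Polynomial.aeval_C]
    exact h
  have hp0 : p = 0 := by
    by_contra hne
    exact ht (mem_cl_of_isAlgebraic ⟨p, hne, hp⟩)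
  have e0 : p.coeff 0 = ⟨c0, h0⟩ := by simp [p, Polynomial.coeff_X, Polynomial.coeff_C]
  have e1 : p.coeff 1 = ⟨c1, h1⟩ := by simp [p, Polynomial.coeff_X, Polynomial.coeff_C]
  have e2 : p.coeff 2 = ⟨c2, h2⟩ := by simp [p, Polynomial.coeff_X, Polynomial.coeff_C]
  have e3 : p.coeff 3 = ⟨c3, h3⟩ := by simp [p, Polynomial.coeff_X, Polynomial.coeff_C]
  rw [hp0, Polynomial.coeff_zero] at e0 e1 e2 e3
  exact ⟨(congrArg Subtype.val e0).symm, (congrArg Subtype.val e1).symm,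
    (congrArg Subtype.val e2).symm, (congrArg Subtype.val e3).symm⟩

theorem GP.yE {x y : Fin 3 → Ω} (h : GP a x y) (i : Fin 3) :
    y i ∈ cl k (Set.range ![y 1, x 1, x 2]) := by
  fin_cases i
  · simp only [Fin.zero_eta]
    rw [h.hy0]
    exact one_mem _
  · exact subset_cl _ ⟨0, rfl⟩
  · exact h.hy2

theorem GP.xE {x y : Fin 3 → Ω} (h : GP a x y) (i : Fin 3) :
    x i ∈ cl k (Set.range ![y 1, x 1, x 2]) := by
  fin_cases i
  · simp only [Fin.zero_eta]
    rw [h.hx0]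
    exact one_mem _
  · exact subset_cl _ ⟨1, rfl⟩
  · exact subset_cl _ ⟨2, rfl⟩

theorem GP.xF {x y : Fin 3 → Ω} (h : GP a x y) (i : Fin 3) :
    x i ∈ cl k (Set.range ![x 1, x 2]) := by
  fin_cases i
  · simp only [Fin.zero_eta]
    rw [h.hx0]
    exact one_mem _
  · exact subset_cl _ ⟨0, rfl⟩
  · exact subset_cl _ ⟨1, rfl⟩

theorem e3_mem (E : IntermediateField k Ω) (i j : Fin 3) : e3 Ω i j ∈ E := by
  unfold e3
  by_cases h2 : j = i
  · rw [h2, Pi.single_eq_same]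
    exact one_mem _
  · rw [Pi.single_eq_of_ne h2]
    exact zero_mem _

variable [CharZero k] [CharZero Ω] [IsAlgClosed Ω]

theorem nonflex (ha : Sy a) (hS : Smo a Ω) {x y : Fin 3 → Ω} (h : GP a x y)
    {D : Derivation k Ω Ω} (hD : DD a x y D) :
    T a x x y (fun i => D (y i)) (fun i => D (y i)) ≠ 0 := by
  intro hfl
  obtain ⟨c, hc⟩ : ∃ c, c = D (y 2) := ⟨_, rfl⟩
  have hy' : (fun i => D (y i)) = e3 Ω 1 + c • e3 Ω 2 := by
    funext i
    fin_cases i
    · simp [h.hy0, e3]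
    · simp [hD.d1, e3]
    · simp [hc, e3]
  have hy'' : (fun i => D (D (y i))) = D c • e3 Ω 2 := by
    funext i
    fin_cases i
    · simp [h.hy0, e3]
    · simp [hD.d1, e3]
    · simp [hc, e3]
  have h0x : ∀ u y v w : Fin 3 → Ω, T a u 0 y v w = 0 := by
    intro u y v w
    rw [T_s1 ha, T_zero1]
  have h1 := T_der a D x x y y (fun i => D (y i))
  rw [hD.t1, map_zero, hD.dx, T_zero1, h0x, T_s2 ha x x (fun i => D (y i)) y (fun i => D (y i)),
    hfl, hy'', T_smul5] at h1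
  have hDc : D c = 0 := by
    have h2 : D c * T a x x y y (e3 Ω 2) = 0 := by linear_combination -h1
    exact (mul_eq_zero.1 h2).resolve_right hD.g2
  have hx1 : D (x 1) = 0 := congrFun hD.dx 1
  have hx2 : D (x 2) = 0 := congrFun hD.dx 2
  have hcE : c ∈ cl k (Set.range ![y 1, x 1, x 2]) := by
    have h2 : c = -T a x x y y (e3 Ω 1) / T a x x y y (e3 Ω 2) := by
      rw [eq_div_iff hD.g2]
      have h3 := hD.t1
      rw [hy', T_add5, T_smul5] at h3
      linear_combination h3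
    rw [h2]
    exact div_mem (neg_mem (T_mem a _ h.xE h.xE h.yE h.yE (e3_mem _ 1)))
      (T_mem a _ h.xE h.xE h.yE h.yE (e3_mem _ 2))
  have hcF := const_mem h.hind D hD.d1 hx1 hx2 hcE hDc
  have hc'E : y 2 - c * y 1 ∈ cl k (Set.range ![y 1, x 1, x 2]) :=
    sub_mem (h.yE 2) (mul_mem hcE (h.yE 1))
  have hDc' : D (y 2 - c * y 1) = 0 := by
    rw [map_sub, D.leibniz, hDc, hD.d1, ← hc]
    simp
  have hc'F := const_mem h.hind D hD.d1 hx1 hx2 hc'E hDc'
  obtain ⟨c', hc'⟩ : ∃ c', c' = y 2 - c * y 1 := ⟨_, rfl⟩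
  rw [← hc'] at hc'F
  have hyy : y = ![1, 0, c'] + y 1 • ![0, 1, c] := by
    funext i
    fin_cases i
    · simp [h.hy0]
    · simp
    · simp only [Fin.reduceFinMk, Pi.add_apply, Pi.smul_apply, smul_eq_mul]
      change y 2 = c' + y 1 * c
      rw [hc']
      ring
  have hpF : ∀ i, (![1, 0, c'] : Fin 3 → Ω) i ∈ cl k (Set.range ![x 1, x 2]) := by
    intro i
    fin_cases i
    · exact one_mem _
    · exact zero_mem _
    · exact hc'F
  have hqF : ∀ i, (![0, 1, c] : Fin 3 → Ω) i ∈ cl k (Set.range ![x 1, x 2]) := by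
    intro i
    fin_cases i
    · exact zero_mem _
    · exact one_mem _
    · exact hcF
  have hT := h.hT
  rw [hyy] at hT
  have h3F : (3 : Ω) ∈ cl k (Set.range ![x 1, x 2]) := ofNat_mem _ 3
  obtain ⟨e0, e1, e2, e3⟩ := cubic_zero (S := Set.range ![x 1, x 2]) (t := y 1)
    (c0 := T a x x ![1, 0, c'] ![1, 0, c'] ![1, 0, c'])
    (c1 := 3 * T a x x ![1, 0, c'] ![1, 0, c'] ![0, 1, c])
    (c2 := 3 * T a x x ![1, 0, c'] ![0, 1, c] ![0, 1, c])
    (c3 := T a x x ![0, 1, c] ![0, 1, c] ![0, 1, c])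
    (T_mem a _ h.xF h.xF hpF hpF hpF) (mul_mem h3F (T_mem a _ h.xF h.xF hpF hpF hqF))
    (mul_mem h3F (T_mem a _ h.xF h.xF hpF hqF hqF)) (T_mem a _ h.xF h.xF hqF hqF hqF) h.hy1 (by
      simp only [T_add3, T_add4, T_add5, T_smul3, T_smul4, T_smul5] at hT
      rw [T_s3 ha x x ![1, 0, c'] ![0, 1, c] ![1, 0, c'],
        T_s2 ha x x ![0, 1, c] ![1, 0, c'] ![1, 0, c'],
        T_s3 ha x x ![1, 0, c'] ![0, 1, c] ![1, 0, c'],
        T_s3 ha x x ![0, 1, c] ![0, 1, c] ![1, 0, c'],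
        T_s2 ha x x ![0, 1, c] ![1, 0, c'] ![0, 1, c]] at hT
      linear_combination hT)
  exact no_line ha hS h.hx0 h.hx c c' e0 ((mul_eq_zero.1 e1).resolve_left three_ne_zero)
    ((mul_eq_zero.1 e2).resolve_left three_ne_zero) e3

/-- the tangential point is not rational over the closure of `k(x)` -/
theorem tp_not_rat (ha : Sy a) (hS : Smo a Ω) {x y : Fin 3 → Ω} (h : GP a x y) :
    ¬ Rat (cl k (Set.range ![x 1, x 2])) (tp a x y) := by
  rintro ⟨γ, hγ, hz⟩
  obtain ⟨D, hD⟩ := exists_dd ha hS h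
  have hfl := nonflex ha hS h hD
  have hx1 : D (x 1) = 0 := congrFun hD.dx 1
  have hx2 : D (x 2) = 0 := congrFun hD.dx 2
  have hDz : (fun i => D ((γ • tp a x y) i)) = 0 := by
    funext i
    refine der_cl D ?_ (hz i)
    rintro _ ⟨j, rfl⟩
    fin_cases j
    · exact hx1
    · exact hx2
  have h0x : ∀ u y v w : Fin 3 → Ω, T a u 0 y v w = 0 := by
    intro u y v w
    rw [T_s1 ha, T_zero1]
  have h0y : ∀ u u' v w : Fin 3 → Ω, T a u u' v w 0 = 0 := by
    intro u u' v w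
    simp [T]
  have h1 := T_der a D x x y y (γ • tp a x y)
  rw [T_smul5, T_tp' x y h.hT, mul_zero, map_zero, hD.dx, T_zero1, h0x, hDz, h0y,
    T_s2 ha x x (fun i => D (y i)) y] at h1
  have h2 : T a x x y (fun i => D (y i)) (γ • tp a x y) = 0 := by
    have h3 : 2 * T a x x y (fun i => D (y i)) (γ • tp a x y) = 0 := by linear_combination -h1
    exact (mul_eq_zero.1 h3).resolve_left two_ne_zero
  have h4 : T a x x y (tv a x y) (tv a x y) =
      T a x x y y (e3 Ω 2) ^ 2 * T a x x y (fun i => D (y i)) (fun i => D (y i)) := by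
    rw [hD.dy, T_smul4, T_smul5]
    ring
  have h5 : T a x x y (fun i => D (y i)) (tv a x y) =
      T a x x y y (e3 Ω 2) * T a x x y (fun i => D (y i)) (fun i => D (y i)) := by
    rw [hD.dy, T_smul5]
  rw [T_smul5] at h2
  have h6 : T a x x y (fun i => D (y i)) (tp a x y) =
      -(3 * T a x x y (tv a x y) (tv a x y)) * T a x x y (fun i => D (y i)) (tv a x y) := by
    unfold tp
    rw [T_add5, T_smul5, T_smul5, T_s3 ha x x y (fun i => D (y i)) y, hD.t1]
    ring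
  rw [h6, h4, h5] at h2
  have h7 : 3 * γ * T a x x y y (e3 Ω 2) ^ 3 *
      T a x x y (fun i => D (y i)) (fun i => D (y i)) ^ 2 = 0 := by linear_combination -h2
  have h3 : (3 : Ω) ≠ 0 := three_ne_zero
  simp only [mul_eq_zero, pow_eq_zero_iff, ne_eq, OfNat.ofNat_ne_zero, not_false_eq_true,
    h3, hγ, hD.g2, hfl, or_self] at h7

end Pool.Agent.Y200.CB
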