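import Pool.Agent.Y200.CB.Flex

/-! The tangential point is not rational over the closure of `k(y)`. -/

set_option autoImplicit false

namespace Pool.Agent.Y200.CB

open MvPolynomial

universe u v

variable {k : Type u} {Ω : Type v} [Field k] [Field Ω] [Algebra k Ω] {a : Ten k}

theorem T_neg5 (u u' y v n : Fin 3 → Ω) : T a u u' y v (-n) = -T a u u' y v n := by
  have h := T_smul5 a (-1 : Ω) u u' y v n
  rw [neg_one_smul, neg_one_mul] at h
  exact h

theorem T_zero2 (u y v w : Fin 3 → Ω) : T a u 0 y v w = 0 := by simp [T]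
theorem T_zero3 (x u v w : Fin 3 → Ω) : T a x u 0 v w = 0 := by simp [T]
theorem T_zero4 (x u y w : Fin 3 → Ω) : T a x u y 0 w = 0 := by simp [T]
theorem T_zero5 (x u y v : Fin 3 → Ω) : T a x u y v 0 = 0 := by simp [T]

variable [CharZero k] [CharZero Ω] [IsAlgClosed Ω]

/-- the vectors `x, x', x''` form a basis -/
theorem span3 (b : (Fin 3 → Ω) → (Fin 3 → Ω) → Ω)
    (ba : ∀ u v w, b u (v + w) = b u v + b u w) (bs : ∀ (c : Ω) u v, b u (c • v) = c * b u v)
    (bc : ∀ u v, b u v = b v u) (x x' x'' : Fin 3 → Ω) (hx : x ≠ 0) (s : Ω) (hs : s ≠ 0)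
    (h0 : b x x = 0) (h1 : b x x' = 0) (h2 : b x' x' = s) (h3 : b x x'' = -s) (u : Fin 3 → Ω) :
    ∃ α β γ : Ω, u = α • x + β • x' + γ • x'' := by
  have hli : LinearIndependent Ω ![x, x', x''] := by
    rw [Fintype.linearIndependent_iff]
    intro g hg
    rw [Fin.sum_univ_three] at hg
    simp only [Matrix.cons_val_zero, Matrix.cons_val_one, Matrix.cons_val] at hg
    have hb0 : ∀ v, b v 0 = 0 := by
      intro v
      have := bs 0 v 0
      rw [zero_smul, zero_mul] at this
      exact this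
    have e1 : b x (g 0 • x + g 1 • x' + g 2 • x'') = 0 := by rw [hg, hb0]
    rw [ba, ba, bs, bs, bs, h0, h1, h3] at e1
    have g2 : g 2 = 0 := by
      have h4 : g 2 * s = 0 := by linear_combination -e1
      exact (mul_eq_zero.1 h4).resolve_right hs
    have e2 : b x' (g 0 • x + g 1 • x' + g 2 • x'') = 0 := by rw [hg, hb0]
    rw [ba, ba, bs, bs, bs, bc x' x, h1, h2, g2] at e2
    have g1 : g 1 = 0 := by
      have h4 : g 1 * s = 0 := by linear_combination e2
      exact (mul_eq_zero.1 h4).resolve_right hs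
    rw [g1, g2, zero_smul, zero_smul, add_zero, add_zero] at hg
    have g0 : g 0 = 0 := (smul_eq_zero.1 hg).resolve_right hx
    intro i
    fin_cases i
    · exact g0
    · exact g1
    · exact g2
  have htop : Submodule.span Ω (Set.range ![x, x', x'']) = ⊤ :=
    hli.span_eq_top_of_card_eq_finrank (by simp)
  have hu : u ∈ Submodule.span Ω (Set.range ![x, x', x'']) := by
    rw [htop]
    trivial
  obtain ⟨c, hc⟩ := (Submodule.mem_span_range_iff_exists_fun Ω).1 hu
  refine ⟨c 0, c 1, c 2, ?_⟩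
  rw [← hc, Fin.sum_univ_three]
  simp

theorem key_n (ha : Sy a) (hS : Smo a Ω) {x y : Fin 3 → Ω} (h : GP a x y)
    (hr : Rat (cl k (Set.range ![y 1, y 2])) (tp a x y)) :
    ∃ n : Fin 3 → Ω, n ≠ 0 ∧ ∀ u u', T a u u' y y n = 0 := by
  obtain ⟨γ, hγ, hz⟩ := hr
  obtain ⟨i₀, hi₀, hxi⟩ := h.hxM
  have hind : AlgebraicIndependent k ![x i₀, y 1, y 2] := indep_of_notMem (h.hy ha hS) hxi
  obtain ⟨D, hD⟩ := exists_der _ hind ![1, 0, 0]
  have hDx : D (x i₀) = 1 := hD 0
  have hDy1 : D (y 1) = 0 := hD 1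
  have hDy2 : D (y 2) = 0 := hD 2
  have hDy : (fun i => D (y i)) = 0 := by
    funext i
    fin_cases i
    · simp [h.hy0]
    · exact hDy1
    · exact hDy2
  obtain ⟨z, hzdef⟩ : ∃ z, z = γ • tp a x y := ⟨_, rfl⟩
  have hDz : (fun i => D (z i)) = 0 := by
    funext i
    rw [hzdef]
    refine der_cl D ?_ (hz i)
    rintro _ ⟨j, rfl⟩
    fin_cases j
    · exact hDy1
    · exact hDy2
  obtain ⟨x', hx'⟩ : ∃ x' : Fin 3 → Ω, x' = fun i => D (x i) := ⟨_, rfl⟩
  obtain ⟨x'', hx''⟩ : ∃ x'' : Fin 3 → Ω, x'' = fun i => D (x' i) := ⟨_, rfl⟩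
  obtain ⟨x₃, hx₃⟩ : ∃ x₃ : Fin 3 → Ω, x₃ = fun i => D (x'' i) := ⟨_, rfl⟩
  -- the bilinear form
  have hbx : T a x x y y y = 0 := h.hT
  have hDb : ∀ u u' : Fin 3 → Ω, D (T a u u' y y y) =
      T a (fun i => D (u i)) u' y y y + T a u (fun i => D (u' i)) y y y := by
    intro u u'
    rw [T_der, hDy, T_zero3, T_zero4, T_zero5]
    ring
  have hDg : ∀ u u' : Fin 3 → Ω, D (T a u u' y y z) =
      T a (fun i => D (u i)) u' y y z + T a u (fun i => D (u' i)) y y z := by
    intro u u'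
    rw [T_der, hDy, T_zero3, T_zero4, hDz, T_zero5]
    ring
  have hbxx' : T a x x' y y y = 0 := by
    have h1 := hDb x x
    rw [hbx, map_zero, ← hx', T_s1 ha x' x] at h1
    have h2 : 2 * T a x x' y y y = 0 := by linear_combination -h1
    exact (mul_eq_zero.1 h2).resolve_left two_ne_zero
  obtain ⟨s, hs⟩ : ∃ s, s = T a x' x' y y y := ⟨_, rfl⟩
  have hbxx'' : T a x x'' y y y = -s := by
    have h1 := hDb x x'
    rw [hbxx', map_zero, ← hx', ← hx''] at h1
    rw [hs]
    linear_combination -h1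
  have hx'0 : x' 0 = 0 := by rw [hx']; simp [h.hx0]
  have hx'i : x' i₀ = 1 := by rw [hx']; exact hDx
  have hy0' : y ≠ 0 := fun h0 => by
    have := h.hy0
    rw [h0] at this
    exact zero_ne_one this
  have hs0 : s ≠ 0 := by
    intro hs0
    rw [hs0] at hs
    obtain ⟨j, hj0, hji, hall⟩ : ∃ j : Fin 3, j ≠ 0 ∧ j ≠ i₀ ∧ ∀ i, i = 0 ∨ i = i₀ ∨ i = j := by
      fin_cases i₀
      · exact absurd rfl hi₀
      · exact ⟨2, by decide, by decide, by decide⟩
      · exact ⟨1, by decide, by decide, by decide⟩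
    have hdec : ∀ v : Fin 3 → Ω, v = v 0 • x + (v i₀ - v 0 * x i₀) • x' +
        (v j - v 0 * x j - (v i₀ - v 0 * x i₀) * x' j) • e3 Ω j := by
      intro v
      funext i
      rcases hall i with rfl | rfl | rfl
      · simp [e3, hx'0, h.hx0, Pi.single_eq_of_ne hj0.symm]
      · simp [e3, hx'i, Pi.single_eq_of_ne hji.symm]
      · simp [e3]
    obtain ⟨A, hA⟩ : ∃ A, A = T a x (e3 Ω j) y y y := ⟨_, rfl⟩
    obtain ⟨B, hB⟩ : ∃ B, B = T a x' (e3 Ω j) y y y := ⟨_, rfl⟩
    have hort : ∀ l m : Ω, l * A + m * B = 0 → ∀ v, T a (l • x + m • x') v y y y = 0 := by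
      intro l m hlm v
      rw [hdec v]
      simp only [T_add1, T_add2, T_smul1, T_smul2]
      rw [hbx, hbxx', ← hs, T_s1 ha x' x, hbxx', ← hA, ← hB]
      linear_combination (v j - v 0 * x j - (v i₀ - v 0 * x i₀) * x' j) * hlm
    by_cases hAB : A = 0 ∧ B = 0
    · refine smooth_y ha hS y h.hy0 (h.hy ha hS) ((1 : Ω) • x + (0 : Ω) • x') (fun h0 => ?_)
        (hort 1 0 (by rw [hAB.1]; ring))
      have := congrFun h0 0
      simp [h.hx0] at this
    · refine smooth_y ha hS y h.hy0 (h.hy ha hS) (B • x + (-A) • x') (fun h0 => ?_)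
        (hort B (-A) (by ring))
      have e0 := congrFun h0 0
      have e1 := congrFun h0 i₀
      simp only [Pi.add_apply, Pi.smul_apply, smul_eq_mul, h.hx0, hx'0, hx'i, Pi.zero_apply,
        mul_one, mul_zero, add_zero] at e0 e1
      rw [e0] at e1
      exact hAB ⟨by linear_combination -e1, e0⟩
  have hx0' : x ≠ 0 := fun h0 => by
    have := h.hx0
    rw [h0] at this
    exact zero_ne_one this
  have hspan := span3 (fun u v => T a u v y y y) (fun u v w => T_add2 a u v w y y y)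
    (fun c u v => T_smul2 a c u v y y y) (fun u v => T_s1 ha u v y y y) x x' x'' hx0' s hs0
    hbx hbxx' hs.symm hbxx''
  -- the second form
  have hgx : T a x x y y z = 0 := by
    rw [hzdef, T_smul5, T_tp' x y h.hT, mul_zero]
  have hgxx' : T a x x' y y z = 0 := by
    have h1 := hDg x x
    rw [hgx, map_zero, ← hx', T_s1 ha x' x] at h1
    have h2 : 2 * T a x x' y y z = 0 := by linear_combination -h1
    exact (mul_eq_zero.1 h2).resolve_left two_ne_zero
  have hgxx'' : T a x x'' y y z = -T a x' x' y y z := by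
    have h1 := hDg x x'
    rw [hgxx', map_zero, ← hx', ← hx''] at h1
    linear_combination -h1
  obtain ⟨ν, hν⟩ : ∃ ν, ν = T a x' x' y y z / s := ⟨_, rfl⟩
  have hνs : ν * s = T a x' x' y y z := by rw [hν]; field_simp
  obtain ⟨n, hn⟩ : ∃ n : Fin 3 → Ω, n = z + (-ν) • y := ⟨_, rfl⟩
  have hH : ∀ u u', T a u u' y y n = T a u u' y y z - ν * T a u u' y y y := by
    intro u u'
    rw [hn, T_add5, T_smul5]
    ring
  have hDn : (fun i => D (n i)) = (-D ν) • y := by
    funext i
    have e1 : D (z i) = 0 := congrFun hDz i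
    have e2 : D (y i) = 0 := congrFun hDy i
    rw [hn]
    simp only [Pi.add_apply, Pi.smul_apply, smul_eq_mul, map_add, Derivation.leibniz, map_neg, e1,
      e2]
    ring
  have hDH : ∀ u u' : Fin 3 → Ω, D (T a u u' y y n) =
      T a (fun i => D (u i)) u' y y n + T a u (fun i => D (u' i)) y y n -
        D ν * T a u u' y y y := by
    intro u u'
    rw [T_der, hDy, T_zero3, T_zero4, hDn, T_smul5]
    ring
  have H1 : T a x x y y n = 0 := by rw [hH, hgx, hbx]; ring
  have H2 : T a x x' y y n = 0 := by rw [hH, hgxx', hbxx']; ring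
  have H3 : T a x x'' y y n = 0 := by rw [hH, hgxx'', hbxx'']; linear_combination hνs
  have H4 : T a x' x' y y n = 0 := by rw [hH, ← hs]; linear_combination -hνs
  have Hx : ∀ u, T a x u y y n = 0 := by
    intro u
    obtain ⟨α, β, δ, rfl⟩ := hspan u
    simp only [T_add2, T_smul2, H1, H2, H3]
    ring
  have E1 : 2 * T a x' x'' y y n - D ν * s = 0 := by
    have h1 := hDH x' x'
    rw [H4, map_zero, ← hx'', T_s1 ha x'' x', ← hs] at h1
    linear_combination -h1
  have E2 : T a x' x'' y y n + D ν * s = 0 := by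
    have h1 := hDH x x''
    rw [H3, map_zero, ← hx', Hx, hbxx''] at h1
    linear_combination -h1
  have hDν : D ν = 0 := by
    have h1 : 3 * (D ν * s) = 0 := by linear_combination 2 * E2 - E1
    have h2 := (mul_eq_zero.1 h1).resolve_left three_ne_zero
    exact (mul_eq_zero.1 h2).resolve_right hs0
  have H5 : T a x' x'' y y n = 0 := by
    rw [hDν] at E2
    linear_combination E2
  have Hx' : ∀ u, T a x' u y y n = 0 := by
    intro u
    obtain ⟨α, β, δ, rfl⟩ := hspan u
    simp only [T_add2, T_smul2, T_s1 ha x' x, H2, H4, H5]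
    ring
  have H6 : T a x'' x'' y y n = 0 := by
    have h1 := hDH x' x''
    rw [H5, map_zero, ← hx'', Hx', hDν] at h1
    linear_combination -h1
  have Hall : ∀ u u', T a u u' y y n = 0 := by
    intro u u'
    obtain ⟨α, β, δ, rfl⟩ := hspan u
    have H7 : T a x'' u' y y n = 0 := by
      obtain ⟨α', β', δ', rfl⟩ := hspan u'
      simp only [T_add2, T_smul2, T_s1 ha x'' x, T_s1 ha x'' x', Hx, Hx', H6]
      ring
    simp only [T_add1, T_smul1, Hx, Hx', H7]
    ring
  refine ⟨n, ?_, Hall⟩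
  intro hn0
  obtain ⟨D', hD'⟩ := exists_dd ha hS h
  have hfl := nonflex ha hS h hD'
  have hyw : T a x x y (tv a x y) (tv a x y) ≠ 0 := by
    rw [hD'.dy, T_smul4, T_smul5]
    exact mul_ne_zero hD'.g2 (mul_ne_zero hD'.g2 hfl)
  have hn' : n = (γ * T a x x (tv a x y) (tv a x y) (tv a x y) - ν) • y +
      (γ * (-(3 * T a x x y (tv a x y) (tv a x y)))) • tv a x y := by
    rw [hn, hzdef]
    unfold tp
    rw [smul_add, smul_smul, smul_smul, sub_smul, neg_smul]
    abel
  have e0 := congrFun hn' 0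
  have e1 := congrFun hn' 1
  rw [hn0] at e0 e1
  simp only [Pi.add_apply, Pi.smul_apply, smul_eq_mul, tv_zero, h.hy0, Pi.zero_apply,
    mul_one, mul_zero, add_zero] at e0 e1
  rw [← e0, zero_mul, zero_add] at e1
  have e2 : tv a x y 1 = T a x x y y (e3 Ω 2) := by simp [tv, e3]
  rw [e2] at e1
  have h3 : (3 : Ω) ≠ 0 := three_ne_zero
  have h4 := e1.symm
  simp only [mul_eq_zero, neg_eq_zero, h3, hγ, hyw, hD'.g2, or_self] at h4

end Pool.Agent.Y200.CB
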