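import Mathlib

/-! Forms of bidegree `(2, 3)` given by symmetric tensors. -/

set_option autoImplicit false

namespace Pool.Agent.Y200.CB

universe u v

/-- a tensor of type `(2, 3)` -/
abbrev Ten (k : Type u) := Fin 3 → Fin 3 → Fin 3 → Fin 3 → Fin 3 → k

/-- the symmetries -/
structure Sy {k : Type u} (a : Ten k) : Prop where
  s1 : ∀ i j p q r, a i j p q r = a j i p q r
  s2 : ∀ i j p q r, a i j p q r = a i j q p r
  s3 : ∀ i j p q r, a i j p q r = a i j p r q

variable {k : Type u} {Ω : Type v} [Field k] [Field Ω] [Algebra k Ω] (a : Ten k)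

/-- the multilinear form -/
noncomputable def T (x u y v w : Fin 3 → Ω) : Ω :=
  ∑ i, ∑ j, ∑ p, ∑ q, ∑ r, algebraMap k Ω (a i j p q r) * x i * u j * y p * v q * w r

theorem T_add1 (x x' u y v w : Fin 3 → Ω) :
    T a (x + x') u y v w = T a x u y v w + T a x' u y v w := by
  simp only [T, ← Finset.sum_add_distrib, Pi.add_apply]
  refine Finset.sum_congr rfl fun i _ => Finset.sum_congr rfl fun j _ =>
    Finset.sum_congr rfl fun p _ => Finset.sum_congr rfl fun q _ =>
    Finset.sum_congr rfl fun r _ => by ring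

theorem T_add2 (x u u' y v w : Fin 3 → Ω) :
    T a x (u + u') y v w = T a x u y v w + T a x u' y v w := by
  simp only [T, ← Finset.sum_add_distrib, Pi.add_apply]
  refine Finset.sum_congr rfl fun i _ => Finset.sum_congr rfl fun j _ =>
    Finset.sum_congr rfl fun p _ => Finset.sum_congr rfl fun q _ =>
    Finset.sum_congr rfl fun r _ => by ring

theorem T_add3 (x u y y' v w : Fin 3 → Ω) :
    T a x u (y + y') v w = T a x u y v w + T a x u y' v w := by
  simp only [T, ← Finset.sum_add_distrib, Pi.add_apply]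
  refine Finset.sum_congr rfl fun i _ => Finset.sum_congr rfl fun j _ =>
    Finset.sum_congr rfl fun p _ => Finset.sum_congr rfl fun q _ =>
    Finset.sum_congr rfl fun r _ => by ring

theorem T_add4 (x u y v v' w : Fin 3 → Ω) :
    T a x u y (v + v') w = T a x u y v w + T a x u y v' w := by
  simp only [T, ← Finset.sum_add_distrib, Pi.add_apply]
  refine Finset.sum_congr rfl fun i _ => Finset.sum_congr rfl fun j _ =>
    Finset.sum_congr rfl fun p _ => Finset.sum_congr rfl fun q _ =>
    Finset.sum_congr rfl fun r _ => by ring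

theorem T_add5 (x u y v w w' : Fin 3 → Ω) :
    T a x u y v (w + w') = T a x u y v w + T a x u y v w' := by
  simp only [T, ← Finset.sum_add_distrib, Pi.add_apply]
  refine Finset.sum_congr rfl fun i _ => Finset.sum_congr rfl fun j _ =>
    Finset.sum_congr rfl fun p _ => Finset.sum_congr rfl fun q _ =>
    Finset.sum_congr rfl fun r _ => by ring

theorem T_smul1 (c : Ω) (x u y v w : Fin 3 → Ω) :
    T a (c • x) u y v w = c * T a x u y v w := by
  simp only [T, Finset.mul_sum, Pi.smul_apply, smul_eq_mul]
  refine Finset.sum_congr rfl fun i _ => Finset.sum_congr rfl fun j _ =>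
    Finset.sum_congr rfl fun p _ => Finset.sum_congr rfl fun q _ =>
    Finset.sum_congr rfl fun r _ => by ring

theorem T_smul2 (c : Ω) (x u y v w : Fin 3 → Ω) :
    T a x (c • u) y v w = c * T a x u y v w := by
  simp only [T, Finset.mul_sum, Pi.smul_apply, smul_eq_mul]
  refine Finset.sum_congr rfl fun i _ => Finset.sum_congr rfl fun j _ =>
    Finset.sum_congr rfl fun p _ => Finset.sum_congr rfl fun q _ =>
    Finset.sum_congr rfl fun r _ => by ring

theorem T_smul3 (c : Ω) (x u y v w : Fin 3 → Ω) :
    T a x u (c • y) v w = c * T a x u y v w := by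
  simp only [T, Finset.mul_sum, Pi.smul_apply, smul_eq_mul]
  refine Finset.sum_congr rfl fun i _ => Finset.sum_congr rfl fun j _ =>
    Finset.sum_congr rfl fun p _ => Finset.sum_congr rfl fun q _ =>
    Finset.sum_congr rfl fun r _ => by ring

theorem T_smul4 (c : Ω) (x u y v w : Fin 3 → Ω) :
    T a x u y (c • v) w = c * T a x u y v w := by
  simp only [T, Finset.mul_sum, Pi.smul_apply, smul_eq_mul]
  refine Finset.sum_congr rfl fun i _ => Finset.sum_congr rfl fun j _ =>
    Finset.sum_congr rfl fun p _ => Finset.sum_congr rfl fun q _ =>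
    Finset.sum_congr rfl fun r _ => by ring

theorem T_smul5 (c : Ω) (x u y v w : Fin 3 → Ω) :
    T a x u y v (c • w) = c * T a x u y v w := by
  simp only [T, Finset.mul_sum, Pi.smul_apply, smul_eq_mul]
  refine Finset.sum_congr rfl fun i _ => Finset.sum_congr rfl fun j _ =>
    Finset.sum_congr rfl fun p _ => Finset.sum_congr rfl fun q _ =>
    Finset.sum_congr rfl fun r _ => by ring

variable {a}

theorem T_s1 (ha : Sy a) (x u y v w : Fin 3 → Ω) : T a x u y v w = T a u x y v w := by
  simp only [T]
  rw [Finset.sum_comm]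
  refine Finset.sum_congr rfl fun i _ => Finset.sum_congr rfl fun j _ =>
    Finset.sum_congr rfl fun p _ => Finset.sum_congr rfl fun q _ =>
    Finset.sum_congr rfl fun r _ => ?_
  rw [ha.s1]
  ring

theorem T_s2 (ha : Sy a) (x u y v w : Fin 3 → Ω) : T a x u y v w = T a x u v y w := by
  simp only [T]
  refine Finset.sum_congr rfl fun i _ => Finset.sum_congr rfl fun j _ => ?_
  rw [Finset.sum_comm]
  refine
    Finset.sum_congr rfl fun p _ => Finset.sum_congr rfl fun q _ =>
    Finset.sum_congr rfl fun r _ => ?_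
  rw [ha.s2]
  ring

theorem T_s3 (ha : Sy a) (x u y v w : Fin 3 → Ω) : T a x u y v w = T a x u y w v := by
  simp only [T]
  refine Finset.sum_congr rfl fun i _ => Finset.sum_congr rfl fun j _ =>
    Finset.sum_congr rfl fun p _ => ?_
  rw [Finset.sum_comm]
  refine Finset.sum_congr rfl fun q _ => Finset.sum_congr rfl fun r _ => ?_
  rw [ha.s3]
  ring

variable (a)

/-- the derivative of the multilinear form -/
theorem T_der (D : Derivation k Ω Ω) (x u y v w : Fin 3 → Ω) :
    D (T a x u y v w) = T a (fun i => D (x i)) u y v w + T a x (fun i => D (u i)) y v w +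
      T a x u (fun i => D (y i)) v w + T a x u y (fun i => D (v i)) w +
      T a x u y v (fun i => D (w i)) := by
  simp only [T, map_sum, ← Finset.sum_add_distrib]
  refine Finset.sum_congr rfl fun i _ => Finset.sum_congr rfl fun j _ =>
    Finset.sum_congr rfl fun p _ => Finset.sum_congr rfl fun q _ =>
    Finset.sum_congr rfl fun r _ => ?_
  simp only [Derivation.leibniz, Derivation.map_algebraMap, smul_eq_mul]
  ring

/-- base change -/
theorem T_map {K : Type v} [Field K] [Algebra k K] (f : Ω →ₐ[k] K) (x u y v w : Fin 3 → Ω) :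
    f (T a x u y v w) = T a (fun i => f (x i)) (fun i => f (u i)) (fun i => f (y i))
      (fun i => f (v i)) (fun i => f (w i)) := by
  simp only [T, map_sum, map_mul, AlgHom.commutes]

theorem T_mem (E : IntermediateField k Ω) {x u y v w : Fin 3 → Ω} (hx : ∀ i, x i ∈ E)
    (hu : ∀ i, u i ∈ E) (hy : ∀ i, y i ∈ E) (hv : ∀ i, v i ∈ E) (hw : ∀ i, w i ∈ E) :
    T a x u y v w ∈ E := by
  refine sum_mem fun i _ => sum_mem fun j _ => sum_mem fun p _ => sum_mem fun q _ =>
    sum_mem fun r _ => ?_
  exact mul_mem (mul_mem (mul_mem (mul_mem (mul_mem (E.algebraMap_mem _) (hx i)) (hu j)) (hy p))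
    (hv q)) (hw r)

/-- standard basis vectors -/
def e3 (Ω : Type v) [Field Ω] (i : Fin 3) : Fin 3 → Ω := Pi.single i 1

theorem vec_eq (x : Fin 3 → Ω) : x = x 0 • e3 Ω 0 + x 1 • e3 Ω 1 + x 2 • e3 Ω 2 := by
  funext i
  fin_cases i <;> simp [e3]

/-- decomposition of a vector relative to a vector `p` with `p j ≠ 0` -/
theorem decomp (x p : Fin 3 → Ω) (j a' b' : Fin 3) (hja : j ≠ a') (hjb : j ≠ b') (hab : a' ≠ b')
    (hp : p j ≠ 0) :
    x = (x j / p j) • p + (x a' - x j / p j * p a') • e3 Ω a' +
      (x b' - x j / p j * p b') • e3 Ω b' := by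
  have h : ∀ i : Fin 3, i = j ∨ i = a' ∨ i = b' := by
    intro i
    fin_cases j <;> fin_cases a' <;> fin_cases b' <;> fin_cases i <;> simp_all
  funext i
  rcases h i with rfl | rfl | rfl
  · simp only [e3, Pi.add_apply, Pi.smul_apply, smul_eq_mul, Pi.single_eq_of_ne hja,
      Pi.single_eq_of_ne hjb, mul_zero, add_zero]
    rw [div_mul_cancel₀ _ hp]
  · simp only [e3, Pi.add_apply, Pi.smul_apply, smul_eq_mul, Pi.single_eq_same,
      Pi.single_eq_of_ne hab, mul_zero, add_zero, mul_one]
    ring
  · simp only [e3, Pi.add_apply, Pi.smul_apply, smul_eq_mul, Pi.single_eq_same,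
      Pi.single_eq_of_ne hab.symm, mul_zero, add_zero, mul_one]
    ring

/-- for every index there are two others -/
theorem others (j : Fin 3) : ∃ a' b' : Fin 3, j ≠ a' ∧ j ≠ b' ∧ a' ≠ b' := by
  fin_cases j
  · exact ⟨1, 2, by decide, by decide, by decide⟩
  · exact ⟨0, 2, by decide, by decide, by decide⟩
  · exact ⟨0, 1, by decide, by decide, by decide⟩

end Pool.Agent.Y200.CB
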