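import Pool.Agent.Y200.CB.Der
import Pool.Agent.Y200.CB.Ten
import Pool.Agent.H552R3.Tsen.Zero

/-! Generic smoothness of the two fibrations of a smooth hypersurface of bidegree `(2, 3)`. -/

set_option autoImplicit false

namespace Pool.Agent.Y200.CB

open MvPolynomial

universe u v

variable {k : Type u} {Ω : Type v} [Field k] [Field Ω] [Algebra k Ω] {a : Ten k}

/-- smoothness of the hypersurface over `Ω` -/
def Smo (a : Ten k) (Ω : Type v) [Field Ω] [Algebra k Ω] : Prop :=
  ∀ x y : Fin 3 → Ω, x ≠ 0 → y ≠ 0 → (∀ u, T a x u y y y = 0) → (∀ v, T a x x y y v = 0) → False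

theorem der_vec [CharZero k] (x : Fin 3 → Ω) (hx0 : x 0 = 1)
    (hx : AlgebraicIndependent k ![x 1, x 2]) (u : Fin 3 → Ω) :
    ∃ D : Derivation k Ω Ω, u = u 0 • x + fun i => D (x i) := by
  obtain ⟨D, hD⟩ := exists_der ![x 1, x 2] hx ![u 1 - u 0 * x 1, u 2 - u 0 * x 2]
  have h1 : D (x 1) = u 1 - u 0 * x 1 := hD 0
  have h2 : D (x 2) = u 2 - u 0 * x 2 := hD 1
  refine ⟨D, ?_⟩
  funext i
  fin_cases i
  · simp [hx0]
  · simp [h1]
  · simp [h2]

theorem smooth_x [CharZero k] (ha : Sy a) (hS : Smo a Ω) (x : Fin 3 → Ω) (hx0 : x 0 = 1)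
    (hx : AlgebraicIndependent k ![x 1, x 2]) (v : Fin 3 → Ω) (hv : v ≠ 0)
    (h : ∀ u, T a x x v v u = 0) : False := by
  have hΩ : CharZero Ω := charZero_of_injective_algebraMap (algebraMap k Ω).injective
  refine hS x v (fun h0 => ?_) hv (fun u => ?_) h
  · rw [h0] at hx0
    exact zero_ne_one hx0
  · obtain ⟨D, hD⟩ := der_vec x hx0 hx u
    have h1 := T_der a D x x v v v
    rw [h v, map_zero] at h1
    rw [T_s2 ha x x (fun i => D (v i)) v v, T_s3 ha x x v (fun i => D (v i)) v, h,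
      T_s1 ha (fun i => D (x i)) x v v v] at h1
    have h2 : T a x (fun i => D (x i)) v v v = 0 := by
      have h3 : 2 * T a x (fun i => D (x i)) v v v = 0 := by linear_combination -h1
      exact (mul_eq_zero.1 h3).resolve_left two_ne_zero
    rw [hD, T_add2, T_smul2, h2, h v]
    ring

theorem smooth_y [CharZero k] (ha : Sy a) (hS : Smo a Ω) (y : Fin 3 → Ω) (hy0 : y 0 = 1)
    (hy : AlgebraicIndependent k ![y 1, y 2]) (u : Fin 3 → Ω) (hu : u ≠ 0)
    (h : ∀ u', T a u u' y y y = 0) : False := by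
  have hΩ : CharZero Ω := charZero_of_injective_algebraMap (algebraMap k Ω).injective
  refine hS u y hu (fun h0 => ?_) h (fun v => ?_)
  · rw [h0] at hy0
    exact zero_ne_one hy0
  · obtain ⟨D, hD⟩ := der_vec y hy0 hy v
    have h1 := T_der a D u u y y y
    rw [h u, map_zero, T_s1 ha (fun i => D (u i)) u y y y, h,
      T_s2 ha u u (fun i => D (y i)) y y, T_s3 ha u u y (fun i => D (y i)) y] at h1
    have h2 : T a u u y y (fun i => D (y i)) = 0 := by
      have h3 : 3 * T a u u y y (fun i => D (y i)) = 0 := by linear_combination -h1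
      exact (mul_eq_zero.1 h3).resolve_left three_ne_zero
    rw [hD, T_add5, T_smul5, h2, h u]
    ring

/-- the quadratic form in `x` -/
noncomputable def qf (a : Ten k) (y v w : Fin 3 → Ω) : MvPolynomial (Fin 3) Ω :=
  ∑ i, ∑ j, C (∑ p, ∑ q, ∑ r, algebraMap k Ω (a i j p q r) * y p * v q * w r) * X i * X j

theorem eval_qf (y v w x : Fin 3 → Ω) : eval x (qf a y v w) = T a x x y v w := by
  unfold qf T
  simp only [map_sum, map_mul, eval_C, eval_X, Finset.sum_mul]
  refine Finset.sum_congr rfl fun i _ => Finset.sum_congr rfl fun j _ =>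
    Finset.sum_congr rfl fun p _ => Finset.sum_congr rfl fun q _ =>
    Finset.sum_congr rfl fun r _ => by ring

theorem T_zero1 (u y v w : Fin 3 → Ω) : T a 0 u y v w = 0 := by
  simp [T]

/-- no fibre of the conic bundle is the whole plane -/
theorem base_free [IsAlgClosed Ω] (hS : Smo a Ω) (y : Fin 3 → Ω) (hy : y ≠ 0)
    (h : ∀ u u', T a u u' y y y = 0) : False := by
  obtain ⟨j, hj⟩ : ∃ j, y j ≠ 0 := by
    by_contra hcon
    push Not at hcon
    exact hy (funext hcon)
  obtain ⟨a', b', hja, hjb, hab⟩ := others j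
  obtain ⟨x, hx0, hx⟩ := Pool.Agent.H552R3.Tsen.exists_common_zero (ι := Fin 2)
    ![qf a y y (e3 Ω a'), qf a y y (e3 Ω b')] (by
      intro i
      fin_cases i
      · change eval 0 (qf a y y (e3 Ω a')) = 0
        rw [eval_qf, T_zero1]
      · change eval 0 (qf a y y (e3 Ω b')) = 0
        rw [eval_qf, T_zero1]) (by simp)
  have h1 : T a x x y y (e3 Ω a') = 0 := by
    rw [← eval_qf]
    exact hx 0
  have h2 : T a x x y y (e3 Ω b') = 0 := by
    rw [← eval_qf]
    exact hx 1
  refine hS x y hx0 hy (fun u => h x u) (fun v => ?_)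
  rw [decomp v y j a' b' hja hjb hab hj]
  simp only [T_add5, T_smul5, h, h1, h2]
  ring

end Pool.Agent.Y200.CB
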