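import Pool.Agent.Y200.CB.Gen
import Pool.Agent.Y200.QB.Ind

/-! A generic point of the hypersurface. -/

set_option autoImplicit false

namespace Pool.Agent.Y200.CB

open MvPolynomial

universe u v

variable {k : Type u} {Ω : Type v} [Field k] [Field Ω] [Algebra k Ω] {a : Ten k}

/-- a quadratic form over `E` which vanishes at a generic point of the plane is zero -/
theorem nonvan [CharZero Ω] [IsAlgClosed Ω] (ha : Sy a) (hS : Smo a Ω) (E : IntermediateField k Ω)
    (x : Fin 3 → Ω) (hx0 : x 0 = 1) (hx : AlgebraicIndependent E ![x 1, x 2]) (z : Fin 3 → Ω)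
    (hz0 : z ≠ 0) (hz : ∀ i, z i ∈ E) : T a x x z z z ≠ 0 := by
  intro h
  obtain ⟨m, hm⟩ : ∃ m : Fin 3 → Fin 3 → E, ∀ i j, (m i j : Ω) =
      ∑ p, ∑ q, ∑ r, algebraMap k Ω (a i j p q r) * z p * z q * z r := by
    refine ⟨fun i j => ⟨∑ p, ∑ q, ∑ r, algebraMap k Ω (a i j p q r) * z p * z q * z r, ?_⟩,
      fun i j => rfl⟩
    refine sum_mem fun p _ => sum_mem fun q _ => sum_mem fun r _ => ?_
    exact mul_mem (mul_mem (mul_mem (E.algebraMap_mem _) (hz p)) (hz q)) (hz r)
  let P : MvPolynomial (Fin 2) E := ∑ i, ∑ j, C (m i j) * (![1, X 0, X 1] : Fin 3 → _) i *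
    (![1, X 0, X 1] : Fin 3 → MvPolynomial (Fin 2) E) j
  have hPe : ∀ u : Fin 3 → Ω, u 0 = 1 → aeval ![u 1, u 2] P = T a u u z z z := by
    intro u hu
    have h1 : ∀ i, aeval (![u 1, u 2] : Fin 2 → Ω)
        ((![1, X 0, X 1] : Fin 3 → MvPolynomial (Fin 2) E) i) = u i := by
      intro i
      fin_cases i
      · simp [hu]
      · simp
      · simp
    simp only [P, map_sum, map_mul, h1, aeval_C]
    unfold T
    refine Finset.sum_congr rfl fun i _ => Finset.sum_congr rfl fun j _ => ?_
    have h2 : algebraMap E Ω (m i j) = (m i j : Ω) := rfl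
    rw [h2, hm, Finset.sum_mul, Finset.sum_mul]
    refine Finset.sum_congr rfl fun p _ => ?_
    rw [Finset.sum_mul, Finset.sum_mul]
    refine Finset.sum_congr rfl fun q _ => ?_
    rw [Finset.sum_mul, Finset.sum_mul]
    refine Finset.sum_congr rfl fun r _ => by ring
  have hP0 : P = 0 := by
    apply hx.eq_zero_of_aeval_eq_zero
    rw [hPe x hx0, h]
  have hB : ∀ u : Fin 3 → Ω, u 0 = 1 → T a u u z z z = 0 := by
    intro u hu
    rw [← hPe u hu, hP0, map_zero]
  have h00 : T a (e3 Ω 0) (e3 Ω 0) z z z = 0 := hB _ (by simp [e3])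
  have hw : ∀ w : Fin 3 → Ω, w 0 = 0 → T a (e3 Ω 0) w z z z = 0 ∧ T a w w z z z = 0 := by
    intro w hw
    have h1 := hB (e3 Ω 0 + w) (by simp [e3, hw])
    have h2 := hB (e3 Ω 0 + (-1 : Ω) • w) (by simp [e3, hw])
    simp only [T_add1, T_add2, T_smul1, T_smul2, h00, T_s1 ha w (e3 Ω 0)] at h1 h2
    constructor
    · have h3 : 4 * T a (e3 Ω 0) w z z z = 0 := by linear_combination h1 - h2
      exact (mul_eq_zero.1 h3).resolve_left (by norm_num)
    · have h3 : 2 * T a w w z z z = 0 := by linear_combination h1 + h2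
      exact (mul_eq_zero.1 h3).resolve_left (by norm_num)
  have hq : ∀ u : Fin 3 → Ω, T a u u z z z = 0 := by
    intro u
    have h1 : u = u 0 • e3 Ω 0 + (u 1 • e3 Ω 1 + u 2 • e3 Ω 2) := by
      rw [← add_assoc]
      exact vec_eq u
    obtain ⟨h2, h3⟩ := hw (u 1 • e3 Ω 1 + u 2 • e3 Ω 2) (by simp [e3])
    rw [h1]
    generalize u 1 • e3 Ω 1 + u 2 • e3 Ω 2 = w at h2 h3
    simp only [T_add1, T_add2, T_smul1, T_smul2, h00, T_s1 ha w (e3 Ω 0), h2, h3]
    ring
  apply base_free hS z hz0
  intro u u'
  have h1 := hq (u + u')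
  simp only [T_add1, T_add2, hq u, hq u', T_s1 ha u' u] at h1
  have h3 : 2 * T a u u' z z z = 0 := by linear_combination h1
  exact (mul_eq_zero.1 h3).resolve_left (by norm_num)

theorem range_single (t : Ω) : Set.range (![t] : Fin 1 → Ω) = {t} := by
  ext z
  simp [Set.mem_range, eq_comm]

theorem swap2 {s t : Ω} (h : AlgebraicIndependent k ![s, t]) : AlgebraicIndependent k ![t, s] := by
  have h1 : (![t, s] : Fin 2 → Ω) = ![s, t] ∘ (![1, 0] : Fin 2 → Fin 2) := by
    funext i
    fin_cases i <;> rfl
  rw [h1]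
  exact h.comp _ (by decide)

/-- a point of the fibre over a generic point which has one transcendental coordinate is a generic
point of the plane -/
theorem indep_pt [CharZero Ω] [IsAlgClosed Ω] (ha : Sy a) (hS : Smo a Ω)
    (x : Fin 3 → Ω) (hx0 : x 0 = 1) (t : Ω) (ht : AlgebraicIndependent k ![t, x 1, x 2])
    (z : Fin 3 → Ω) (hz0 : z ≠ 0) (hT : T a x x z z z = 0) : ∃ i, z i ∉ cl k {t} := by
  by_contra hcon
  push Not at hcon
  obtain ⟨h1, h2⟩ := QB.indep_split (n := 2) ![t, x 1, x 2] ht
  have h3 : AlgebraicIndependent (cl k {t}) ![x 1, x 2] := by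
    rw [indep_over_cl]
    have h4 : (fun i : Fin 2 => (![t, x 1, x 2] : Fin 3 → Ω) i.succ) = ![x 1, x 2] := by
      funext i
      fin_cases i <;> rfl
    rw [h4] at h2
    exact h2
  exact nonvan ha hS (cl k {t}) x hx0 h3 z hz0 hcon hT

/-- rational points -/
def Rat (E : IntermediateField k Ω) (z : Fin 3 → Ω) : Prop := ∃ c : Ω, c ≠ 0 ∧ ∀ i, c * z i ∈ E

theorem one_mem_cl (S : Set Ω) : (1 : Ω) ∈ cl k S := one_mem _

theorem indep_of_notMem {n : ℕ} {x : Fin n → Ω} (hx : AlgebraicIndependent k x) {t : Ω}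
    (ht : t ∉ cl k (Set.range x)) : AlgebraicIndependent k (Fin.cons t x : Fin (n + 1) → Ω) :=
  (indep_cons_cl x t).2 ⟨hx, ht⟩

/-- a point of the fibre over a generic point `x` which is not rational over `cl (k(x))` is a
generic point of the plane -/
theorem indep_of_not_rat [CharZero Ω] [IsAlgClosed Ω] (ha : Sy a) (hS : Smo a Ω)
    (x : Fin 3 → Ω) (hx0 : x 0 = 1) (hx : AlgebraicIndependent k ![x 1, x 2])
    (z : Fin 3 → Ω) (hz : ¬ Rat (cl k (Set.range ![x 1, x 2])) z) (hT : T a x x z z z = 0) :
    z 0 ≠ 0 ∧ AlgebraicIndependent k ![z 1 / z 0, z 2 / z 0] := by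
  have hscale : ∀ c : Ω, T a x x (c • z) (c • z) (c • z) = 0 := by
    intro c
    rw [T_smul3, T_smul4, T_smul5, hT]
    ring
  by_cases h0 : z 0 = 0
  · exfalso
    by_cases h1 : z 1 = 0
    · by_cases h2 : z 2 = 0
      · apply hz
        refine ⟨1, one_ne_zero, fun i => ?_⟩
        fin_cases i
        · simp [h0]
        · simp [h1]
        · simp [h2]
      · apply hz
        refine ⟨(z 2)⁻¹, inv_ne_zero h2, fun i => ?_⟩
        fin_cases i
        · simp [h0]
        · simp [h1]
        · simp only [Fin.reduceFinMk]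
          rw [inv_mul_cancel₀ h2]
          exact one_mem _
    · have h3 : (z 1)⁻¹ * z 2 ∉ cl k (Set.range ![x 1, x 2]) := by
        intro h4
        apply hz
        refine ⟨(z 1)⁻¹, inv_ne_zero h1, fun i => ?_⟩
        fin_cases i
        · simp [h0]
        · simp only [Fin.mk_one]
          rw [inv_mul_cancel₀ h1]
          exact one_mem _
        · exact h4
      obtain ⟨i, hi⟩ := indep_pt ha hS x hx0 _ (indep_of_notMem hx h3) ((z 1)⁻¹ • z)
        (fun h5 => by
          have h6 := congrFun h5 1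
          simp only [Pi.smul_apply, smul_eq_mul, Pi.zero_apply] at h6
          rw [inv_mul_cancel₀ h1] at h6
          exact one_ne_zero h6) (hscale _)
      apply hi
      fin_cases i
      · simp [h0]
      · simp only [Fin.mk_one, Pi.smul_apply, smul_eq_mul]
        rw [inv_mul_cancel₀ h1]
        exact one_mem _
      · exact subset_cl _ rfl
  · refine ⟨h0, ?_⟩
    have hne : (z 0)⁻¹ • z ≠ 0 := by
      intro h5
      have h6 := congrFun h5 0
      simp only [Pi.smul_apply, smul_eq_mul, Pi.zero_apply] at h6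
      rw [inv_mul_cancel₀ h0] at h6
      exact one_ne_zero h6
    have hdiv : ∀ i, z i / z 0 = (z 0)⁻¹ * z i := fun i => by rw [div_eq_mul_inv, mul_comm]
    by_cases h1 : z 1 / z 0 ∈ cl k (Set.range ![x 1, x 2])
    · have h2 : z 2 / z 0 ∉ cl k (Set.range ![x 1, x 2]) := by
        intro h2
        apply hz
        refine ⟨(z 0)⁻¹, inv_ne_zero h0, fun i => ?_⟩
        fin_cases i
        · simp only [Fin.zero_eta]
          rw [inv_mul_cancel₀ h0]
          exact one_mem _
        · simp only [Fin.mk_one]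
          rw [← hdiv]
          exact h1
        · simp only [Fin.reduceFinMk]
          rw [← hdiv]
          exact h2
      have h3 := indep_of_notMem hx h2
      obtain ⟨i, hi⟩ := indep_pt ha hS x hx0 _ h3 _ hne (hscale _)
      have h4 : z 1 / z 0 ∉ cl k {z 2 / z 0} := by
        fin_cases i
        · exfalso
          apply hi
          simp only [Fin.zero_eta, Pi.smul_apply, smul_eq_mul]
          rw [inv_mul_cancel₀ h0]
          exact one_mem _
        · simp only [Fin.mk_one, Pi.smul_apply, smul_eq_mul] at hi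
          rwa [← hdiv] at hi
        · exfalso
          apply hi
          simp only [Fin.reduceFinMk, Pi.smul_apply, smul_eq_mul]
          rw [← hdiv]
          exact subset_cl _ rfl
      have h5 : AlgebraicIndependent k ![z 2 / z 0] := by
        have h6 := (QB.indep_split (n := 2) ![z 2 / z 0, x 1, x 2] h3).1
        have h7 : (![z 2 / z 0] : Fin 1 → Ω) = fun _ => z 2 / z 0 := by
          funext i
          fin_cases i
          rfl
        rw [h7]
        exact algebraicIndependent_unique_type_iff.2 h6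
      exact indep_of_notMem h5 (by rw [range_single]; exact h4)
    · have h3 := indep_of_notMem hx h1
      obtain ⟨i, hi⟩ := indep_pt ha hS x hx0 _ h3 _ hne (hscale _)
      have h4 : z 2 / z 0 ∉ cl k {z 1 / z 0} := by
        fin_cases i
        · exfalso
          apply hi
          simp only [Fin.zero_eta, Pi.smul_apply, smul_eq_mul]
          rw [inv_mul_cancel₀ h0]
          exact one_mem _
        · exfalso
          apply hi
          simp only [Fin.mk_one, Pi.smul_apply, smul_eq_mul]
          rw [← hdiv]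
          exact subset_cl _ rfl
        · simp only [Fin.reduceFinMk, Pi.smul_apply, smul_eq_mul] at hi
          rwa [← hdiv] at hi
      have h5 : AlgebraicIndependent k ![z 1 / z 0] := by
        have h6 := (QB.indep_split (n := 2) ![z 1 / z 0, x 1, x 2] h3).1
        have h7 : (![z 1 / z 0] : Fin 1 → Ω) = fun _ => z 1 / z 0 := by
          funext i
          fin_cases i
          rfl
        rw [h7]
        exact algebraicIndependent_unique_type_iff.2 h6
      exact swap2 (indep_of_notMem h5 (by rw [range_single]; exact h4))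

end Pool.Agent.Y200.CB
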