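import Pool.Agent.Y200.CB.Fin1

/-! Stereographic coordinates on conics. -/

set_option autoImplicit false

namespace Pool.Agent.Y200.CB

open MvPolynomial

universe u v

variable {k : Type u} {Ω : Type v} [Field k] [Field Ω] [Algebra k Ω] {a : Ten k}

/-- nondegenerate conics -/
def ND (a : Ten k) (y : Fin 3 → Ω) : Prop :=
  ∀ u : Fin 3 → Ω, u ≠ 0 → (∀ u', T a u u' y y y = 0) → False

theorem others_all {j a' b' : Fin 3} (hja : j ≠ a') (hjb : j ≠ b') (hab : a' ≠ b') (i : Fin 3) :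
    i = j ∨ i = a' ∨ i = b' := by
  fin_cases j <;> fin_cases a' <;> fin_cases b' <;> fin_cases i <;> simp_all

theorem iso_plane' (ha : Sy a) {y : Fin 3 → Ω} (hnd : ND a y) {p u : Fin 3 → Ω}
    {j a' b' : Fin 3} (hja : j ≠ a') (hjb : j ≠ b') (hab : a' ≠ b') (hp : p j ≠ 0) (hu : u j = 0)
    (hua : u a' ≠ 0) (h1 : T a p p y y y = 0) (h2 : T a p u y y y = 0) (h3 : T a u u y y y = 0) :
    False := by
  have hdec : ∀ v : Fin 3 → Ω, v = (v j / p j) • p + ((v a' - v j / p j * p a') / u a') • u +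
      (v b' - v j / p j * p b' - (v a' - v j / p j * p a') / u a' * u b') • e3 Ω b' := by
    intro v
    funext i
    rcases others_all hja hjb hab i with rfl | rfl | rfl
    · simp only [e3, Pi.add_apply, Pi.smul_apply, smul_eq_mul, Pi.single_eq_of_ne hjb, hu]
      field_simp
      ring
    · simp only [e3, Pi.add_apply, Pi.smul_apply, smul_eq_mul, Pi.single_eq_of_ne hab]
      field_simp
      ring
    · simp only [e3, Pi.add_apply, Pi.smul_apply, smul_eq_mul, Pi.single_eq_same]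
      ring
  obtain ⟨A, hA⟩ : ∃ A, A = T a p (e3 Ω b') y y y := ⟨_, rfl⟩
  obtain ⟨B, hB⟩ : ∃ B, B = T a u (e3 Ω b') y y y := ⟨_, rfl⟩
  have hort : ∀ l m : Ω, l * A + m * B = 0 → ∀ v, T a (l • p + m • u) v y y y = 0 := by
    intro l m hlm v
    rw [hdec v]
    simp only [T_add1, T_add2, T_smul1, T_smul2]
    rw [h1, h2, h3, T_s1 ha u p, h2, ← hA, ← hB]
    linear_combination (v b' - v j / p j * p b' - (v a' - v j / p j * p a') / u a' * u b') * hlm
  by_cases hAB : A = 0 ∧ B = 0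
  · refine hnd ((1 : Ω) • p + (0 : Ω) • u) (fun h0 => ?_) (hort 1 0 (by rw [hAB.1]; ring))
    have := congrFun h0 j
    simp [hu] at this
    exact hp this
  · refine hnd (B • p + (-A) • u) (fun h0 => ?_) (hort B (-A) (by ring))
    have e0 := congrFun h0 j
    have e1 := congrFun h0 a'
    simp only [Pi.add_apply, Pi.smul_apply, smul_eq_mul, hu, Pi.zero_apply,
      mul_zero, add_zero] at e0 e1
    have hB0 : B = 0 := (mul_eq_zero.1 e0).resolve_right hp
    rw [hB0, zero_mul, zero_add] at e1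
    have hA0 : A = 0 := neg_eq_zero.1 ((mul_eq_zero.1 e1).resolve_right hua)
    exact hAB ⟨hA0, hB0⟩

theorem iso_plane (ha : Sy a) {y : Fin 3 → Ω} (hnd : ND a y) {p u : Fin 3 → Ω}
    {j : Fin 3} (hp : p j ≠ 0) (hu : u j = 0) (hu0 : u ≠ 0)
    (h1 : T a p p y y y = 0) (h2 : T a p u y y y = 0) (h3 : T a u u y y y = 0) : False := by
  obtain ⟨a', b', hja, hjb, hab⟩ := others j
  by_cases hua : u a' = 0
  · have hub : u b' ≠ 0 := by
      intro hub
      apply hu0
      funext i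
      rcases others_all hja hjb hab i with rfl | rfl | rfl
      · exact hu
      · exact hua
      · exact hub
    exact iso_plane' ha hnd hjb hja hab.symm hp hu hub h1 h2 h3
  · exact iso_plane' ha hnd hja hjb hab hp hu hua h1 h2 h3

variable [CharZero Ω]

theorem on_line (ha : Sy a) {y : Fin 3 → Ω} (hnd : ND a y) (F : IntermediateField k Ω)
    (hyF : ∀ i, y i ∈ F) {p u q : Fin 3 → Ω} (hpF : ∀ i, p i ∈ F) (huF : ∀ i, u i ∈ F)
    {j : Fin 3} (hp : p j ≠ 0) (hu : u j = 0) (hu0 : u ≠ 0) {c δ : Ω} (hδ : δ ≠ 0)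
    (hq : q = c • p + δ • u) (hq0 : q 0 = 1) (h1 : T a p p y y y = 0) (h2 : T a q q y y y = 0)
    (i : Fin 3) : q i ∈ F := by
  obtain ⟨A, hA⟩ : ∃ A, A = T a p u y y y := ⟨_, rfl⟩
  obtain ⟨B, hB⟩ : ∃ B, B = T a u u y y y := ⟨_, rfl⟩
  have hAF : A ∈ F := by rw [hA]; exact T_mem a F hpF huF hyF hyF hyF
  have hBF : B ∈ F := by rw [hB]; exact T_mem a F huF huF hyF hyF hyF
  have h3 : 2 * c * A + δ * B = 0 := by
    rw [hq] at h2
    simp only [T_add1, T_add2, T_smul1, T_smul2, h1, T_s1 ha u p, ← hA, ← hB] at h2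
    have h4 : δ * (2 * c * A + δ * B) = 0 := by linear_combination h2
    exact (mul_eq_zero.1 h4).resolve_left hδ
  have hA0 : A ≠ 0 := by
    intro hA0
    rw [hA0, mul_zero, zero_add] at h3
    have hB0 : B = 0 := (mul_eq_zero.1 h3).resolve_left hδ
    exact iso_plane ha hnd hp hu hu0 h1 (by rw [← hA, hA0]) (by rw [← hB, hB0])
  have hmul : ∀ i, 2 * A * q i = -δ * (B * p i - 2 * A * u i) := by
    intro i
    rw [hq]
    simp only [Pi.add_apply, Pi.smul_apply, smul_eq_mul]
    linear_combination (p i) * h3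
  have h2A : 2 * A ≠ 0 := mul_ne_zero two_ne_zero hA0
  have h0 := hmul 0
  rw [hq0, mul_one] at h0
  have hg0 : B * p 0 - 2 * A * u 0 ≠ 0 := by
    intro hg
    rw [hg, mul_zero] at h0
    exact h2A h0
  have hgF : ∀ i, B * p i - 2 * A * u i ∈ F := fun i =>
    sub_mem (mul_mem hBF (hpF i)) (mul_mem (mul_mem (ofNat_mem _ 2) hAF) (huF i))
  have hqi : q i = (B * p i - 2 * A * u i) / (B * p 0 - 2 * A * u 0) := by
    rw [eq_div_iff hg0]
    have h5 := hmul i
    have h6 : 2 * A * (q i * (B * p 0 - 2 * A * u 0) - (B * p i - 2 * A * u i)) = 0 := by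
      linear_combination (B * p 0 - 2 * A * u 0) * h5 - (B * p i - 2 * A * u i) * h0
    have h7 := (mul_eq_zero.1 h6).resolve_left h2A
    linear_combination h7
  rw [hqi]
  exact div_mem (hgF i) (hgF 0)

/-- the stereographic coordinate of a point of a nondegenerate conic with a rational point -/
theorem stereo (ha : Sy a) {y : Fin 3 → Ω} (hnd : ND a y) (E : IntermediateField k Ω)
    (hyE : ∀ i, y i ∈ E) {p q : Fin 3 → Ω} (hpE : ∀ i, p i ∈ E) (hp0 : p ≠ 0)
    (hpT : T a p p y y y = 0) (hq0 : q 0 = 1) (hqT : T a q q y y y = 0) (hqE : ∃ i, q i ∉ E) :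
    ∃ s : Ω, ∀ F : IntermediateField k Ω, E ≤ F → (s ∈ F ↔ ∀ i, q i ∈ F) := by
  obtain ⟨j, hj⟩ : ∃ j, p j ≠ 0 := by
    by_contra hcon
    push Not at hcon
    exact hp0 (funext hcon)
  obtain ⟨a', b', hja, hjb, hab⟩ := others j
  have hdec := decomp q p j a' b' hja hjb hab hj
  obtain ⟨c, hc⟩ : ∃ c, c = q j / p j := ⟨_, rfl⟩
  obtain ⟨α, hα⟩ : ∃ α, α = q a' - q j / p j * p a' := ⟨_, rfl⟩
  obtain ⟨β, hβ⟩ : ∃ β, β = q b' - q j / p j * p b' := ⟨_, rfl⟩
  rw [← hc] at hdec
  rw [hc, ← hα, ← hβ, ← hc] at hdec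
  have hmemE : ∀ (F : IntermediateField k Ω) (i i' : Fin 3), e3 Ω i i' ∈ F := fun F i i' =>
    e3_mem F i i'
  by_cases hβ0 : β = 0
  · exfalso
    obtain ⟨i, hi⟩ := hqE
    apply hi
    rw [hβ0, zero_smul, add_zero] at hdec
    by_cases hα0 : α = 0
    · rw [hα0, zero_smul, add_zero] at hdec
      have h0 : c * p 0 = 1 := by
        rw [← hq0]
        conv_rhs => rw [hdec]
        rfl
      have hp00 : p 0 ≠ 0 := by
        intro h
        rw [h, mul_zero] at h0
        exact zero_ne_one h0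
      have hi2 : q i = p i / p 0 := by
        rw [eq_div_iff hp00]
        conv_lhs => rw [hdec]
        simp only [Pi.smul_apply, smul_eq_mul]
        linear_combination (p i) * h0
      rw [hi2]
      exact div_mem (hpE i) (hpE 0)
    · refine on_line ha hnd E hyE hpE (hmemE E a') hj ?_ ?_ hα0 hdec hq0 hpT hqT i
      · simp [e3, Pi.single_eq_of_ne hja]
      · intro h
        have := congrFun h a'
        simp [e3] at this
  · refine ⟨α / β, fun F hEF => ⟨fun hs => ?_, fun hqF => ?_⟩⟩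
    · have hu : α • e3 Ω a' + β • e3 Ω b' = β • ((α / β) • e3 Ω a' + e3 Ω b') := by
        rw [smul_add, smul_smul, mul_div_cancel₀ _ hβ0]
      rw [add_assoc, hu] at hdec
      refine fun i => on_line ha hnd F (fun i => hEF (hyE i)) (fun i => hEF (hpE i))
        (fun i => ?_) hj ?_ ?_ hβ0 hdec hq0 hpT hqT i
      · simp only [Pi.add_apply, Pi.smul_apply, smul_eq_mul]
        exact add_mem (mul_mem hs (hmemE F a' i)) (hmemE F b' i)
      · simp [e3, Pi.single_eq_of_ne hja, Pi.single_eq_of_ne hjb]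
      · intro h
        have := congrFun h b'
        simp [e3, Pi.single_eq_of_ne hab.symm] at this
    · have hcF : q j / p j ∈ F := div_mem (hqF j) (hEF (hpE j))
      rw [hα, hβ]
      exact div_mem (sub_mem (hqF a') (mul_mem hcF (hEF (hpE a'))))
        (sub_mem (hqF b') (mul_mem hcF (hEF (hpE b'))))

end Pool.Agent.Y200.CB
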