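import Pool.Agent.Y200.CB.Pt

/-! The tangential point of a generic point. -/

set_option autoImplicit false

namespace Pool.Agent.Y200.CB

open MvPolynomial

universe u v

variable {k : Type u} {Ω : Type v} [Field k] [Field Ω] [Algebra k Ω] {a : Ten k}

/-- a generic point of the hypersurface -/
structure GP (a : Ten k) (x y : Fin 3 → Ω) : Prop where
  hx0 : x 0 = 1
  hy0 : y 0 = 1
  hT : T a x x y y y = 0
  hind : AlgebraicIndependent k ![y 1, x 1, x 2]
  hy2 : y 2 ∈ cl k (Set.range ![y 1, x 1, x 2])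

theorem GP.hx {x y : Fin 3 → Ω} (h : GP a x y) : AlgebraicIndependent k ![x 1, x 2] :=
  ((indep_cons_cl ![x 1, x 2] (y 1)).1 h.hind).1

theorem GP.hy1 {x y : Fin 3 → Ω} (h : GP a x y) : y 1 ∉ cl k (Set.range ![x 1, x 2]) :=
  ((indep_cons_cl ![x 1, x 2] (y 1)).1 h.hind).2

theorem exists_gp [CharZero Ω] [IsAlgClosed Ω] (ha : Sy a) (hS : Smo a Ω) (t x1 x2 : Ω)
    (ht : AlgebraicIndependent k ![t, x1, x2]) :
    ∃ y : Fin 3 → Ω, y 1 = t ∧ GP a ![1, x1, x2] y := by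
  obtain ⟨x, hx⟩ : ∃ x : Fin 3 → Ω, x = ![1, x1, x2] := ⟨_, rfl⟩
  have hx0 : x 0 = 1 := by rw [hx]; rfl
  have hx1 : x 1 = x1 := by rw [hx]; rfl
  have hx2 : x 2 = x2 := by rw [hx]; rfl
  have hc3 : T a x x (e3 Ω 2) (e3 Ω 2) (e3 Ω 2) ≠ 0 := by
    intro h
    obtain ⟨i, hi⟩ := indep_pt ha hS x hx0 t (by rw [hx1, hx2]; exact ht) (e3 Ω 2)
      (fun h0 => by
        have h1 := congrFun h0 2
        simp [e3] at h1) h
    apply hi
    unfold e3
    by_cases h2 : i = 2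
    · rw [h2, Pi.single_eq_same]
      exact one_mem _
    · rw [Pi.single_eq_of_ne h2]
      exact zero_mem _
  let v : Fin 3 → Ω := ![1, t, 0]
  let E := cl k (Set.range ![t, x1, x2])
  have htE : t ∈ E := subset_cl _ ⟨0, rfl⟩
  have hx1E : x1 ∈ E := subset_cl _ ⟨1, rfl⟩
  have hx2E : x2 ∈ E := subset_cl _ ⟨2, rfl⟩
  have hxE : ∀ i, x i ∈ E := by
    intro i
    fin_cases i
    · simp only [Fin.zero_eta]
      rw [hx0]
      exact one_mem _
    · simp only [Fin.mk_one]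
      rw [hx1]
      exact hx1E
    · simp only [Fin.reduceFinMk]
      rw [hx2]
      exact hx2E
  have hvE : ∀ i, v i ∈ E := by
    intro i
    fin_cases i
    · exact one_mem _
    · exact htE
    · exact zero_mem _
  have heE : ∀ i, e3 Ω 2 i ∈ E := by
    intro i
    unfold e3
    by_cases h2 : i = 2
    · rw [h2, Pi.single_eq_same]
      exact one_mem _
    · rw [Pi.single_eq_of_ne h2]
      exact zero_mem _
  let c3 : E := ⟨T a x x (e3 Ω 2) (e3 Ω 2) (e3 Ω 2), T_mem a E hxE hxE heE heE heE⟩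
  let c2 : E := ⟨T a x x v (e3 Ω 2) (e3 Ω 2), T_mem a E hxE hxE hvE heE heE⟩
  let c1 : E := ⟨T a x x v v (e3 Ω 2), T_mem a E hxE hxE hvE hvE heE⟩
  let c0 : E := ⟨T a x x v v v, T_mem a E hxE hxE hvE hvE hvE⟩
  let p : Polynomial E := Polynomial.C c3 * Polynomial.X ^ 3 + Polynomial.C (3 * c2) *
    Polynomial.X ^ 2 + Polynomial.C (3 * c1) * Polynomial.X + Polynomial.C c0
  have hc3' : c3 ≠ 0 := fun h => hc3 (congrArg Subtype.val h)
  have hdeg : p.degree = 3 := Polynomial.degree_cubic hc3'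
  have hp0 : p ≠ 0 := by
    intro h
    rw [h, Polynomial.degree_zero] at hdeg
    exact absurd hdeg (by decide)
  obtain ⟨β, hβ⟩ := IsAlgClosed.exists_aeval_eq_zero Ω p (by rw [hdeg]; decide)
  have hβ' : T a x x (v + β • e3 Ω 2) (v + β • e3 Ω 2) (v + β • e3 Ω 2) = 0 := by
    have h1 : Polynomial.aeval β p = T a x x (e3 Ω 2) (e3 Ω 2) (e3 Ω 2) * β ^ 3 +
        3 * T a x x v (e3 Ω 2) (e3 Ω 2) * β ^ 2 + 3 * T a x x v v (e3 Ω 2) * β +
        T a x x v v v := by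
      simp only [p, map_add, map_mul, map_pow, Polynomial.aeval_X, Polynomial.aeval_C, map_ofNat]
      rfl
    rw [h1] at hβ
    simp only [T_add3, T_add4, T_add5, T_smul3, T_smul4, T_smul5]
    rw [T_s2 ha x x (e3 Ω 2) v v, T_s3 ha x x v (e3 Ω 2) v, T_s3 ha x x (e3 Ω 2) (e3 Ω 2) v,
      T_s2 ha x x (e3 Ω 2) v (e3 Ω 2)]
    linear_combination hβ
  have hv0 : (v + β • e3 Ω 2) 0 = 1 := by simp [v, e3]
  have hv1 : (v + β • e3 Ω 2) 1 = t := by simp [v, e3]
  have hv2 : (v + β • e3 Ω 2) 2 = β := by simp [v, e3]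
  refine ⟨v + β • e3 Ω 2, hv1, ?_⟩
  rw [← hx]
  refine ⟨hx0, hv0, hβ', ?_, ?_⟩
  · rw [hv1, hx1, hx2]
    exact ht
  · rw [hv1, hv2, hx1, hx2]
    exact mem_cl_of_isAlgebraic ⟨p, hp0, hβ⟩

theorem GP.hy [CharZero Ω] [IsAlgClosed Ω] (ha : Sy a) (hS : Smo a Ω) {x y : Fin 3 → Ω}
    (h : GP a x y) : AlgebraicIndependent k ![y 1, y 2] := by
  have h1 := indep_of_not_rat ha hS x h.hx0 h.hx y (by
    rintro ⟨c, hc, hci⟩
    have h0 := hci 0
    rw [h.hy0, mul_one] at h0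
    apply h.hy1
    have h1 := div_mem (hci 1) h0
    rwa [mul_div_cancel_left₀ _ hc] at h1) h.hT
  rw [h.hy0, div_one, div_one] at h1
  exact h1.2

theorem GP.hxM [CharZero Ω] [IsAlgClosed Ω] {x y : Fin 3 → Ω}
    (h : GP a x y) : ∃ i, i ≠ 0 ∧ x i ∉ cl k (Set.range ![y 1, y 2]) := by
  by_contra hcon
  push Not at hcon
  refine not_indep_of_rank (k := k) ![y 1, x 1, x 2] ![y 1, y 2, y 1] h.hind ?_
    (i := 0) (j := 2) (by decide) rfl
  have hle : cl k (Set.range ![y 1, y 2]) ≤ cl k (Set.range ![y 1, y 2, y 1]) := by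
    apply cl_le_cl
    rintro _ ⟨i, rfl⟩
    fin_cases i
    · exact subset_cl _ ⟨0, rfl⟩
    · exact subset_cl _ ⟨1, rfl⟩
  intro i
  fin_cases i
  · exact subset_cl _ ⟨0, rfl⟩
  · exact hle (hcon 1 (by decide))
  · exact hle (hcon 2 (by decide))

/-- the tangent direction -/
noncomputable def tv (a : Ten k) (x y : Fin 3 → Ω) : Fin 3 → Ω :=
  T a x x y y (e3 Ω 2) • e3 Ω 1 + (-T a x x y y (e3 Ω 1)) • e3 Ω 2

/-- the tangential point -/
noncomputable def tp (a : Ten k) (x y : Fin 3 → Ω) : Fin 3 → Ω :=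
  T a x x (tv a x y) (tv a x y) (tv a x y) • y +
    (-(3 * T a x x y (tv a x y) (tv a x y))) • tv a x y

theorem tv_zero (x y : Fin 3 → Ω) : tv a x y 0 = 0 := by
  simp [tv, e3]

theorem T_tv (x y : Fin 3 → Ω) : T a x x y y (tv a x y) = 0 := by
  simp only [tv, T_add5, T_smul5]
  ring

theorem T_tp (ha : Sy a) (x y : Fin 3 → Ω) (h : T a x x y y y = 0) :
    T a x x (tp a x y) (tp a x y) (tp a x y) = 0 := by
  obtain ⟨w, hw⟩ : ∃ w, w = tv a x y := ⟨_, rfl⟩
  have h1 : T a x x y y w = 0 := by rw [hw]; exact T_tv x y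
  unfold tp
  rw [← hw]
  generalize hα : T a x x w w w = α
  generalize hβ : -(3 * T a x x y w w) = β
  simp only [T_add3, T_add4, T_add5, T_smul3, T_smul4, T_smul5]
  rw [T_s2 ha x x w y y, T_s3 ha x x y w y, T_s3 ha x x w w y, T_s2 ha x x w y w, h, h1, hα]
  linear_combination (-α * β ^ 2) * hβ

theorem T_tp' (x y : Fin 3 → Ω) (h : T a x x y y y = 0) : T a x x y y (tp a x y) = 0 := by
  simp only [tp, T_add5, T_smul5, T_tv, h]
  ring

variable [CharZero k] [CharZero Ω] [IsAlgClosed Ω]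

/-- the derivation along the cubic -/
structure DD (a : Ten k) (x y : Fin 3 → Ω) (D : Derivation k Ω Ω) : Prop where
  d1 : D (y 1) = 1
  dx : (fun i => D (x i)) = 0
  g2 : T a x x y y (e3 Ω 2) ≠ 0
  dy : tv a x y = T a x x y y (e3 Ω 2) • fun i => D (y i)
  t1 : T a x x y y (fun i => D (y i)) = 0

omit [CharZero Ω] [IsAlgClosed Ω] in
theorem exists_dd (ha : Sy a) (hS : Smo a Ω) {x y : Fin 3 → Ω} (h : GP a x y) :
    ∃ D : Derivation k Ω Ω, DD a x y D := by
  have hΩ : CharZero Ω := charZero_of_injective_algebraMap (algebraMap k Ω).injective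
  obtain ⟨D, hD⟩ := exists_der _ h.hind ![1, 0, 0]
  have h1 : D (y 1) = 1 := hD 0
  have hx1 : D (x 1) = 0 := hD 1
  have hx2 : D (x 2) = 0 := hD 2
  have hdx : (fun i => D (x i)) = 0 := by
    funext i
    fin_cases i
    · simp [h.hx0]
    · simp [hx1]
    · simp [hx2]
  have hy' : (fun i => D (y i)) = e3 Ω 1 + D (y 2) • e3 Ω 2 := by
    funext i
    fin_cases i
    · simp [h.hy0, e3]
    · simp [h1, e3]
    · simp [e3]
  have ht := T_der a D x x y y y
  have hT0 : ∀ u y v w : Fin 3 → Ω, T a u 0 y v w = 0 := by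
    intro u y v w
    rw [T_s1 ha, T_zero1]
  rw [h.hT, map_zero, hdx, T_zero1, hT0, T_s2 ha x x (fun i => D (y i)) y y,
    T_s3 ha x x y (fun i => D (y i)) y] at ht
  have ht1 : T a x x y y (fun i => D (y i)) = 0 := by
    have h3 : 3 * T a x x y y (fun i => D (y i)) = 0 := by linear_combination -ht
    exact (mul_eq_zero.1 h3).resolve_left three_ne_zero
  have ht2 : T a x x y y (e3 Ω 1) + D (y 2) * T a x x y y (e3 Ω 2) = 0 := by
    rw [hy', T_add5, T_smul5] at ht1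
    exact ht1
  have hg2 : T a x x y y (e3 Ω 2) ≠ 0 := by
    intro hg
    have hg1 : T a x x y y (e3 Ω 1) = 0 := by
      rw [hg, mul_zero, add_zero] at ht2
      exact ht2
    have hg0 : T a x x y y (e3 Ω 0) = 0 := by
      have h3 := h.hT
      rw [vec_eq y] at h3
      conv at h3 =>
        lhs
        rw [T_add5, T_add5, T_smul5, T_smul5, T_smul5]
      rw [← vec_eq y, hg, hg1, h.hy0] at h3
      linear_combination h3
    refine smooth_x ha hS x h.hx0 h.hx y (fun h0 => ?_) (fun u => ?_)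
    · have h3 := h.hy0
      rw [h0] at h3
      exact zero_ne_one h3
    · rw [vec_eq u]
      simp only [T_add5, T_smul5, hg, hg1, hg0]
      ring
  refine ⟨D, h1, hdx, hg2, ?_, ht1⟩
  rw [hy', smul_add, smul_smul]
  unfold tv
  congr 2
  linear_combination -ht2

/-- a smooth cubic does not contain a line -/
theorem no_line (ha : Sy a) (hS : Smo a Ω) {x : Fin 3 → Ω} (hx0 : x 0 = 1)
    (hx : AlgebraicIndependent k ![x 1, x 2]) (c c' : Ω)
    (h1 : T a x x ![1, 0, c'] ![1, 0, c'] ![1, 0, c'] = 0)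
    (h2 : T a x x ![1, 0, c'] ![1, 0, c'] ![0, 1, c] = 0)
    (h3 : T a x x ![1, 0, c'] ![0, 1, c] ![0, 1, c] = 0)
    (h4 : T a x x ![0, 1, c] ![0, 1, c] ![0, 1, c] = 0) : False := by
  obtain ⟨p, hp⟩ : ∃ p : Fin 3 → Ω, p = ![1, 0, c'] := ⟨_, rfl⟩
  obtain ⟨q, hq⟩ : ∃ q : Fin 3 → Ω, q = ![0, 1, c] := ⟨_, rfl⟩
  rw [← hp] at h1
  rw [← hp, ← hq] at h2 h3
  rw [← hq] at h4
  have hspan : ∀ u : Fin 3 → Ω, u = u 0 • p + u 1 • q + (u 2 - u 0 * c' - u 1 * c) • e3 Ω 2 := by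
    intro u
    rw [hp, hq]
    funext i
    fin_cases i
    · simp [e3]
    · simp [e3]
    · simp [e3]
  -- a zero of a binary quadratic form
  have hbin : ∀ A B C : Ω, ∃ l m : Ω, (l ≠ 0 ∨ m ≠ 0) ∧
      l ^ 2 * A + 2 * (l * m) * B + m ^ 2 * C = 0 := by
    intro A B C
    by_cases hA : A = 0
    · exact ⟨1, 0, Or.inl one_ne_zero, by rw [hA]; ring⟩
    · obtain ⟨r, hr⟩ := IsAlgClosed.exists_pow_nat_eq (B ^ 2 - A * C) (n := 2) two_pos
      refine ⟨(r - B) / A, 1, Or.inr one_ne_zero, ?_⟩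
      field_simp
      linear_combination hr
  obtain ⟨l, m, hlm, hz⟩ := hbin (T a x x p p (e3 Ω 2)) (T a x x p q (e3 Ω 2))
    (T a x x q q (e3 Ω 2))
  refine smooth_x ha hS x hx0 hx (l • p + m • q) (fun h0 => ?_) (fun u => ?_)
  · have e0 := congrFun h0 0
    have e1 := congrFun h0 1
    rw [hp, hq] at e0 e1
    simp at e0 e1
    rcases hlm with h | h
    · exact h e0
    · exact h e1
  · rw [hspan u]
    simp only [T_add3, T_add4, T_add5, T_smul3, T_smul4, T_smul5]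
    rw [T_s3 ha x x p q p, T_s2 ha x x q p p, T_s3 ha x x p q p, T_s3 ha x x q q p,
      T_s2 ha x x q p q, T_s2 ha x x q p (e3 Ω 2), h1, h2, h3, h4]
    linear_combination (u 2 - u 0 * c' - u 1 * c) * hz

end Pool.Agent.Y200.CB
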