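import Pool.Agent.Y200.CB.Ste
import Pool.Agent.H552R3.Tsen.C1

/-! Points of conics over `K0(v)`; further auxiliary facts. -/

set_option autoImplicit false

namespace Pool.Agent.Y200.CB

open MvPolynomial

universe u v

variable {k : Type u} {Ω : Type v} [Field k] [Field Ω] [Algebra k Ω] {a : Ten k}

theorem exch_mem {n : ℕ} (u w : Fin n → Ω) (hu : AlgebraicIndependent k u)
    (h : ∀ i, u i ∈ cl k (Set.range w)) {z : Ω} (hz : z ∈ cl k (Set.range w)) :
    z ∈ cl k (Set.range u) := by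
  by_contra hz'
  have h1 := indep_of_notMem hu hz'
  cases n with
  | zero =>
    apply hz'
    have h2 : Set.range w = Set.range u := by
      rw [Set.range_eq_empty, Set.range_eq_empty]
    rwa [h2] at hz
  | succ n =>
    have hle : cl k (Set.range w) ≤ cl k (Set.range (Fin.cons (w 0) w : Fin (n + 2) → Ω)) := by
      apply cl_le_cl
      rintro _ ⟨i, rfl⟩
      exact subset_cl _ ⟨i.succ, by simp⟩
    refine not_indep_of_rank (k := k) (Fin.cons z u : Fin (n + 2) → Ω)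
      (Fin.cons (w 0) w : Fin (n + 2) → Ω) h1 (fun i => ?_) (i := 0) (j := 1)
      (by simp) (by
        have : (1 : Fin (n + 2)) = Fin.succ 0 := rfl
        rw [this, Fin.cons_succ, Fin.cons_zero])
    refine Fin.cases ?_ (fun j => ?_) i
    · rw [Fin.cons_zero]
      exact hle hz
    · rw [Fin.cons_succ]
      exact hle (h j)

theorem root2 {S : Set Ω} {c0 c1 c2 z : Ω} (h0 : c0 ∈ cl k S) (h1 : c1 ∈ cl k S)
    (h2 : c2 ∈ cl k S) (hc : c2 ≠ 0) (h : c2 * z ^ 2 + c1 * z + c0 = 0) : z ∈ cl k S := by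
  by_contra hz
  obtain ⟨_, _, h3, _⟩ := cubic_zero (c3 := 0) h0 h1 h2 (zero_mem _) hz (by linear_combination h)
  exact hc h3

theorem tp_mem (F : IntermediateField k Ω) {x y : Fin 3 → Ω} (hx : ∀ i, x i ∈ F)
    (hy : ∀ i, y i ∈ F) (i : Fin 3) : tp a x y i ∈ F := by
  have hw : ∀ i, tv a x y i ∈ F := by
    intro i
    unfold tv
    simp only [Pi.add_apply, Pi.smul_apply, smul_eq_mul]
    exact add_mem (mul_mem (T_mem a F hx hx hy hy (e3_mem F 2)) (e3_mem F 1 i))
      (mul_mem (neg_mem (T_mem a F hx hx hy hy (e3_mem F 1))) (e3_mem F 2 i))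
  unfold tp
  simp only [Pi.add_apply, Pi.smul_apply, smul_eq_mul]
  exact add_mem (mul_mem (T_mem a F hx hx hw hw hw) (hy i))
    (mul_mem (neg_mem (mul_mem (ofNat_mem _ 3) (T_mem a F hx hx hy hw hw))) (hw i))

/-- Tsen's theorem for the conics of the bundle -/
theorem tsen_conic [IsAlgClosed Ω] (S : Set Ω) (v : Ω) (hv : v ∉ cl k S) (y : Fin 3 → Ω)
    (hy : ∀ i, y i ∈ IntermediateField.adjoin (cl k S) {v}) :
    ∃ p : Fin 3 → Ω, p ≠ 0 ∧ (∀ i, p i ∈ IntermediateField.adjoin (cl k S) {v}) ∧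
      T a p p y y y = 0 := by
  let F := IntermediateField.adjoin (cl k S) {v}
  have hg : Transcendental (cl k S) v := fun h => hv (mem_cl_of_isAlgebraic h)
  let v' : F := ⟨v, IntermediateField.subset_adjoin _ _ rfl⟩
  have hv' : Transcendental (cl k S) v' := by
    intro h
    apply hg
    have h1 := h.algebraMap (A := Ω)
    exact h1
  have hae : ∀ p : Polynomial (cl k S), ((Polynomial.aeval v' p : F) : Ω) =
      Polynomial.aeval v p := by
    intro p
    exact (Polynomial.aeval_algebraMap_apply Ω v' p).symm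
  let y' : Fin 3 → F := fun i => ⟨y i, hy i⟩
  let Ψ : MvPolynomial (Fin 3) F := ∑ i, ∑ j, C (∑ p, ∑ q, ∑ r,
    algebraMap k F (a i j p q r) * y' p * y' q * y' r) * (X i * X j)
  obtain ⟨p, hp0, hp⟩ := Pool.Agent.H552R3.Tsen.exists_zero (J := Unit) v' (fun _ => 1) hv'
    (by
      intro z
      obtain ⟨r, s, hz⟩ := (IntermediateField.mem_adjoin_simple_iff (cl k S) (z : Ω)).1 z.2
      by_cases hs : Polynomial.aeval v s = 0
      · refine ⟨1, one_ne_zero, fun _ => 0, ?_⟩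
        have h1 : z = 0 := by
          apply Subtype.val_injective
          rw [hz, hs, div_zero]
          rfl
        simp [h1]
      · refine ⟨s, ?_, fun _ => r, ?_⟩
        · rintro rfl
          exact hs (by simp)
        · apply Subtype.val_injective
          rw [Fintype.sum_unique, mul_one]
          change (((Polynomial.aeval v' s : F) : Ω)) * (z : Ω) = ((Polynomial.aeval v' r : F) : Ω)
          rw [hae, hae, hz, mul_div_cancel₀ _ hs])
    (by
      intro p hp j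
      by_contra hne
      apply hv'
      refine ⟨p (), ?_, ?_⟩
      · exact hne
      · simpa using hp) Ψ 2
    (by
      refine totalDegree_finsetSum_le fun i _ => totalDegree_finsetSum_le fun j _ => ?_
      refine (totalDegree_mul _ _).trans ?_
      rw [totalDegree_C]
      refine (Nat.add_le_add_left (totalDegree_mul _ _) _).trans ?_
      rw [totalDegree_X, totalDegree_X])
    (by simp [Ψ]) (by simp)
  refine ⟨fun i => (p i : Ω), fun h => hp0 (funext fun i => ?_), fun i => (p i).2, ?_⟩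
  · apply Subtype.val_injective
    exact congrFun h i
  · have h1 : ((eval p Ψ : F) : Ω) = 0 := by
      rw [hp]
      rfl
    rw [← h1]
    simp only [Ψ, map_sum, map_mul, eval_C, eval_X]
    have h3 : ∀ z : F, (z : Ω) = F.val z := fun z => rfl
    rw [h3]
    simp only [map_sum, map_mul]
    unfold T
    refine Finset.sum_congr rfl fun i _ => Finset.sum_congr rfl fun j _ => ?_
    rw [Finset.sum_mul]
    refine Finset.sum_congr rfl fun p' _ => ?_
    rw [Finset.sum_mul]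
    refine Finset.sum_congr rfl fun q _ => ?_
    rw [Finset.sum_mul]
    refine Finset.sum_congr rfl fun r _ => ?_
    have h4 : F.val (algebraMap k F (a i j p' q r)) = algebraMap k Ω (a i j p' q r) := rfl
    have h5 : ∀ i, F.val (y' i) = y i := fun i => rfl
    have h6 : ∀ i, F.val (p i) = (p i : Ω) := fun i => rfl
    rw [h4, h5, h5, h5, h6, h6]
    ring

variable [CharZero k] [CharZero Ω] [IsAlgClosed Ω]

/-- the form is not linear in the last coordinate of the first factor -/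
theorem lead_ne (ha : Sy a) (hS : Smo a Ω) (ζ : Fin 3 → Ω) (hζ0 : ζ 0 = 1)
    (hζ : AlgebraicIndependent k ![ζ 1, ζ 2]) : T a (e3 Ω 2) (e3 Ω 2) ζ ζ ζ ≠ 0 := by
  intro h
  have hDe : ∀ (D : Derivation k Ω Ω) (i : Fin 3), (fun j => D (e3 Ω i j)) = 0 := by
    intro D i
    funext j
    unfold e3
    by_cases h2 : j = i
    · rw [h2, Pi.single_eq_same]
      simp
    · rw [Pi.single_eq_of_ne h2]
      simp
  have h1 : ∀ v, T a (e3 Ω 2) (e3 Ω 2) ζ ζ v = 0 := by
    intro v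
    obtain ⟨D, hD⟩ := der_vec ζ hζ0 hζ v
    have h2 := T_der a D (e3 Ω 2) (e3 Ω 2) ζ ζ ζ
    rw [h, map_zero, hDe, T_zero1, T_zero2, T_s2 ha _ _ (fun i => D (ζ i)) ζ ζ,
      T_s3 ha _ _ ζ (fun i => D (ζ i)) ζ] at h2
    have h3 : 3 * T a (e3 Ω 2) (e3 Ω 2) ζ ζ (fun i => D (ζ i)) = 0 := by linear_combination -h2
    rw [hD, T_add5, T_smul5, h, (mul_eq_zero.1 h3).resolve_left three_ne_zero]
    ring
  have h2 : ∀ q v, T a (e3 Ω 2) (e3 Ω 2) ζ v (e3 Ω q) = 0 := by
    intro q v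
    obtain ⟨D, hD⟩ := der_vec ζ hζ0 hζ v
    have h2 := T_der a D (e3 Ω 2) (e3 Ω 2) ζ ζ (e3 Ω q)
    rw [h1, map_zero, hDe, T_zero1, T_zero2, hDe, T_zero5,
      T_s2 ha _ _ (fun i => D (ζ i)) ζ _] at h2
    have h3 : 2 * T a (e3 Ω 2) (e3 Ω 2) ζ (fun i => D (ζ i)) (e3 Ω q) = 0 := by
      linear_combination -h2
    rw [hD, T_add4, T_smul4, h1, (mul_eq_zero.1 h3).resolve_left two_ne_zero]
    ring
  have h3 : ∀ p q v, T a (e3 Ω 2) (e3 Ω 2) v (e3 Ω p) (e3 Ω q) = 0 := by
    intro p q v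
    obtain ⟨D, hD⟩ := der_vec ζ hζ0 hζ v
    have h4 := T_der a D (e3 Ω 2) (e3 Ω 2) ζ (e3 Ω p) (e3 Ω q)
    rw [h2, map_zero, hDe, T_zero1, T_zero2, hDe, T_zero4, hDe, T_zero5] at h4
    rw [hD, T_add3, T_smul3, h2]
    linear_combination -h4
  have h4 : ∀ v w u, T a (e3 Ω 2) (e3 Ω 2) v w u = 0 := by
    intro v w u
    rw [vec_eq w, vec_eq u]
    simp only [T_add4, T_add5, T_smul4, T_smul5, h3]
    ring
  obtain ⟨y, hy0, hy⟩ := Pool.Agent.H552R3.Tsen.exists_common_zero (ι := Fin 2)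
    (fun l : Fin 2 => ∑ p, ∑ q, ∑ r, C (algebraMap k Ω (a 2 (l.castSucc) p q r)) * X p * X q *
      X r : Fin 2 → MvPolynomial (Fin 3) Ω) (by
      intro i
      simp) (by simp)
  have h5 : ∀ l : Fin 2, T a (e3 Ω 2) (e3 Ω l.castSucc) y y y = 0 := by
    intro l
    rw [T_ee]
    have := hy l
    simp only [map_sum, map_mul, eval_C, eval_X] at this
    exact this
  refine hS (e3 Ω 2) y (fun h0 => ?_) hy0 (fun u => ?_) (fun v => h4 _ _ _)
  · have := congrFun h0 2
    simp [e3] at this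
  · rw [vec_eq u]
    have e0 : T a (e3 Ω 2) (e3 Ω 0) y y y = 0 := h5 0
    have e1 : T a (e3 Ω 2) (e3 Ω 1) y y y = 0 := h5 1
    simp only [T_add2, T_smul2, e0, e1, h4]
    ring

/-- choice of the coordinate -/
theorem exists_coord (hSall : ∀ (K : Type v) [Field K] [Algebra k K], Smo a K) (ha : Sy a)
    {x y : Fin 3 → Ω} (h : GP a x y) {ζ1 ζ2 : Ω} (hζ : AlgebraicIndependent k ![ζ1, ζ2])
    (hz0 : tp a x y 0 ≠ 0) (h1 : ζ1 = tp a x y 1 / tp a x y 0)
    (h2 : ζ2 = tp a x y 2 / tp a x y 0) :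
    ∃ i j : Fin 3, (∀ l, l = 0 ∨ l = i ∨ l = j) ∧ i ≠ 0 ∧ j ≠ 0 ∧ i ≠ j ∧
      y i ∉ cl k (Set.range ![ζ1, ζ2]) := by
  by_contra hcon
  have hy1 : y 1 ∈ cl k (Set.range ![ζ1, ζ2]) := by
    by_contra h3
    exact hcon ⟨1, 2, by decide, by decide, by decide, by decide, h3⟩
  have hy2 : y 2 ∈ cl k (Set.range ![ζ1, ζ2]) := by
    by_contra h3
    exact hcon ⟨2, 1, by decide, by decide, by decide, by decide, h3⟩
  have hmem : ∀ z ∈ cl k (Set.range ![ζ1, ζ2]), z ∈ cl k (Set.range ![y 1, y 2]) := by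
    intro z hz
    refine exch_mem ![y 1, y 2] ![ζ1, ζ2] (h.hy ha (hSall Ω)) (fun i => ?_) hz
    fin_cases i
    · exact hy1
    · exact hy2
  apply tp_not_rat' hSall ha h
  refine ⟨(tp a x y 0)⁻¹, inv_ne_zero hz0, fun i => ?_⟩
  fin_cases i
  · simp only [Fin.zero_eta]
    rw [inv_mul_cancel₀ hz0]
    exact one_mem _
  · simp only [Fin.mk_one]
    have h3 : (tp a x y 0)⁻¹ * tp a x y 1 = ζ1 := by rw [h1, div_eq_mul_inv, mul_comm]
    rw [h3]
    exact hmem _ (subset_cl _ ⟨0, rfl⟩)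
  · simp only [Fin.reduceFinMk]
    have h3 : (tp a x y 0)⁻¹ * tp a x y 2 = ζ2 := by rw [h2, div_eq_mul_inv, mul_comm]
    rw [h3]
    exact hmem _ (subset_cl _ ⟨1, rfl⟩)

end Pool.Agent.Y200.CB
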